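import Pool.Agent.Q97.UM.Stm10
import Pool.Agent.Q61.UM.SAMPb

set_option autoImplicit false

/-! Project UM5 (helper97), jobs DSC and SNG (helper257): common lemmas. -/

namespace Pool.Agent.Q257.UM

open Filter Topology MeasureTheory Complex
open Pool.Agent.Q97.UM Pool.Agent.Q61.UM

noncomputable section

theorem mem_ZD {T : ℝ} (hT : 16 ≤ T) (s : ℂ) :
    s ∈ ZD T ↔ 0 < s.re ∧ s.re < 1 ∧ T / 16 < s.im ∧ s.im ≤ 16 * T ∧ riemannZeta s = 0 := by
  unfold ZD
  rw [H370.mem_Zf H370.good_zeta (by linarith)]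
  rfl

theorem SS_nonneg (δ T t : ℝ) : 0 ≤ SS δ T t := by
  unfold SS
  exact Finset.sum_nonneg fun s _ => mul_nonneg (Nat.cast_nonneg _) (div_nonneg (Real.exp_pos _).le (sq_nonneg _))

theorem SS_cont {δ T : ℝ} (hL : 0 ≤ Real.log T) : Continuous (SS δ T) := by
  unfold SS
  refine continuous_finsetSum _ fun s _ => continuous_const.mul (continuous_const.div ?_ ?_)
  · exact ((continuous_const.add (continuous_const.mul (continuous_const.sub continuous_id).abs)).pow 2)
  · intro t
    have : 0 < 1 + Real.log T * |s.im - t| := by positivity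
    positivity

/-- `SS` varies slowly -/
theorem SS_cmp {δ T t v : ℝ} (hL : 0 < Real.log T) (h : |t - v| ≤ 2 / Real.log T) : SS δ T t ≤ 9 * SS δ T v := by
  unfold SS
  rw [Finset.mul_sum]
  refine Finset.sum_le_sum fun s _ => ?_
  have e : 9 * ((mz s : ℝ) * (Real.exp (2 * δ * (Real.log T * |s.re - 1 / 2|)) / (1 + Real.log T * |s.im - v|) ^ 2)) =
      (mz s : ℝ) * (9 * (Real.exp (2 * δ * (Real.log T * |s.re - 1 / 2|)) / (1 + Real.log T * |s.im - v|) ^ 2)) := by ring
  rw [e]
  refine mul_le_mul_of_nonneg_left ?_ (Nat.cast_nonneg _)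
  have h1 : 0 < 1 + Real.log T * |s.im - t| := by positivity
  have h2 : 0 < 1 + Real.log T * |s.im - v| := by positivity
  have h3 : 1 + Real.log T * |s.im - v| ≤ 3 * (1 + Real.log T * |s.im - t|) := by
    have h4 : |s.im - v| ≤ |s.im - t| + |t - v| := by
      have : s.im - v = (s.im - t) + (t - v) := by ring
      rw [this]; exact abs_add_le _ _
    have h5 : Real.log T * |t - v| ≤ 2 := by
      calc Real.log T * |t - v| ≤ Real.log T * (2 / Real.log T) := by gcongr
        _ = 2 := by field_simp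
    have h6 : 0 ≤ Real.log T * |s.im - t| := by positivity
    have h7 : Real.log T * |s.im - v| ≤ Real.log T * |s.im - t| + Real.log T * |t - v| := by
      rw [← mul_add]; gcongr
    linarith
  have hE := Real.exp_pos (2 * δ * (Real.log T * |s.re - 1 / 2|))
  rw [div_le_iff₀ (by positivity)]
  calc Real.exp (2 * δ * (Real.log T * |s.re - 1 / 2|)) =
        Real.exp (2 * δ * (Real.log T * |s.re - 1 / 2|)) / (1 + Real.log T * |s.im - v|) ^ 2 *
          (1 + Real.log T * |s.im - v|) ^ 2 := by field_simp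
    _ ≤ Real.exp (2 * δ * (Real.log T * |s.re - 1 / 2|)) / (1 + Real.log T * |s.im - v|) ^ 2 *
          (3 * (1 + Real.log T * |s.im - t|)) ^ 2 := by gcongr
    _ = _ := by ring

open Classical in
/-- the number of zeros in a short window -/
theorem cnt_le {δ T t : ℝ} (hδ : 0 ≤ δ) (hL : 0 < Real.log T) :
    ∑ s ∈ (ZD T).filter (fun s => |s.im - t| ≤ 1 / Real.log T), (mz s : ℝ) ≤ 4 * SS δ T t := by
  unfold SS
  rw [Finset.mul_sum]
  refine le_trans ?_ (Finset.sum_le_sum_of_subset_of_nonneg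
    (Finset.filter_subset (fun s : ℂ => |s.im - t| ≤ 1 / Real.log T) (ZD T)) fun s _ _ =>
    mul_nonneg (by norm_num) (mul_nonneg (Nat.cast_nonneg _) (div_nonneg (Real.exp_pos _).le (sq_nonneg _))))
  refine Finset.sum_le_sum fun s hs => ?_
  have h1 := (Finset.mem_filter.1 hs).2
  have h2 : Real.log T * |s.im - t| ≤ 1 := by
    calc Real.log T * |s.im - t| ≤ Real.log T * (1 / Real.log T) := by gcongr
      _ = 1 := by field_simp
  have h3 : 0 ≤ Real.log T * |s.im - t| := by positivity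
  have h4 : 1 ≤ Real.exp (2 * δ * (Real.log T * |s.re - 1 / 2|)) := Real.one_le_exp (by positivity)
  have e : 4 * ((mz s : ℝ) * (Real.exp (2 * δ * (Real.log T * |s.re - 1 / 2|)) / (1 + Real.log T * |s.im - t|) ^ 2)) =
      (mz s : ℝ) * (4 * Real.exp (2 * δ * (Real.log T * |s.re - 1 / 2|)) / (1 + Real.log T * |s.im - t|) ^ 2) := by ring
  rw [e]
  refine le_mul_of_one_le_right (Nat.cast_nonneg _) ?_
  rw [one_le_div (by positivity)]
  nlinarith

/-- the majorant of `|B|²` -/
def Gm (N : ℕ) (b : ℕ → ℂ) (L v : ℝ) : ℝ := 3 / 2 * ‖dp N b v‖ ^ 2 + L⁻¹ ^ 2 * ‖dp N (bd b) v‖ ^ 2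

theorem Gm_nonneg (N : ℕ) (b : ℕ → ℂ) (L v : ℝ) : 0 ≤ Gm N b L v := by
  unfold Gm
  positivity

theorem Gm_cont (hD : S_DPM) (N : ℕ) (b : ℕ → ℂ) (L : ℝ) : Continuous (Gm N b L) := by
  have hc : ∀ c : ℕ → ℂ, Continuous (dp N c) := fun c => (hD.2.2 N c 0).2
  unfold Gm
  exact (((hc b).norm.pow 2).const_mul _).add (((hc (bd b)).norm.pow 2).const_mul _)

/-- Sobolev's inequality on a short window -/
theorem sob (hD : S_DPM) (N : ℕ) (b : ℕ → ℂ) {L γ t : ℝ} (hL : 0 < L) (h : |γ - t| ≤ 1 / L) :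
    ‖dp N b t‖ ^ 2 ≤ L * ∫ v in (γ - 1 / L)..(γ + 1 / L), Gm N b L v := by
  have hr : 0 < 1 / L := by positivity
  have hc : ∀ c : ℕ → ℂ, Continuous (dp N c) := fun c => (hD.2.2 N c 0).2
  set k : ℝ → ℝ := fun t => L * ‖dp N b t‖ ^ 2 + L⁻¹ * ‖dp N (bd b) t‖ ^ 2 with hk
  have hkc : Continuous k := (((hc b).norm.pow 2).const_mul _).add (((hc (bd b)).norm.pow 2).const_mul _)
  have hk0 : ∀ t, 0 ≤ k t := fun t => by rw [hk]; positivity
  have hfc : Continuous fun t => ‖dp N b t‖ ^ 2 := (hc b).norm.pow 2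
  obtain ⟨ht1, ht2⟩ := abs_le.1 h
  set Kt := ∫ v in (γ - 1 / L)..(γ + 1 / L), k v with hKt
  have h1 : ∀ v ∈ Set.Icc (γ - 1 / L) (γ + 1 / L), ‖dp N b t‖ ^ 2 ≤ ‖dp N b v‖ ^ 2 + Kt := by
    intro v hv
    obtain ⟨hv1, hv2⟩ := hv
    have h2 := dp_var hD N b hL v t
    have h3 : |∫ x in v..t, k x| ≤ Kt := by
      rcases le_total v t with h | h
      · rw [abs_of_nonneg (intervalIntegral.integral_nonneg h fun t _ => hk0 t)]
        exact intervalIntegral.integral_mono_interval hv1 h (by linarith)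
          (Eventually.of_forall fun t => hk0 t) (hkc.intervalIntegrable _ _)
      · rw [intervalIntegral.integral_symm, abs_neg, abs_of_nonneg (intervalIntegral.integral_nonneg h fun t _ => hk0 t)]
        exact intervalIntegral.integral_mono_interval (by linarith) h hv2
          (Eventually.of_forall fun t => hk0 t) (hkc.intervalIntegrable _ _)
    have h4 := (abs_le.1 (h2.trans h3)).2
    linarith
  have h2 : ∫ v in (γ - 1 / L)..(γ + 1 / L), ‖dp N b t‖ ^ 2 ≤
      ∫ v in (γ - 1 / L)..(γ + 1 / L), (‖dp N b v‖ ^ 2 + Kt) :=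
    intervalIntegral.integral_mono_on (by linarith) (by simp)
      ((hfc.add continuous_const).intervalIntegrable _ _) h1
  rw [intervalIntegral.integral_const, intervalIntegral.integral_add (hfc.intervalIntegrable _ _) (by simp),
    intervalIntegral.integral_const, smul_eq_mul, smul_eq_mul] at h2
  have h3 : L * ∫ v in (γ - 1 / L)..(γ + 1 / L), Gm N b L v =
      L / 2 * (∫ v in (γ - 1 / L)..(γ + 1 / L), ‖dp N b v‖ ^ 2) + Kt := by
    rw [hKt, ← intervalIntegral.integral_const_mul, ← intervalIntegral.integral_const_mul,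
      ← intervalIntegral.integral_add ((hfc.const_mul _).intervalIntegrable _ _) (hkc.intervalIntegrable _ _)]
    refine intervalIntegral.integral_congr fun v _ => ?_
    simp only [Gm, hk]
    field_simp
    ring
  rw [h3]
  have h4 : γ + 1 / L - (γ - 1 / L) = 2 / L := by ring
  rw [h4] at h2
  have h5 : ‖dp N b t‖ ^ 2 = L / 2 * (2 / L * ‖dp N b t‖ ^ 2) := by field_simp
  have h6 : L / 2 * (2 / L * ‖dp N b t‖ ^ 2) ≤
      L / 2 * ((∫ v in (γ - 1 / L)..(γ + 1 / L), ‖dp N b v‖ ^ 2) + 2 / L * Kt) := by gcongr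
  rw [h5]
  refine h6.trans (le_of_eq ?_)
  field_simp

/-- the basic sum over the zeros -/
theorem key (hD : S_DPM) {θ δ C : ℝ} {m : ℕ} (hδ : 0 ≤ δ) (hθ : 0 ≤ θ) (hθ1 : θ ≤ 1) (hS : SSB θ δ (m + 1) C) :
    ∀ᶠ T : ℝ in atTop, ∀ N : ℕ, (N : ℝ) ≤ T ^ θ → ∀ b : ℕ → ℂ, ∀ F : Finset ℂ,
      (∀ s ∈ F, s ∈ ZD T ∧ T / 3 ≤ s.im ∧ s.im ≤ 5 * T) →
      ∑ s ∈ F, (mz s : ℝ) * ∫ v in (s.im - 1 / Real.log T)..(s.im + 1 / Real.log T),
        SS δ T v ^ m * Gm N b (Real.log T) v ≤ 4 * (5 / 2 * (C * T * N2 N b)) := by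
  filter_upwards [hS, eventually_ge_atTop (Real.exp 2), eventually_ge_atTop 16] with T hT hTe hT16
  intro N hN b F hF
  have hT0 : 0 < T := by linarith
  have hL2 : 2 ≤ Real.log T := by rw [Real.le_log_iff_exp_le hT0]; exact hTe
  have hL : 0 < Real.log T := by linarith
  have hr : 1 / Real.log T ≤ 1 := by rw [div_le_one hL]; linarith
  have hr0 : 0 < 1 / Real.log T := by positivity
  have hfc : Continuous fun v => SS δ T v ^ m * Gm N b (Real.log T) v :=
    ((SS_cont hL.le).pow m).mul (Gm_cont hD N b _)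
  have hf0 : ∀ v, 0 ≤ SS δ T v ^ m * Gm N b (Real.log T) v := fun v =>
    mul_nonneg (pow_nonneg (SS_nonneg _ _ _) _) (Gm_nonneg _ _ _ _)
  have h1 : ∑ s ∈ F, (mz s : ℝ) * ∫ v in (s.im - 1 / Real.log T)..(s.im + 1 / Real.log T),
        SS δ T v ^ m * Gm N b (Real.log T) v =
      ∫ v in (T / 4)..(8 * T), (∑ s ∈ F.filter (fun s => |s.im - v| ≤ 1 / Real.log T), (mz s : ℝ)) *
        (SS δ T v ^ m * Gm N b (Real.log T) v) := by
    rw [win_sum hfc]
    refine Finset.sum_congr rfl fun s hs => ?_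
    obtain ⟨-, h2, h3⟩ := hF s hs
    rw [ind_in (by linarith) (by linarith) (by linarith)]
  have hint : ∀ f : ℝ → ℝ, Continuous f → IntervalIntegrable f volume (T / 4) (8 * T) := fun f hf =>
    hf.intervalIntegrable _ _
  have hAB : T / 4 ≤ 8 * T := by linarith
  have h2 : ∫ v in (T / 4)..(8 * T), (∑ s ∈ F.filter (fun s => |s.im - v| ≤ 1 / Real.log T), (mz s : ℝ)) *
        (SS δ T v ^ m * Gm N b (Real.log T) v) ≤
      ∫ v in (T / 4)..(8 * T), 4 * (SS δ T v ^ (m + 1) * Gm N b (Real.log T) v) := by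
    apply intervalIntegral.integral_mono_on hAB
    · -- integrability of the left side
      have e : (fun v => (∑ s ∈ F.filter (fun s => |s.im - v| ≤ 1 / Real.log T), (mz s : ℝ)) *
          (SS δ T v ^ m * Gm N b (Real.log T) v)) = fun v => ∑ s ∈ F, (mz s : ℝ) *
            Set.indicator (Set.Icc (s.im - 1 / Real.log T) (s.im + 1 / Real.log T))
              (fun v => SS δ T v ^ m * Gm N b (Real.log T) v) v := by
        funext t
        rw [Finset.sum_filter, Finset.sum_mul]
        refine Finset.sum_congr rfl fun s _ => ?_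
        by_cases h : |s.im - t| ≤ 1 / Real.log T
        · rw [if_pos h, Set.indicator_of_mem ((mem_win _ _ _).2 h)]
        · rw [if_neg h, Set.indicator_of_notMem (fun h' => h ((mem_win _ _ _).1 h'))]
          ring
      rw [e]
      have hsum := IntervalIntegrable.sum (μ := volume) (a := T / 4) (b := 8 * T) F
        (f := fun s : ℂ => fun v : ℝ => (mz s : ℝ) *
            Set.indicator (Set.Icc (s.im - 1 / Real.log T) (s.im + 1 / Real.log T))
              (fun v => SS δ T v ^ m * Gm N b (Real.log T) v) v)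
        (fun s _ => (ind_ii hfc _ _ _ _).const_mul _)
      have e2 : (fun v => ∑ s ∈ F, (mz s : ℝ) *
            Set.indicator (Set.Icc (s.im - 1 / Real.log T) (s.im + 1 / Real.log T))
              (fun v => SS δ T v ^ m * Gm N b (Real.log T) v) v) = ∑ s ∈ F, fun v : ℝ => (mz s : ℝ) *
            Set.indicator (Set.Icc (s.im - 1 / Real.log T) (s.im + 1 / Real.log T))
              (fun v => SS δ T v ^ m * Gm N b (Real.log T) v) v := by
        funext v
        rw [Finset.sum_apply]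
      rw [e2]
      exact hsum
    · exact hint _ ((((SS_cont hL.le).pow (m + 1)).mul (Gm_cont hD N b _)).const_mul 4)
    · intro v _
      have h3 : ∑ s ∈ F.filter (fun s => |s.im - v| ≤ 1 / Real.log T), (mz s : ℝ) ≤ 4 * SS δ T v := by
        refine le_trans ?_ (cnt_le hδ hL)
        refine Finset.sum_le_sum_of_subset_of_nonneg (fun s hs => ?_) fun _ _ _ => Nat.cast_nonneg _
        rw [Finset.mem_filter] at hs ⊢
        exact ⟨(hF s hs.1).1, hs.2⟩
      calc _ ≤ 4 * SS δ T v * (SS δ T v ^ m * Gm N b (Real.log T) v) := mul_le_mul_of_nonneg_right h3 (hf0 v)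
        _ = _ := by ring
  rw [h1]
  refine h2.trans ?_
  rw [intervalIntegral.integral_const_mul]
  refine mul_le_mul_of_nonneg_left ?_ (by norm_num)
  have hc : ∀ c : ℕ → ℂ, Continuous (dp N c) := fun c => (hD.2.2 N c 0).2
  have hS1 : Continuous fun v => SS δ T v ^ (m + 1) := (SS_cont hL.le).pow (m + 1)
  have h3 : ∫ v in (T / 4)..(8 * T), SS δ T v ^ (m + 1) * Gm N b (Real.log T) v =
      3 / 2 * (∫ v in (T / 4)..(8 * T), SS δ T v ^ (m + 1) * ‖dp N b v‖ ^ 2) +
      (Real.log T)⁻¹ ^ 2 * ∫ v in (T / 4)..(8 * T), SS δ T v ^ (m + 1) * ‖dp N (bd b) v‖ ^ 2 := by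
    have hA : Continuous fun v => 3 / 2 * (SS δ T v ^ (m + 1) * ‖dp N b v‖ ^ 2) :=
      (hS1.mul ((hc b).norm.pow 2)).const_mul _
    have hB : Continuous fun v => (Real.log T)⁻¹ ^ 2 * (SS δ T v ^ (m + 1) * ‖dp N (bd b) v‖ ^ 2) :=
      (hS1.mul ((hc (bd b)).norm.pow 2)).const_mul _
    rw [← intervalIntegral.integral_const_mul, ← intervalIntegral.integral_const_mul,
      ← intervalIntegral.integral_add (hint _ hA) (hint _ hB)]
    refine intervalIntegral.integral_congr fun v _ => ?_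
    simp only [Gm]
    ring
  rw [h3]
  have h4 := hT N hN b
  have h5 := hT N hN (bd b)
  have hN2 : N2 N (bd b) ≤ Real.log T ^ 2 * N2 N b := by
    refine (N2_bd N b).trans ?_
    have h6 : |Real.log N| ≤ Real.log T := by
      have hn0 : 0 ≤ Real.log N := Real.log_natCast_nonneg N
      rw [abs_of_nonneg hn0]
      rcases Nat.eq_zero_or_pos N with h | h
      · rw [h]; simp only [Nat.cast_zero, Real.log_zero]; exact hL.le
      · have hNp : (0 : ℝ) < N := by exact_mod_cast h
        have : Real.log N ≤ Real.log (T ^ θ) := Real.log_le_log hNp hN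
        rw [Real.log_rpow hT0] at this
        nlinarith
    have h7 : Real.log N ^ 2 ≤ Real.log T ^ 2 := by rw [← sq_abs (Real.log N)]; gcongr
    exact mul_le_mul_of_nonneg_right h7 (N2_nonneg N b)
  have h5' : (Real.log T)⁻¹ ^ 2 * ∫ v in (T / 4)..(8 * T), SS δ T v ^ (m + 1) * ‖dp N (bd b) v‖ ^ 2 ≤ C * T * N2 N b := by
    have hint0 : 0 ≤ ∫ v in (T / 4)..(8 * T), SS δ T v ^ (m + 1) * ‖dp N (bd b) v‖ ^ 2 :=
      intervalIntegral.integral_nonneg hAB fun v _ => mul_nonneg (pow_nonneg (SS_nonneg _ _ _) _) (by positivity)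
    by_cases hC : 0 ≤ C
    · calc (Real.log T)⁻¹ ^ 2 * ∫ v in (T / 4)..(8 * T), SS δ T v ^ (m + 1) * ‖dp N (bd b) v‖ ^ 2 ≤
            (Real.log T)⁻¹ ^ 2 * (C * T * (Real.log T ^ 2 * N2 N b)) := by
            refine mul_le_mul_of_nonneg_left (h5.trans ?_) (by positivity)
            exact mul_le_mul_of_nonneg_left hN2 (by positivity)
        _ = C * T * N2 N b := by field_simp
    · -- degenerate case: everything vanishes
      push Not at hC
      have hb0 : 0 ≤ ∫ v in (T / 4)..(8 * T), SS δ T v ^ (m + 1) * ‖dp N b v‖ ^ 2 :=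
        intervalIntegral.integral_nonneg hAB fun v _ => mul_nonneg (pow_nonneg (SS_nonneg _ _ _) _) (by positivity)
      have hn : N2 N b = 0 := by
        have h8 : 0 ≤ C * T * N2 N b := hb0.trans h4
        have h9 : C * T < 0 := mul_neg_of_neg_of_pos hC hT0
        have h10 := N2_nonneg N b
        nlinarith
      have hn' : N2 N (bd b) = 0 := by
        have := N2_nonneg N (bd b)
        rw [hn, mul_zero] at hN2
        linarith
      rw [hn', mul_zero] at h5
      have : ∫ v in (T / 4)..(8 * T), SS δ T v ^ (m + 1) * ‖dp N (bd b) v‖ ^ 2 = 0 := le_antisymm h5 hint0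
      rw [this, hn]
      simp
  calc _ ≤ 3 / 2 * (C * T * N2 N b) + C * T * N2 N b := by gcongr
    _ = _ := by ring

end

end Pool.Agent.Q257.UM
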