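import Pool.Agent.Q62.UM.Stm1

/-! Project UM: common lemmas for the jobs S5 and S6. -/

set_option autoImplicit false

open Real Set MeasureTheory Topology Filter
open Pool.Agent.Q62.UM

namespace Pool.Agent.Q257.UM

noncomputable section

variable {d N : ℕ} {x : Fin d → ℝ} {dir : Fin N → Fin d} {e : Fin N → ℝ}

/-- the fourth root of `Hf` -/
def rt (x : Fin d → ℝ) (k : Fin d) : ℝ := √(√(Hf (x k)))

/-- the fourth root of `e` -/
def fr (e : Fin N → ℝ) (j : Fin N) : ℝ := √(√(e j))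

/-- the normalized weights of the roots -/
def AA (dir : Fin N → Fin d) (x : Fin d → ℝ) (e : Fin N → ℝ) (j : Fin N) : ℝ :=
  aa dir x e j / (1 + ∑ i, aa dir x e i)

lemma asum {n : ℕ} (g : Fin n → ℝ) (B : ℝ) (h : ∀ i, |g i| ≤ B) : |∑ i, g i| ≤ n * B := by
  refine (Finset.abs_sum_le_sum_abs _ _).trans ?_
  refine (Finset.sum_le_sum fun i _ => h i).trans ?_
  rw [Finset.sum_const, nsmul_eq_mul, Finset.card_univ, Fintype.card_fin]

lemma rt_pos (h : ∀ k, 0 < Hf (x k)) (k : Fin d) : 0 < rt x k := sqrt_pos.2 (sqrt_pos.2 (h k))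

lemma rt_sq (x : Fin d → ℝ) (k : Fin d) : rt x k ^ 2 = √(Hf (x k)) := sq_sqrt (sqrt_nonneg _)

lemma rt_four (x : Fin d → ℝ) (k : Fin d) : rt x k ^ 4 = Hf (x k) := by
  rw [show (4 : ℕ) = 2 * 2 from rfl, pow_mul, rt_sq, sq_sqrt (Hf_nonneg _)]

lemma fr_pos (he : ∀ j, 0 < e j) (j : Fin N) : 0 < fr e j := sqrt_pos.2 (sqrt_pos.2 (he j))

lemma fr_sq (e : Fin N → ℝ) (j : Fin N) : fr e j ^ 2 = √(e j) := sq_sqrt (sqrt_nonneg _)

lemma fr_four (he : ∀ j, 0 < e j) (j : Fin N) : fr e j ^ 4 = e j := by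
  rw [show (4 : ℕ) = 2 * 2 from rfl, pow_mul, fr_sq, sq_sqrt (he j).le]

lemma sin_rt (x : Fin d → ℝ) (k : Fin d) : |sin (x k)| ≤ rt x k ^ 2 := by
  rw [rt_sq]; exact abs_sin_le _

lemma lam_rt (h : ∀ k, 0 < Hf (x k)) (i k : Fin d) : lam x i * rt x i ≤ rt x k := lam_r4 h i k

lemma lam_rt_le (h : ∀ k, 0 < Hf (x k)) (i k : Fin d) : lam x i * rt x k ≤ rt x k := by
  have := rt_pos h k
  nlinarith [lam_le_one x i]

lemma Lam_rt (h : ∀ k, 0 < Hf (x k)) (k : Fin d) : |Lam x| ≤ d * rt x k ^ 2 := by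
  rw [rt_sq]; exact Lam_le h k

lemma Lam_rr (h : ∀ k, 0 < Hf (x k)) (i k : Fin d) : |Lam x| ≤ d * (rt x i * rt x k) := by
  have hi := rt_pos h i
  have hk := rt_pos h k
  rcases le_total (rt x i) (rt x k) with h1 | h1
  · refine (Lam_rt h i).trans (mul_le_mul_of_nonneg_left ?_ (Nat.cast_nonneg _))
    nlinarith
  · refine (Lam_rt h k).trans (mul_le_mul_of_nonneg_left ?_ (Nat.cast_nonneg _))
    nlinarith

lemma l0_nonneg (x : Fin d → ℝ) : 0 ≤ 1 - ∑ k, lam x k := by linarith [sum_lam_le x]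

lemma l0_le (h : ∀ k, 0 < Hf (x k)) (k : Fin d) : 1 - ∑ k, lam x k ≤ rt x k ^ 4 := by
  rw [rt_four]; exact one_sub_sum_le h k

lemma l0_le_rt (h : ∀ k, 0 < Hf (x k)) (k : Fin d) : 1 - ∑ k, lam x k ≤ rt x k := by
  have h1 := l0_le h k
  have h2 : 0 ≤ ∑ k, lam x k := Finset.sum_nonneg fun i _ => lam_nonneg x i
  have h3 := rt_pos h k
  rcases le_total (rt x k) 1 with h4 | h4
  · have : rt x k ^ 4 ≤ rt x k := pow_le_of_le_one h3.le h4 (by norm_num)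
    linarith
  · linarith

lemma A_nonneg (he : ∀ j, 0 < e j) (j : Fin N) : 0 ≤ AA dir x e j :=
  div_nonneg (aa_nonneg he j) (by have := sum_aa_nonneg (x := x) (dir := dir) he; linarith)

lemma A_le_one (he : ∀ j, 0 < e j) (j : Fin N) : AA dir x e j ≤ 1 := aq_le_one he j

lemma A_rt (he : ∀ j, 0 < e j) (j : Fin N) : AA dir x e j * rt x (dir j) ≤ fr e j :=
  (mul_le_mul_of_nonneg_right (aq_le he j) (sqrt_nonneg _)).trans
    (k2_le (he j) (Hf_nonneg _))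

lemma A_rt2 (he : ∀ j, 0 < e j) (j : Fin N) : AA dir x e j * rt x (dir j) ^ 2 ≤ fr e j ^ 2 := by
  rw [rt_sq, fr_sq]
  refine (mul_le_mul_of_nonneg_right (aq_le he j) (sqrt_nonneg _)).trans
    ((k1_le (he j) (Hf_nonneg _)).trans ?_)
  have := sqrt_nonneg (e j)
  linarith

lemma mb_eq (dir : Fin N → Fin d) (x : Fin d → ℝ) (e m : Fin N → ℝ) :
    mb dir x e m = ∑ j, AA dir x e j * m j := by
  rw [mb, Finset.sum_div]
  exact Finset.sum_congr rfl fun j _ => by rw [AA]; ring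

lemma mb_le (he : ∀ j, 0 < e j) (m : Fin N → ℝ) :
    |mb dir x e m| ≤ ∑ j, AA dir x e j * |m j| := by
  rw [mb_eq]
  refine (Finset.abs_sum_le_sum_abs _ _).trans (le_of_eq ?_)
  exact Finset.sum_congr rfl fun j _ => by rw [abs_mul, abs_of_nonneg (A_nonneg he j)]

lemma dlam_sum (x δ u : Fin d → ℝ) :
    ∑ k, dlam x δ k * u k = -∑ k, lam x k * cc x δ k * (u k - ∑ i, lam x i * u i) := by
  simp only [dlam, mul_sub, Finset.sum_sub_distrib, sub_mul]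
  have h1 : ∑ k, lam x k * (∑ i, lam x i * cc x δ i) * u k =
      (∑ i, lam x i * cc x δ i) * ∑ k, lam x k * u k := by
    rw [Finset.mul_sum]
    exact Finset.sum_congr rfl fun k _ => by ring
  have h2 : ∑ k, lam x k * cc x δ k * (∑ i, lam x i * u i) =
      (∑ i, lam x i * cc x δ i) * ∑ k, lam x k * u k := by
    rw [Finset.sum_mul]
  rw [h1, h2]
  ring

lemma sub_mean (x u : Fin d → ℝ) (k : Fin d) : u k - ∑ i, lam x i * u i =
    (1 - ∑ i, lam x i) * u k + ∑ i, lam x i * (u k - u i) := by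
  simp only [mul_sub, Finset.sum_sub_distrib, ← Finset.sum_mul]
  ring

lemma dLam_eq (x δ : Fin d → ℝ) :
    dLam x δ = ∑ k, lam x k * (cos (x k) * δ k - cc x δ k * (sin (x k) - Lam x)) := by
  rw [dLam, Finset.sum_add_distrib, dlam_sum x δ (fun k => sin (x k)), ← Finset.sum_neg_distrib,
    ← Finset.sum_add_distrib]
  refine Finset.sum_congr rfl fun k _ => ?_
  rw [Lam]
  ring

/-- the relative derivative of `aa` -/
def al (dir : Fin N → Fin d) (x δ : Fin d → ℝ) (e n : Fin N → ℝ) (j : Fin N) : ℝ :=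
  n j - (2 * e j ^ 2 * n j + 2 * sin (x (dir j)) * δ (dir j)) / (e j ^ 2 + Hf (x (dir j)))

lemma dmb_eq (x δ : Fin d → ℝ) (m n l : Fin N → ℝ) :
    dmb dir x δ e m n l = ∑ j, AA dir x e j * (al dir x δ e n j * (m j - mb dir x e m) + l j) := by
  rw [dmb, Finset.sum_div]
  refine Finset.sum_congr rfl fun j _ => ?_
  rw [AA, daa, al]
  ring

lemma cc_le (h : ∀ k, 0 < Hf (x k)) (δ : Fin d → ℝ) (k : Fin d) :
    |cc x δ k| * rt x k ^ 2 ≤ 2 * |δ k| := by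
  have h1 := rt_pos h k
  rw [cc, abs_div, abs_of_pos (h k), ← rt_four, abs_mul, abs_mul, abs_two]
  have h2 := sin_rt x k
  have h3 : 2 * |sin (x k)| * |δ k| / rt x k ^ 4 * rt x k ^ 2 =
      2 * |δ k| * (|sin (x k)| / rt x k ^ 2) := by
    field_simp
  rw [h3]
  have h4 : |sin (x k)| / rt x k ^ 2 ≤ 1 := by
    rw [div_le_one (by positivity)]; exact h2
  have h5 : 0 ≤ 2 * |δ k| := by positivity
  nlinarith

lemma MM_facts (d N : ℕ) : (1 : ℝ) ≤ MM d N ∧ (d : ℝ) ≤ MM d N ∧ (N : ℝ) ≤ MM d N ∧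
    (N : ℝ) * d ≤ MM d N ∧ (d : ℝ) ^ 2 ≤ MM d N ^ 2 ∧ (N : ℝ) * d ^ 2 ≤ MM d N ^ 2 ∧
    (N : ℝ) ^ 2 * d ≤ MM d N ^ 2 ∧ MM d N ≤ MM d N ^ 2 := by
  have hn : (0 : ℝ) ≤ N := Nat.cast_nonneg _
  have hd : (0 : ℝ) ≤ d := Nat.cast_nonneg _
  have h1 : 0 ≤ (N : ℝ) * d := by positivity
  have h2 : (1 : ℝ) ≤ MM d N := by unfold MM; nlinarith
  refine ⟨h2, by unfold MM; nlinarith, by unfold MM; nlinarith, by unfold MM; nlinarith,
    pow_le_pow_left₀ hd (by unfold MM; nlinarith) 2, ?_, ?_, by nlinarith⟩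
  · have : MM d N ^ 2 - (N : ℝ) * d ^ 2 = (N : ℝ) ^ 2 * (d + 1) ^ 2 + (N * d ^ 2 + 2 * N * (2 * d + 1))
        + (d + 1) ^ 2 := by
      unfold MM; ring
    have h3 : 0 ≤ (N : ℝ) ^ 2 * (d + 1) ^ 2 + (N * d ^ 2 + 2 * N * (2 * d + 1)) + (d + 1) ^ 2 := by
      positivity
    linarith
  · have : MM d N ^ 2 - (N : ℝ) ^ 2 * d = (N : ℝ) ^ 2 * (d ^ 2 + d + 1) + (2 * N + 1) * (d + 1) ^ 2
        := by
      unfold MM; ring
    have h3 : 0 ≤ (N : ℝ) ^ 2 * (d ^ 2 + d + 1) + (2 * N + 1) * ((d : ℝ) + 1) ^ 2 := by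
      positivity
    linarith

end

end Pool.Agent.Q257.UM
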