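import Pool.Agent.Q257.UM.Cm

set_option autoImplicit false

/-! Project UM5 (helper97), job DSC (helper257). -/

namespace Pool.Agent.Q257.UM

open Filter Topology MeasureTheory Complex
open Pool.Agent.Q97.UM Pool.Agent.Q61.UM

noncomputable section

theorem int_le_pow (hD : S_DPM) {δ T L γ t : ℝ} (hLT : L = Real.log T) (hL : 0 < L) (m N : ℕ) (b : ℕ → ℂ)
    (h : |γ - t| ≤ 1 / L) {c : ℝ} (hc : 0 ≤ c) :
    (c * SS δ T t) ^ m * ‖dp N b t‖ ^ 2 ≤
      (9 * c) ^ m * (L * ∫ v in (γ - 1 / L)..(γ + 1 / L), SS δ T v ^ m * Gm N b L v) := by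
  have h1 := sob hD N b hL h
  have hr : 0 < 1 / L := by positivity
  have hS0 := SS_nonneg δ T t
  have hLT' : 0 < Real.log T := by rw [← hLT]; exact hL
  have h2 : (c * SS δ T t) ^ m * ‖dp N b t‖ ^ 2 ≤
      (c * SS δ T t) ^ m * (L * ∫ v in (γ - 1 / L)..(γ + 1 / L), Gm N b L v) := by gcongr
  refine h2.trans ?_
  have e : (c * SS δ T t) ^ m * (L * ∫ v in (γ - 1 / L)..(γ + 1 / L), Gm N b L v) =
      L * ∫ v in (γ - 1 / L)..(γ + 1 / L), (c * SS δ T t) ^ m * Gm N b L v := by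
    rw [intervalIntegral.integral_const_mul]; ring
  have e2 : (9 * c) ^ m * (L * ∫ v in (γ - 1 / L)..(γ + 1 / L), SS δ T v ^ m * Gm N b L v) =
      L * ∫ v in (γ - 1 / L)..(γ + 1 / L), (9 * c) ^ m * (SS δ T v ^ m * Gm N b L v) := by
    rw [intervalIntegral.integral_const_mul]; ring
  rw [e, e2]
  refine mul_le_mul_of_nonneg_left ?_ hL.le
  have hG := Gm_cont hD N b L
  have hSc : Continuous (SS δ T) := SS_cont hLT'.le
  refine intervalIntegral.integral_mono_on (by linarith) ((hG.const_mul _).intervalIntegrable _ _)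
    ((((hSc.pow m).mul hG).const_mul _).intervalIntegrable _ _) fun v hv => ?_
  obtain ⟨hv1, hv2⟩ := hv
  obtain ⟨ht1, ht2⟩ := abs_le.1 h
  have h3 : |t - v| ≤ 2 / Real.log T := by
    rw [← hLT]
    have : 2 / L = 1 / L + 1 / L := by ring
    rw [this, abs_le]
    constructor <;> linarith
  have h4 := SS_cmp (δ := δ) hLT' h3
  have h5 : (c * SS δ T t) ^ m ≤ (9 * c) ^ m * SS δ T v ^ m := by
    rw [← mul_pow]
    have : c * SS δ T t ≤ 9 * c * SS δ T v := by nlinarith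
    gcongr
  calc (c * SS δ T t) ^ m * Gm N b L v ≤ ((9 * c) ^ m * SS δ T v ^ m) * Gm N b L v :=
        mul_le_mul_of_nonneg_right h5 (Gm_nonneg _ _ _ _)
    _ = _ := by ring

theorem t_DSC : J_DSC := by
  intro hD _ θ δ m C hθ hθ1 hδ hC hS
  refine ⟨10 * 9 ^ m * C, by positivity, ?_⟩
  filter_upwards [key hD hδ.le hθ.le (by linarith) hS, eventually_ge_atTop (Real.exp 2), eventually_ge_atTop 16]
    with T hT hTe hT16
  intro N hN b
  have hT0 : 0 < T := by linarith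
  have hL2 : 2 ≤ Real.log T := by rw [Real.le_log_iff_exp_le hT0]; exact hTe
  have hL : 0 < Real.log T := by linarith
  have hF : ∀ s ∈ H370.Zf riemannZeta T (2 * T), s ∈ ZD T ∧ T / 3 ≤ s.im ∧ s.im ≤ 5 * T := by
    intro s hs
    rw [H370.mem_Zf H370.good_zeta (by linarith)] at hs
    obtain ⟨a1, a2, a3, a4, a5⟩ := hs
    exact ⟨(mem_ZD hT16 s).2 ⟨a1, a2, by linarith, by linarith, a5⟩, by linarith, by linarith⟩
  have h1 := hT N hN b _ hF
  have h2 : ∑ s ∈ H370.Zf riemannZeta T (2 * T), (mz s : ℝ) * (SS δ T s.im ^ m * ‖dp N b s.im‖ ^ 2) ≤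
      ∑ s ∈ H370.Zf riemannZeta T (2 * T), 9 ^ m * Real.log T * ((mz s : ℝ) *
        ∫ v in (s.im - 1 / Real.log T)..(s.im + 1 / Real.log T), SS δ T v ^ m * Gm N b (Real.log T) v) := by
    refine Finset.sum_le_sum fun s _ => ?_
    have h3 := int_le_pow (δ := δ) hD rfl hL m N b (γ := s.im) (t := s.im) (by simp; positivity)
      (zero_le_one (α := ℝ))
    rw [one_mul, mul_one] at h3
    calc (mz s : ℝ) * (SS δ T s.im ^ m * ‖dp N b s.im‖ ^ 2) ≤ (mz s : ℝ) * (9 ^ m * (Real.log T *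
          ∫ v in (s.im - 1 / Real.log T)..(s.im + 1 / Real.log T), SS δ T v ^ m * Gm N b (Real.log T) v)) := by
          gcongr
      _ = _ := by ring
  refine h2.trans ?_
  rw [← Finset.mul_sum]
  calc _ ≤ 9 ^ m * Real.log T * (4 * (5 / 2 * (C * T * N2 N b))) := by gcongr
    _ = _ := by ring

end

end Pool.Agent.Q257.UM
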