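import Pool.Agent.Q257.UM.Bs

/-! Project UM, job S5: the derivative of `b` along the field is small. -/

set_option autoImplicit false

open Real Set MeasureTheory Topology Filter
open Pool.Agent.Q62.UM

namespace Pool.Agent.Q257.UM

theorem t_S5 : S_S5 := by
  intro d N dir x v w e m l κ hJ hH hb hδ0
  obtain ⟨M1, M2, M3, M4, M5, M6, M7, M8⟩ := MM_facts d N
  set M := MM d N with hM
  obtain ⟨C, hC⟩ : ∃ C : ℝ, C = 3 * M := ⟨_, rfl⟩
  have hC3 : 3 ≤ C := by rw [hC]; linarith
  obtain ⟨δ, hδd⟩ : ∃ δ : Fin d → ℝ, δ = fun k => bb dir x v e m - v k := ⟨_, rfl⟩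
  rw [← hδd]
  have hκ := hJ.k0
  have hκ1 := hJ.k1
  have he := hJ.e0
  have hδ : ∀ k, |δ k| ≤ C * κ * rt x k := by
    intro k; rw [hδd, hC]; exact hδ0 k
  have rp := fun k => rt_pos hH k
  have hCκ : 0 ≤ C * κ := by positivity
  have hc : ∀ k, |cc x δ k| * rt x k ≤ 2 * (C * κ) := by
    intro k
    have h1 := cc_le hH δ k
    have h2 := hδ k
    have h3 : |cc x δ k| * rt x k * rt x k ≤ 2 * (C * κ) * rt x k := by nlinarith
    exact le_of_mul_le_mul_right h3 (rp k)
  have ln := fun k => lam_nonneg x k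
  have hd0 : (0 : ℝ) ≤ d := Nat.cast_nonneg _
  have hN0 : (0 : ℝ) ≤ N := Nat.cast_nonneg _
  -- (i)
  have p1 : |∑ k, dlam x δ k * v k| ≤ d * (2 * (C * κ) * (κ * (1 + 2 * d))) := by
    rw [dlam_sum, abs_neg]
    refine asum _ _ fun k => ?_
    rw [sub_mean, abs_mul, abs_mul, abs_of_nonneg (ln k)]
    have h1 : |(1 - ∑ i, lam x i) * v k + ∑ i, lam x i * (v k - v i)| ≤
        κ * (1 + 2 * d) * rt x k := by
      have h2 : |(1 - ∑ i, lam x i) * v k| ≤ κ * rt x k := by
        rw [abs_mul, abs_of_nonneg (l0_nonneg x), mul_comm]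
        exact mul_le_mul (hJ.h1 k) (l0_le_rt hH k) (l0_nonneg x) hκ
      have h3 : |∑ i, lam x i * (v k - v i)| ≤ d * (2 * κ * rt x k) := by
        refine asum _ _ fun i => ?_
        rw [abs_mul, abs_of_nonneg (ln i)]
        have h4 := (hJ.h5 k i).trans (mul_le_mul_of_nonneg_left (r4_Hf_sub (x k) (x i)) hκ)
        have h5 := lam_rt hH i k
        have h6 := lam_rt_le hH i k
        calc lam x i * |v k - v i| ≤ lam x i * (κ * (rt x k + rt x i)) :=
              mul_le_mul_of_nonneg_left h4 (ln i)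
          _ = κ * (lam x i * rt x k + lam x i * rt x i) := by ring
          _ ≤ κ * (rt x k + rt x k) := mul_le_mul_of_nonneg_left (add_le_add h6 h5) hκ
          _ = 2 * κ * rt x k := by ring
      refine (abs_add_le _ _).trans ?_
      nlinarith
    have h2 := hc k
    have h3 := abs_nonneg (cc x δ k)
    have h7 : 0 ≤ κ * (1 + 2 * d) := by positivity
    calc lam x k * |cc x δ k| * |(1 - ∑ i, lam x i) * v k + ∑ i, lam x i * (v k - v i)|
        ≤ 1 * |cc x δ k| * (κ * (1 + 2 * d) * rt x k) :=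
          mul_le_mul (mul_le_mul_of_nonneg_right (lam_le_one x k) h3) h1 (abs_nonneg _)
            (by positivity)
      _ = (|cc x δ k| * rt x k) * (κ * (1 + 2 * d)) := by ring
      _ ≤ 2 * (C * κ) * (κ * (1 + 2 * d)) := mul_le_mul_of_nonneg_right h2 h7
  -- (ii)
  have p2 : |∑ k, lam x k * w k| ≤ κ := by
    refine (Finset.abs_sum_le_sum_abs _ _).trans ?_
    have : ∑ k, |lam x k * w k| ≤ ∑ k, lam x k * κ := Finset.sum_le_sum fun k _ => by
      rw [abs_mul, abs_of_nonneg (ln k)]
      exact mul_le_mul_of_nonneg_left (hJ.h2 k) (ln k)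
    refine this.trans ?_
    rw [← Finset.sum_mul]
    nlinarith [sum_lam_le x]
  -- (iii)
  have q3 : ∀ k0, |dLam x δ| ≤ d * ((C * κ) * (3 + 2 * d)) * rt x k0 := by
    intro k0
    rw [dLam_eq, mul_assoc]
    refine asum _ _ fun k => ?_
    rw [abs_mul, abs_of_nonneg (ln k)]
    have h1 : |cos (x k) * δ k - cc x δ k * (sin (x k) - Lam x)| ≤
        |δ k| + |cc x δ k| * rt x k ^ 2 + |cc x δ k| * |Lam x| := by
      have h2 : |cos (x k) * δ k| ≤ |δ k| := by
        rw [abs_mul]
        have := abs_cos_le_one (x k)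
        have := abs_nonneg (δ k)
        nlinarith
      have h3 : |cc x δ k * (sin (x k) - Lam x)| ≤ |cc x δ k| * (rt x k ^ 2 + |Lam x|) := by
        rw [abs_mul]
        refine mul_le_mul_of_nonneg_left ?_ (abs_nonneg _)
        exact (abs_sub _ _).trans (add_le_add (sin_rt x k) le_rfl)
      refine (abs_sub _ _).trans ?_
      linarith
    have h4 := lam_rt hH k k0
    have h5 := cc_le hH δ k
    have h6 := hδ k
    have h7 : |cc x δ k| * |Lam x| ≤ 2 * (C * κ) * d * rt x k0 := by
      calc |cc x δ k| * |Lam x| ≤ |cc x δ k| * (d * (rt x k * rt x k0)) :=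
            mul_le_mul_of_nonneg_left (Lam_rr hH k k0) (abs_nonneg _)
        _ = (|cc x δ k| * rt x k) * (d * rt x k0) := by ring
        _ ≤ 2 * (C * κ) * (d * rt x k0) :=
            mul_le_mul_of_nonneg_right (hc k) (mul_nonneg hd0 (rp k0).le)
        _ = _ := by ring
    have h8 : |cos (x k) * δ k - cc x δ k * (sin (x k) - Lam x)| ≤
        3 * (C * κ) * rt x k + 2 * (C * κ) * d * rt x k0 := by linarith
    have h9 := mul_le_mul_of_nonneg_left h8 (ln k)
    have h10 : lam x k * (2 * (C * κ) * d * rt x k0) ≤ 2 * (C * κ) * d * rt x k0 := by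
      have h11 : 0 ≤ 2 * (C * κ) * d * rt x k0 :=
        mul_nonneg (by positivity) (rp k0).le
      nlinarith [lam_le_one x k]
    nlinarith [mul_le_mul_of_nonneg_left h4 hCκ]
  have mf : ∀ j, |m j| * fr e j ≤ κ := hJ.h3
  have Am : ∀ j, AA dir x e j * |m j| * rt x (dir j) ≤ κ := by
    intro j
    have h1 := mul_le_mul_of_nonneg_left (A_rt (x := x) (dir := dir) he j) (abs_nonneg (m j))
    calc AA dir x e j * |m j| * rt x (dir j) = |m j| * (AA dir x e j * rt x (dir j)) := by ring
      _ ≤ |m j| * fr e j := h1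
      _ ≤ κ := mf j
  have An := fun j => A_nonneg (x := x) (dir := dir) he j
  have A1 := fun j => A_le_one (x := x) (dir := dir) he j
  have p3 : |mb dir x e m * dLam x δ| ≤ N * (κ * (d * ((C * κ) * (3 + 2 * d)))) := by
    rw [mb_eq, Finset.sum_mul]
    refine asum _ _ fun j => ?_
    rw [abs_mul, abs_mul, abs_of_nonneg (An j)]
    have h1 := q3 (dir j)
    have h2 : 0 ≤ AA dir x e j * |m j| := mul_nonneg (An j) (abs_nonneg _)
    have h3 : 0 ≤ d * ((C * κ) * (3 + 2 * d)) := by positivity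
    calc AA dir x e j * |m j| * |dLam x δ|
        ≤ AA dir x e j * |m j| * (d * ((C * κ) * (3 + 2 * d)) * rt x (dir j)) :=
          mul_le_mul_of_nonneg_left h1 h2
      _ = (AA dir x e j * |m j| * rt x (dir j)) * (d * ((C * κ) * (3 + 2 * d))) := by ring
      _ ≤ κ * (d * ((C * κ) * (3 + 2 * d))) := mul_le_mul_of_nonneg_right (Am j) h3
  -- (iv)
  have p4 : ∀ j, AA dir x e j * |l j| * |Lam x| ≤ d * κ := by
    intro j
    have h1 := Lam_rt hH (dir j)
    have h2 := A_rt2 (x := x) (dir := dir) he j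
    have h3 : |l j| * fr e j ^ 2 ≤ κ := by rw [fr_sq]; exact hJ.h4 j
    have h4 : 0 ≤ AA dir x e j * |l j| := mul_nonneg (An j) (abs_nonneg _)
    calc AA dir x e j * |l j| * |Lam x| ≤ AA dir x e j * |l j| * (d * rt x (dir j) ^ 2) :=
          mul_le_mul_of_nonneg_left h1 h4
      _ = d * (|l j| * (AA dir x e j * rt x (dir j) ^ 2)) := by ring
      _ ≤ d * (|l j| * fr e j ^ 2) :=
          mul_le_mul_of_nonneg_left (mul_le_mul_of_nonneg_left h2 (abs_nonneg _)) hd0
      _ ≤ d * κ := mul_le_mul_of_nonneg_left h3 hd0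
  -- the relative derivative of `aa`
  have hal : ∀ j, |al dir x δ e m j| * rt x (dir j) ≤ |m j| * rt x (dir j) + 2 * (C * κ) := by
    intro j
    have hHj := hH (dir j)
    have hej := he j
    have hden : 0 < e j ^ 2 + Hf (x (dir j)) := by positivity
    have h1 : al dir x δ e m j = m j * ((Hf (x (dir j)) - e j ^ 2) / (e j ^ 2 + Hf (x (dir j)))) -
        2 * sin (x (dir j)) * δ (dir j) / (e j ^ 2 + Hf (x (dir j))) := by
      rw [al]
      field_simp
      ring
    have h2 : |(Hf (x (dir j)) - e j ^ 2) / (e j ^ 2 + Hf (x (dir j)))| ≤ 1 := by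
      rw [abs_div, abs_of_pos hden, div_le_one hden, abs_le]
      constructor <;> nlinarith [sq_nonneg (e j)]
    have h3 : |2 * sin (x (dir j)) * δ (dir j) / (e j ^ 2 + Hf (x (dir j)))| * rt x (dir j) ≤
        2 * (C * κ) := by
      have h4 : |2 * sin (x (dir j)) * δ (dir j) / (e j ^ 2 + Hf (x (dir j)))| ≤
          |cc x δ (dir j)| := by
        rw [cc, abs_div, abs_div, abs_of_pos hden, abs_of_pos hHj]
        exact div_le_div_of_nonneg_left (abs_nonneg _) hHj (by nlinarith [sq_nonneg (e j)])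
      exact (mul_le_mul_of_nonneg_right h4 (rp _).le).trans (hc (dir j))
    have h5 : |al dir x δ e m j| ≤ |m j| +
        |2 * sin (x (dir j)) * δ (dir j) / (e j ^ 2 + Hf (x (dir j)))| := by
      rw [h1]
      refine (abs_sub _ _).trans (add_le_add ?_ le_rfl)
      rw [abs_mul]
      nlinarith [abs_nonneg (m j)]
    nlinarith [mul_le_mul_of_nonneg_right h5 (rp (dir j)).le]
  -- (v)
  have p5 : ∀ j, AA dir x e j * |al dir x δ e m j| * |m j - mb dir x e m| * |Lam x| ≤
      d * (κ * (κ + 2 * (C * κ))) + N * (d * (κ * (κ + 2 * (C * κ)))) := by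
    intro j
    have h0 : 0 ≤ AA dir x e j * |al dir x δ e m j| := mul_nonneg (An j) (abs_nonneg _)
    have h1 : |m j - mb dir x e m| ≤ |m j| + ∑ i, AA dir x e i * |m i| :=
      (abs_sub _ _).trans (add_le_add le_rfl (mb_le he m))
    -- `A |al| r ≤ κ + 2 C κ`
    have h2 : AA dir x e j * |al dir x δ e m j| * rt x (dir j) ≤ κ + 2 * (C * κ) := by
      have h3 := mul_le_mul_of_nonneg_left (hal j) (An j)
      have h4 := Am j
      have h5 : AA dir x e j * (2 * (C * κ)) ≤ 2 * (C * κ) := by nlinarith [A1 j]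
      nlinarith
    have h6 : AA dir x e j * |al dir x δ e m j| * |m j| * |Lam x| ≤
        d * (κ * (κ + 2 * (C * κ))) := by
      have h7 := Lam_rt hH (dir j)
      have h8 : 0 ≤ AA dir x e j * |al dir x δ e m j| * |m j| := mul_nonneg h0 (abs_nonneg _)
      have h9 : AA dir x e j * |al dir x δ e m j| * |m j| * rt x (dir j) ^ 2 ≤
          κ * (κ + 2 * (C * κ)) := by
        have g1 : AA dir x e j * |al dir x δ e m j| * |m j| * rt x (dir j) ^ 2 =
            (AA dir x e j * |m j| * rt x (dir j)) * (|al dir x δ e m j| * rt x (dir j)) := by ring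
        have g2 : 0 ≤ AA dir x e j * |m j| * rt x (dir j) :=
          mul_nonneg (mul_nonneg (An j) (abs_nonneg _)) (rp _).le
        have g3 := mul_le_mul_of_nonneg_left (hal j) g2
        -- `A |m| r · |m| r ≤ κ²`
        have g4 : (AA dir x e j * |m j| * rt x (dir j)) * (|m j| * rt x (dir j)) ≤ κ * κ := by
          have g5 := A_rt2 (x := x) (dir := dir) he j
          calc (AA dir x e j * |m j| * rt x (dir j)) * (|m j| * rt x (dir j))
              = |m j| ^ 2 * (AA dir x e j * rt x (dir j) ^ 2) := by ring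
            _ ≤ |m j| ^ 2 * fr e j ^ 2 := mul_le_mul_of_nonneg_left g5 (by positivity)
            _ = (|m j| * fr e j) * (|m j| * fr e j) := by ring
            _ ≤ κ * κ := mul_le_mul (mf j) (mf j)
                (mul_nonneg (abs_nonneg _) (fr_pos he j).le) hκ
        have g6 : (AA dir x e j * |m j| * rt x (dir j)) * (2 * (C * κ)) ≤ κ * (2 * (C * κ)) :=
          mul_le_mul_of_nonneg_right (Am j) (by positivity)
        rw [g1]
        linarith
      calc AA dir x e j * |al dir x δ e m j| * |m j| * |Lam x|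
          ≤ AA dir x e j * |al dir x δ e m j| * |m j| * (d * rt x (dir j) ^ 2) :=
            mul_le_mul_of_nonneg_left h7 h8
        _ = d * (AA dir x e j * |al dir x δ e m j| * |m j| * rt x (dir j) ^ 2) := by ring
        _ ≤ _ := mul_le_mul_of_nonneg_left h9 hd0
    have h10 : AA dir x e j * |al dir x δ e m j| * (∑ i, AA dir x e i * |m i|) * |Lam x| ≤
        N * (d * (κ * (κ + 2 * (C * κ)))) := by
      have e1 : AA dir x e j * |al dir x δ e m j| * (∑ i, AA dir x e i * |m i|) * |Lam x| =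
          ∑ i, AA dir x e j * |al dir x δ e m j| * (AA dir x e i * |m i|) * |Lam x| := by
        rw [Finset.mul_sum, Finset.sum_mul]
      rw [e1]
      refine (le_abs_self _).trans (asum _ _ fun i => ?_)
      have g0 : 0 ≤ AA dir x e i * |m i| := mul_nonneg (An i) (abs_nonneg _)
      rw [abs_of_nonneg (mul_nonneg (mul_nonneg h0 g0) (abs_nonneg _))]
      calc AA dir x e j * |al dir x δ e m j| * (AA dir x e i * |m i|) * |Lam x|
          ≤ AA dir x e j * |al dir x δ e m j| * (AA dir x e i * |m i|) *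
            (d * (rt x (dir j) * rt x (dir i))) :=
            mul_le_mul_of_nonneg_left (Lam_rr hH _ _) (mul_nonneg h0 g0)
        _ = d * ((AA dir x e i * |m i| * rt x (dir i)) *
            (AA dir x e j * |al dir x δ e m j| * rt x (dir j))) := by ring
        _ ≤ d * (κ * (κ + 2 * (C * κ))) :=
            mul_le_mul_of_nonneg_left (mul_le_mul (Am i) h2 (mul_nonneg h0 (rp _).le) hκ) hd0
    have h11 := mul_le_mul_of_nonneg_right (mul_le_mul_of_nonneg_left h1 h0) (abs_nonneg (Lam x))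
    nlinarith
  have p6 : |dmb dir x δ e m m l * Lam x| ≤ N * ((d * (κ * (κ + 2 * (C * κ))) +
      N * (d * (κ * (κ + 2 * (C * κ))))) + d * κ) := by
    rw [dmb_eq, Finset.sum_mul]
    refine asum _ _ fun j => ?_
    rw [abs_mul, abs_mul, abs_of_nonneg (An j)]
    have h1 : |al dir x δ e m j * (m j - mb dir x e m) + l j| ≤
        |al dir x δ e m j| * |m j - mb dir x e m| + |l j| := by
      refine (abs_add_le _ _).trans ?_
      rw [abs_mul]
    have h2 := mul_le_mul_of_nonneg_right (mul_le_mul_of_nonneg_left h1 (An j))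
      (abs_nonneg (Lam x))
    have h3 := p5 j
    have h4 := p4 j
    nlinarith
  -- the sum
  have hsplit : dbb dir x v δ w e m m l = ∑ k, dlam x δ k * v k + ∑ k, lam x k * w k +
      dmb dir x δ e m m l * Lam x + mb dir x e m * dLam x δ := by
    rw [dbb, Finset.sum_add_distrib]
  have htot : |dbb dir x v δ w e m m l| ≤ d * (2 * (C * κ) * (κ * (1 + 2 * d))) + κ +
      N * ((d * (κ * (κ + 2 * (C * κ))) + N * (d * (κ * (κ + 2 * (C * κ))))) + d * κ) +
      N * (κ * (d * ((C * κ) * (3 + 2 * d)))) := by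
    rw [hsplit]
    refine (abs_add_le _ _).trans (add_le_add ((abs_add_le _ _).trans (add_le_add
      ((abs_add_le _ _).trans (add_le_add p1 p2)) p6)) p3)
  refine htot.trans ?_
  have hκ2 : κ * κ ≤ κ := by nlinarith
  have hC0 : 0 ≤ C := by linarith
  have key : d * (2 * C * (1 + 2 * d)) + 1 + N * ((d * (1 + 2 * C) + N * (d * (1 + 2 * C))) + d) +
      N * (d * (C * (3 + 2 * d))) ≤ 60 * M ^ 3 := by
    have e1 : (60 : ℝ) * M ^ 3 = 20 * (C * M ^ 2) := by rw [hC]; ring
    rw [e1]
    have f1 : C * d ≤ C * M ^ 2 := mul_le_mul_of_nonneg_left (M2.trans M8) hC0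
    have f2 : C * (d : ℝ) ^ 2 ≤ C * M ^ 2 := mul_le_mul_of_nonneg_left M5 hC0
    have f3 : C * (N * d) ≤ C * M ^ 2 := mul_le_mul_of_nonneg_left (M4.trans M8) hC0
    have f4 : C * (N * (d : ℝ) ^ 2) ≤ C * M ^ 2 := mul_le_mul_of_nonneg_left M6 hC0
    have f5 : C * ((N : ℝ) ^ 2 * d) ≤ C * M ^ 2 := mul_le_mul_of_nonneg_left M7 hC0
    have f6 : M ^ 2 * 3 ≤ C * M ^ 2 := by nlinarith [sq_nonneg M]
    have f7 : 1 ≤ M ^ 2 := by nlinarith
    nlinarith
  have hx : d * (2 * (C * κ) * (κ * (1 + 2 * d))) + κ +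
      N * ((d * (κ * (κ + 2 * (C * κ))) + N * (d * (κ * (κ + 2 * (C * κ))))) + d * κ) +
      N * (κ * (d * ((C * κ) * (3 + 2 * d)))) =
      (d * (2 * C * (1 + 2 * d)) + N * (d * (1 + 2 * C) + N * (d * (1 + 2 * C))) +
        N * (d * (C * (3 + 2 * d)))) * (κ * κ) + (1 + N * d) * κ := by ring
  rw [hx]
  have h0 : 0 ≤ d * (2 * C * (1 + 2 * d)) + N * (d * (1 + 2 * C) + N * (d * (1 + 2 * C))) +
        N * (d * (C * (3 + 2 * d))) := by positivity
  have h1 := mul_le_mul_of_nonneg_left hκ2 h0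
  have h2 := mul_le_mul_of_nonneg_right key hκ
  nlinarith

end Pool.Agent.Q257.UM
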