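import Pool.Agent.Q257.UM.Bs

/-! Project UM, job S6: the derivative of `b` with respect to the angle. -/

set_option autoImplicit false

open Real Set MeasureTheory Topology Filter
open Pool.Agent.Q62.UM

namespace Pool.Agent.Q257.UM

theorem t_S6 : S_S6 := by
  intro d N dir x v w e m l κ hJ hH
  obtain ⟨M1, M2, M3, M4, M5, M6, M7, M8⟩ := MM_facts d N
  set M := MM d N with hM
  obtain ⟨δ, hδd⟩ : ∃ δ : Fin d → ℝ, δ = fun _ => 1 := ⟨_, rfl⟩
  obtain ⟨z, hz⟩ : ∃ z : Fin N → ℝ, z = fun _ => 0 := ⟨_, rfl⟩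
  rw [← hδd, ← hz]
  have hδ : ∀ k, δ k = 1 := fun k => by rw [hδd]
  have hz0 : ∀ j, z j = 0 := fun j => by rw [hz]
  have hκ := hJ.k0
  have he := hJ.e0
  have rp := fun k => rt_pos hH k
  have ln := fun k => lam_nonneg x k
  have hd0 : (0 : ℝ) ≤ d := Nat.cast_nonneg _
  have hN0 : (0 : ℝ) ≤ N := Nat.cast_nonneg _
  have hc : ∀ k, |cc x δ k| * rt x k ^ 2 ≤ 2 := by
    intro k
    have := cc_le hH δ k
    rwa [hδ, abs_one, mul_one] at this
  -- the kernels
  have kn : ∀ j, 0 ≤ √(e j) / (e j + Hf (x (dir j))) := fun j =>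
    div_nonneg (sqrt_nonneg _) (add_nonneg (he j).le (Hf_nonneg _))
  have yn : ∀ k i, 0 ≤ √(Hf (x i - x k)) / (Hf (x i - x k) + Hf (x k)) := fun k i =>
    div_nonneg (sqrt_nonneg _) (add_nonneg (Hf_nonneg _) (Hf_nonneg _))
  have s1 : 0 ≤ ∑ j, √(e j) / (e j + Hf (x (dir j))) := Finset.sum_nonneg fun j _ => kn j
  have s2 : 0 ≤ ∑ k, ∑ i ∈ Finset.univ.erase k, √(Hf (x i - x k)) / (Hf (x i - x k) + Hf (x k)) :=
    Finset.sum_nonneg fun k _ => Finset.sum_nonneg fun i _ => yn k i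
  have K1 : 1 ≤ KK dir x e := by unfold KK; linarith
  have Kj : ∀ j, √(e j) / (e j + Hf (x (dir j))) ≤ KK dir x e := by
    intro j
    have := Finset.single_le_sum (f := fun j => √(e j) / (e j + Hf (x (dir j))))
      (fun i _ => kn i) (Finset.mem_univ j)
    unfold KK
    linarith
  have Ky : ∀ k i, i ≠ k → √(Hf (x i - x k)) / (Hf (x i - x k) + Hf (x k)) ≤ KK dir x e := by
    intro k i hik
    have h1 := Finset.single_le_sum
      (f := fun i => √(Hf (x i - x k)) / (Hf (x i - x k) + Hf (x k)))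
      (fun i _ => yn k i) (Finset.mem_erase.2 ⟨hik, Finset.mem_univ i⟩)
    have h2 := Finset.single_le_sum
      (f := fun k => ∑ i ∈ Finset.univ.erase k, √(Hf (x i - x k)) / (Hf (x i - x k) + Hf (x k)))
      (fun k _ => Finset.sum_nonneg fun i _ => yn k i) (Finset.mem_univ k)
    unfold KK
    linarith
  obtain ⟨S, hS⟩ : ∃ S : ℝ, S = √(KK dir x e) := ⟨_, rfl⟩
  have hSS : S ^ 2 = KK dir x e := by rw [hS]; exact sq_sqrt (by linarith)
  have hS1 : 1 ≤ S := by rw [hS]; exact one_le_sqrt.2 K1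
  have hκS : 0 ≤ κ * S := by positivity
  -- (i)
  have t1 : ∀ k i, |lam x k * cc x δ k * (lam x i * (v k - v i))| ≤ 5 * (κ * S) := by
    intro k i
    rcases eq_or_ne i k with rfl | hik
    · rw [sub_self, mul_zero, mul_zero, abs_zero]; positivity
    refine abs_le_of_sq_le_sq ?_ (by positivity)
    obtain ⟨y, hy⟩ : ∃ y : ℝ, y = √(Hf (x i - x k)) := ⟨_, rfl⟩
    have hy0 : 0 ≤ y := by rw [hy]; exact sqrt_nonneg _
    have hy2 : y ^ 2 = Hf (x i - x k) := by rw [hy]; exact sq_sqrt (Hf_nonneg _)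
    have h1 : (v k - v i) ^ 2 ≤ κ ^ 2 * y := by
      have h2 := hJ.h5 i k
      rw [← hy] at h2
      have h3 := pow_le_pow_left₀ (abs_nonneg _) h2 2
      rw [mul_pow, sq_sqrt hy0, sq_abs] at h3
      calc (v k - v i) ^ 2 = (v i - v k) ^ 2 := by ring
        _ ≤ _ := h3
    have h4 : cc x δ k ^ 2 * Hf (x k) ≤ 4 := by
      have h5 := hc k
      have h6 := pow_le_pow_left₀ (mul_nonneg (abs_nonneg _) (sq_nonneg _)) h5 2
      rw [mul_pow, sq_abs, ← pow_mul, rt_four] at h6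
      norm_num at h6
      exact h6
    have h7 : lam x i ^ 2 * (y ^ 2 + Hf (x k)) ≤ 5 * Hf (x k) := by
      have h8 := Hf_sub_le (x i) (x k)
      rw [← hy2] at h8
      have h9 := lam_mul hH i k
      have h10 := lam_le_one x i
      have h11 := ln i
      have h12 : lam x i ^ 2 ≤ 1 := pow_le_one₀ h11 h10
      have h13 : lam x i ^ 2 * Hf (x i) ≤ Hf (x k) := by
        have : lam x i * (lam x i * Hf (x i)) ≤ 1 * Hf (x k) :=
          mul_le_mul h10 h9 (mul_nonneg h11 (Hf_nonneg _)) zero_le_one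
        nlinarith
      have h14 := mul_le_mul_of_nonneg_left h8 (sq_nonneg (lam x i))
      nlinarith [mul_le_mul_of_nonneg_right h12 (hH k).le]
    have h15 : cc x δ k ^ 2 * (lam x i ^ 2 * (y ^ 2 + Hf (x k))) ≤ 20 := by
      have := mul_le_mul_of_nonneg_left h7 (sq_nonneg (cc x δ k))
      nlinarith
    have h16 : lam x k ^ 2 ≤ 1 := pow_le_one₀ (ln k) (lam_le_one x k)
    have hden : 0 < y ^ 2 + Hf (x k) := by have := hH k; positivity
    have h17 : y / (y ^ 2 + Hf (x k)) ≤ S ^ 2 := by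
      rw [hSS, hy2, hy]; exact Ky k i hik
    have h18 : (lam x k * cc x δ k * (lam x i * (v k - v i))) ^ 2 ≤
        20 * κ ^ 2 * (y / (y ^ 2 + Hf (x k))) := by
      rw [← mul_div_assoc, le_div_iff₀ hden]
      have h19 : 0 ≤ cc x δ k ^ 2 * (lam x i ^ 2 * (y ^ 2 + Hf (x k))) := by positivity
      calc (lam x k * cc x δ k * (lam x i * (v k - v i))) ^ 2 * (y ^ 2 + Hf (x k))
          = lam x k ^ 2 * ((cc x δ k ^ 2 * (lam x i ^ 2 * (y ^ 2 + Hf (x k)))) *
            (v k - v i) ^ 2) := by ring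
        _ ≤ 1 * (20 * (κ ^ 2 * y)) := by
            refine mul_le_mul h16 (mul_le_mul h15 h1 (sq_nonneg _) (by norm_num)) ?_ zero_le_one
            exact mul_nonneg h19 (sq_nonneg _)
        _ = 20 * κ ^ 2 * y := by ring
    have h20 := mul_le_mul_of_nonneg_left h17 (show 0 ≤ 20 * κ ^ 2 by positivity)
    have h21 : (5 * (κ * S)) ^ 2 = 25 * κ ^ 2 * S ^ 2 := by ring
    rw [h21]
    have h22 : 0 ≤ κ ^ 2 * S ^ 2 := by positivity
    linarith
  have p1 : |∑ k, dlam x δ k * v k| ≤ d * (4 * κ + d * (5 * (κ * S))) := by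
    rw [dlam_sum, abs_neg]
    refine asum _ _ fun k => ?_
    rw [sub_mean, mul_add, Finset.mul_sum]
    refine (abs_add_le _ _).trans (add_le_add ?_ (asum _ _ fun i => t1 k i))
    rw [abs_mul, abs_mul, abs_mul, abs_of_nonneg (ln k), abs_of_nonneg (l0_nonneg x)]
    have h1 := l0_le hH k
    have h2 := hc k
    have h3 : rt x k ^ 2 ≤ 2 := by rw [rt_sq]; exact sqrt_Hf_le _
    have h4 : |cc x δ k| * (1 - ∑ i, lam x i) ≤ 4 := by
      calc |cc x δ k| * (1 - ∑ i, lam x i) ≤ |cc x δ k| * rt x k ^ 4 :=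
            mul_le_mul_of_nonneg_left h1 (abs_nonneg _)
        _ = (|cc x δ k| * rt x k ^ 2) * rt x k ^ 2 := by ring
        _ ≤ 2 * 2 := mul_le_mul h2 h3 (sq_nonneg _) (by norm_num)
        _ = 4 := by norm_num
    have h5 : 0 ≤ |cc x δ k| * (1 - ∑ i, lam x i) := mul_nonneg (abs_nonneg _) (l0_nonneg x)
    calc lam x k * |cc x δ k| * ((1 - ∑ i, lam x i) * |v k|)
        = lam x k * ((|cc x δ k| * (1 - ∑ i, lam x i)) * |v k|) := by ring
      _ ≤ 1 * (4 * κ) := mul_le_mul (lam_le_one x k)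
          (mul_le_mul h4 (hJ.h1 k) (abs_nonneg _) (by norm_num))
          (mul_nonneg h5 (abs_nonneg _)) zero_le_one
      _ = 4 * κ := one_mul _
  -- (iii)
  have q3 : |dLam x δ| ≤ 3 + 2 * d := by
    rw [dLam_eq]
    refine (Finset.abs_sum_le_sum_abs _ _).trans ?_
    have h1 : ∀ k, |lam x k * (cos (x k) * δ k - cc x δ k * (sin (x k) - Lam x))| ≤
        lam x k * (3 + 2 * d) := by
      intro k
      rw [abs_mul, abs_of_nonneg (ln k)]
      refine mul_le_mul_of_nonneg_left ?_ (ln k)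
      refine (abs_sub _ _).trans ?_
      have h2 : |cos (x k) * δ k| ≤ 1 := by rw [hδ, mul_one]; exact abs_cos_le_one _
      have h3 : |cc x δ k * (sin (x k) - Lam x)| ≤ 2 * (1 + d) := by
        rw [abs_mul]
        have h4 : |sin (x k) - Lam x| ≤ rt x k ^ 2 * (1 + d) := by
          refine (abs_sub _ _).trans ?_
          have := sin_rt x k
          have := Lam_rt hH k
          linarith
        calc |cc x δ k| * |sin (x k) - Lam x| ≤ |cc x δ k| * (rt x k ^ 2 * (1 + d)) :=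
              mul_le_mul_of_nonneg_left h4 (abs_nonneg _)
          _ = (|cc x δ k| * rt x k ^ 2) * (1 + d) := by ring
          _ ≤ 2 * (1 + d) := mul_le_mul_of_nonneg_right (hc k) (by positivity)
      linarith
    refine (Finset.sum_le_sum fun k _ => h1 k).trans ?_
    rw [← Finset.sum_mul]
    nlinarith [sum_lam_le x]
  have An := fun j => A_nonneg (x := x) (dir := dir) he j
  have A1 := fun j => A_le_one (x := x) (dir := dir) he j
  have Am : ∀ j, AA dir x e j * |m j| ≤ κ * S := by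
    intro j
    refine (pow_le_pow_iff_left₀ (mul_nonneg (An j) (abs_nonneg _)) hκS two_ne_zero).1 ?_
    have h1 : AA dir x e j ^ 2 ≤ √(e j) * (√(e j) / (e j + Hf (x (dir j)))) :=
      (pow_le_pow_left₀ (An j) (aq_le he j) 2).trans (k3_le (he j) (Hf_nonneg _))
    have h2 : (|m j| * fr e j) ^ 2 ≤ κ ^ 2 :=
      pow_le_pow_left₀ (mul_nonneg (abs_nonneg _) (fr_pos he j).le) (hJ.h3 j) 2
    rw [mul_pow, fr_sq] at h2
    have h3 := Kj j
    rw [← hSS] at h3
    calc (AA dir x e j * |m j|) ^ 2 = AA dir x e j ^ 2 * |m j| ^ 2 := by ring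
      _ ≤ √(e j) * (√(e j) / (e j + Hf (x (dir j)))) * |m j| ^ 2 :=
          mul_le_mul_of_nonneg_right h1 (by positivity)
      _ = (|m j| ^ 2 * √(e j)) * (√(e j) / (e j + Hf (x (dir j)))) := by ring
      _ ≤ κ ^ 2 * S ^ 2 := mul_le_mul h2 h3 (kn j) (by positivity)
      _ = (κ * S) ^ 2 := by ring
  have mbl : |mb dir x e m| ≤ N * (κ * S) := by
    rw [mb_eq]
    refine asum _ _ fun j => ?_
    rw [abs_mul, abs_of_nonneg (An j)]
    exact Am j
  have p3 : |mb dir x e m * dLam x δ| ≤ N * (κ * S) * (3 + 2 * d) := by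
    rw [abs_mul]
    exact mul_le_mul mbl q3 (abs_nonneg _) (by positivity)
  -- (v)
  have hal : ∀ j, |al dir x δ e z j| * |Lam x| ≤ 2 * d := by
    intro j
    have hHj := hH (dir j)
    have hej := he j
    have hden : 0 < e j ^ 2 + Hf (x (dir j)) := by positivity
    have h1 : |al dir x δ e z j| ≤ |cc x δ (dir j)| := by
      rw [al, hz0, mul_zero, zero_add, zero_sub, abs_neg, cc, abs_div, abs_div, abs_of_pos hden,
        abs_of_pos hHj]
      exact div_le_div_of_nonneg_left (abs_nonneg _) hHj (by nlinarith [sq_nonneg (e j)])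
    calc |al dir x δ e z j| * |Lam x| ≤ |cc x δ (dir j)| * (d * rt x (dir j) ^ 2) :=
          mul_le_mul h1 (Lam_rt hH _) (abs_nonneg _) (abs_nonneg _)
      _ = d * (|cc x δ (dir j)| * rt x (dir j) ^ 2) := by ring
      _ ≤ d * 2 := mul_le_mul_of_nonneg_left (hc _) hd0
      _ = 2 * d := by ring
  have p6 : |dmb dir x δ e m z z * Lam x| ≤ N * (2 * d * (κ * S + N * (κ * S))) := by
    rw [dmb_eq, Finset.sum_mul]
    refine asum _ _ fun j => ?_
    rw [hz0, add_zero, abs_mul, abs_mul, abs_mul, abs_of_nonneg (An j)]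
    have h1 : AA dir x e j * |m j - mb dir x e m| ≤ κ * S + N * (κ * S) := by
      have h2 : |m j - mb dir x e m| ≤ |m j| + |mb dir x e m| := abs_sub _ _
      have h3 := mul_le_mul_of_nonneg_left h2 (An j)
      have h4 : AA dir x e j * |mb dir x e m| ≤ N * (κ * S) := by
        nlinarith [A1 j, abs_nonneg (mb dir x e m)]
      have h5 := Am j
      nlinarith
    calc AA dir x e j * (|al dir x δ e z j| * |m j - mb dir x e m|) * |Lam x|
        = (|al dir x δ e z j| * |Lam x|) * (AA dir x e j * |m j - mb dir x e m|) := by ring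
      _ ≤ 2 * d * (κ * S + N * (κ * S)) := mul_le_mul (hal j) h1
          (mul_nonneg (An j) (abs_nonneg _)) (by positivity)
  have hsplit : dbb dir x v δ (fun _ => 0) e m z z = ∑ k, dlam x δ k * v k +
      dmb dir x δ e m z z * Lam x + mb dir x e m * dLam x δ := by
    rw [dbb]
    simp only [mul_zero, add_zero]
  have htot : |dbb dir x v δ (fun _ => 0) e m z z| ≤ 20 * M ^ 2 * κ * S := by
    rw [hsplit]
    refine (abs_add_le _ _).trans ((add_le_add ((abs_add_le _ _).trans (add_le_add p1 p6))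
      p3).trans ?_)
    have e1 : d * (4 * κ + d * (5 * (κ * S))) + N * (2 * d * (κ * S + N * (κ * S))) +
        N * (κ * S) * (3 + 2 * d) = 4 * d * κ + (5 * d ^ 2 + 4 * (N * d) + 2 * (N ^ 2 * d) +
        3 * N) * (κ * S) := by ring
    rw [e1]
    have e2 : κ ≤ κ * S := by nlinarith
    have e3 : 4 * d * κ ≤ 4 * M ^ 2 * (κ * S) :=
      mul_le_mul (by linarith) e2 hκ (by positivity)
    have e4 : 5 * (d : ℝ) ^ 2 + 4 * (N * d) + 2 * (N ^ 2 * d) + 3 * N ≤ 14 * M ^ 2 := by linarith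
    have e5 := mul_le_mul_of_nonneg_right e4 hκS
    have e6 : 0 ≤ M ^ 2 * (κ * S) := by positivity
    linarith
  have h1 := pow_le_pow_left₀ (abs_nonneg _) htot 2
  rw [sq_abs] at h1
  calc dbb dir x v δ (fun _ => 0) e m z z ^ 2 ≤ (20 * M ^ 2 * κ * S) ^ 2 := h1
    _ = (20 * M ^ 2 * κ) ^ 2 * KK dir x e := by rw [mul_pow _ S, hSS]

end Pool.Agent.Q257.UM
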