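import Pool.Agent.Q257.UM.DSC

set_option autoImplicit false

/-! Project UM5 (helper97), job SNG (helper257). -/

namespace Pool.Agent.Q257.UM

open Filter Topology MeasureTheory Complex
open Pool.Agent.Q97.UM Pool.Agent.Q61.UM

noncomputable section

/-- `x^{-1/2}` on `[0, 1]` -/
def g0 (x : ℝ) : ℝ := Set.indicator (Set.Icc (0 : ℝ) 1) (fun x => x ^ (-(1 / 2) : ℝ)) x

theorem g0_int : Integrable g0 ∧ ∫ x, g0 x = 2 := by
  have h1 : IntervalIntegrable (fun x : ℝ => x ^ (-(1 / 2) : ℝ)) volume 0 1 :=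
    intervalIntegral.intervalIntegrable_rpow' (by norm_num)
  rw [intervalIntegrable_iff_integrableOn_Icc_of_le zero_le_one] at h1
  constructor
  · exact (integrable_indicator_iff measurableSet_Icc).2 h1
  · unfold g0
    rw [integral_indicator measurableSet_Icc, integral_Icc_eq_integral_Ioc,
      ← intervalIntegral.integral_of_le zero_le_one, integral_rpow (Or.inl (by norm_num))]
    norm_num

/-- `|x|^{-1/2}` on `[-1, 1]` -/
def psi (x : ℝ) : ℝ := g0 x + g0 (-x)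

theorem psi_int : Integrable psi ∧ ∫ x, psi x = 4 := by
  obtain ⟨h1, h2⟩ := g0_int
  constructor
  · exact h1.add h1.comp_neg
  · unfold psi
    rw [integral_add h1 h1.comp_neg, integral_neg_eq_self g0 volume, h2]
    norm_num

theorem psi_nonneg (x : ℝ) : 0 ≤ psi x := by
  have h : ∀ x, 0 ≤ g0 x := by
    intro x
    unfold g0
    exact Set.indicator_nonneg (fun y hy => Real.rpow_nonneg hy.1 _) x
  exact add_nonneg (h _) (h _)

theorem psi_ge {x : ℝ} (hx1 : |x| ≤ 1) : |x| ^ (-(1 / 2) : ℝ) ≤ psi x := by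
  have h : ∀ x, 0 ≤ g0 x := by
    intro x
    unfold g0
    exact Set.indicator_nonneg (fun y hy => Real.rpow_nonneg hy.1 _) x
  obtain ⟨h1, h2⟩ := abs_le.1 hx1
  unfold psi
  rcases le_total 0 x with h0 | h0
  · have e : g0 x = |x| ^ (-(1 / 2) : ℝ) := by
      unfold g0
      rw [Set.indicator_of_mem (show x ∈ Set.Icc (0 : ℝ) 1 from ⟨h0, h2⟩), abs_of_nonneg h0]
    have := h (-x)
    linarith
  · have e : g0 (-x) = |x| ^ (-(1 / 2) : ℝ) := by
      unfold g0
      rw [Set.indicator_of_mem (show -x ∈ Set.Icc (0 : ℝ) 1 from ⟨by linarith, by linarith⟩), abs_of_nonpos h0]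
    have := h x
    linarith

theorem psi_shift {L : ℝ} (hL : 0 < L) (γ : ℝ) : Integrable (fun t => psi (L * (t - γ))) ∧
    ∫ t, psi (L * (t - γ)) = 4 / L := by
  obtain ⟨h1, h2⟩ := psi_int
  have h3 : Integrable fun t => psi (L * t) := h1.comp_mul_left' hL.ne'
  constructor
  · exact h3.comp_sub_right γ
  · rw [integral_sub_right_eq_self (fun t => psi (L * t)) γ, Measure.integral_comp_mul_left, h2, smul_eq_mul,
      abs_of_pos (by positivity)]
    field_simp

/-- powers of the logarithm -/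
theorem log_pow_le {m : ℕ} (hm : 1 ≤ m) {x : ℝ} (hx : 0 < x) (hx1 : x ≤ 1) :
    Real.log (1 / x) ^ m ≤ (2 * m) ^ m * x ^ (-(1 / 2) : ℝ) := by
  have hm0 : (0 : ℝ) < m := by exact_mod_cast hm
  have h0 : 0 ≤ Real.log (1 / x) := Real.log_nonneg (by rw [le_div_iff₀ hx]; linarith)
  have h1 := Real.log_le_rpow_div (x := 1 / x) (ε := 1 / (2 * m)) (by positivity) (by positivity)
  calc Real.log (1 / x) ^ m ≤ ((1 / x) ^ (1 / (2 * (m : ℝ))) / (1 / (2 * m))) ^ m := by gcongr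
    _ = (2 * m) ^ m * ((1 / x) ^ (1 / (2 * (m : ℝ)))) ^ m := by
        rw [div_div_eq_mul_div, div_one, mul_pow, mul_comm]
    _ = (2 * m) ^ m * x ^ (-(1 / 2) : ℝ) := by
        congr 1
        rw [← Real.rpow_natCast, ← Real.rpow_mul (by positivity)]
        have e : 1 / (2 * (m : ℝ)) * m = 1 / 2 := by field_simp
        rw [e, one_div x, Real.inv_rpow hx.le, Real.rpow_neg hx.le]

/-- weighted power mean -/
theorem wpm {ι : Type*} (s : Finset ι) (w z : ι → ℝ) (hw : ∀ i ∈ s, 0 ≤ w i) (hz : ∀ i ∈ s, 0 ≤ z i) (m : ℕ) :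
    (∑ i ∈ s, w i * z i) ^ (m + 1) ≤ (∑ i ∈ s, w i) ^ m * ∑ i ∈ s, w i * z i ^ (m + 1) := by
  rcases eq_or_lt_of_le (Finset.sum_nonneg hw) with h | h
  · have h1 := (Finset.sum_eq_zero_iff_of_nonneg hw).1 h.symm
    have h2 : ∑ i ∈ s, w i * z i = 0 := Finset.sum_eq_zero fun i hi => by rw [h1 i hi, zero_mul]
    rw [h2, zero_pow (by omega)]
    exact mul_nonneg (by rw [← h]; positivity)
      (Finset.sum_nonneg fun i hi => mul_nonneg (hw i hi) (pow_nonneg (hz i hi) _))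
  · set W := ∑ i ∈ s, w i with hW
    have h1 := Real.pow_arith_mean_le_arith_mean_pow s (fun i => w i / W) z
      (fun i hi => div_nonneg (hw i hi) h.le) (by rw [← Finset.sum_div]; exact div_self h.ne') hz (m + 1)
    have e1 : ∑ i ∈ s, w i / W * z i = (∑ i ∈ s, w i * z i) / W := by
      rw [Finset.sum_div]
      exact Finset.sum_congr rfl fun i _ => by ring
    have e2 : ∑ i ∈ s, w i / W * z i ^ (m + 1) = (∑ i ∈ s, w i * z i ^ (m + 1)) / W := by
      rw [Finset.sum_div]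
      exact Finset.sum_congr rfl fun i _ => by ring
    rw [e1, e2, div_pow, div_le_div_iff₀ (by positivity) h] at h1
    have h2 : (∑ i ∈ s, w i * z i) ^ (m + 1) * W ≤
        (W ^ m * ∑ i ∈ s, w i * z i ^ (m + 1)) * W := by
      calc _ ≤ _ := h1
        _ = _ := by ring
    exact le_of_mul_le_mul_right h2 h

theorem SL_meas (T : ℝ) : Measurable (SL T) := by
  unfold SL
  refine Finset.measurable_fun_sum _ fun s _ => Measurable.const_mul (Measurable.max measurable_const ?_) _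
  refine Real.measurable_log.comp ?_
  have hc : Continuous fun t : ℝ => Real.log T * ‖s - (1 / 2 + (t : ℂ) * I)‖ := by fun_prop
  exact measurable_const.div hc.measurable

theorem SL_nonneg (T t : ℝ) : 0 ≤ SL T t := by
  unfold SL
  exact Finset.sum_nonneg fun s _ => mul_nonneg (Nat.cast_nonneg _) (le_max_left _ _)

open Classical in
/-- pointwise bound of the singular sum -/
theorem SL_pt (hD : S_DPM) {δ T : ℝ} (hδ : 0 ≤ δ) (hL : 0 < Real.log T) (m N : ℕ) (b : ℕ → ℂ) (F : Finset ℂ) {t : ℝ}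
    (ht : ∀ s ∈ ZD T, s.im ≠ t)
    (hF : ∀ s ∈ ZD T, |s.im - t| ≤ 1 / Real.log T → s ∈ F) :
    SL T t ^ (m + 1) * ‖dp N b t‖ ^ 2 ≤ ∑ s ∈ F, ((mz s : ℝ) * (2 * ((m + 1 : ℕ) : ℝ)) ^ (m + 1) *
      (36 ^ m * (Real.log T * ∫ v in (s.im - 1 / Real.log T)..(s.im + 1 / Real.log T),
        SS δ T v ^ m * Gm N b (Real.log T) v))) * psi (Real.log T * (t - s.im)) := by
  set L := Real.log T with hLdef
  set W := (ZD T).filter (fun s : ℂ => |s.im - t| ≤ 1 / L) with hW
  set ℓ : ℂ → ℝ := fun s => Real.log (1 / (L * |s.im - t|)) with hℓ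
  have hWprop : ∀ s ∈ W, s ∈ ZD T ∧ 0 < L * |s.im - t| ∧ L * |s.im - t| ≤ 1 := by
    intro s hs
    obtain ⟨h1, h2⟩ := Finset.mem_filter.1 hs
    have h3 : 0 < |s.im - t| := abs_pos.2 (sub_ne_zero.2 (ht s h1))
    refine ⟨h1, by positivity, ?_⟩
    calc L * |s.im - t| ≤ L * (1 / L) := by gcongr
      _ = 1 := by field_simp
  have hℓ0 : ∀ s ∈ W, 0 ≤ ℓ s := by
    intro s hs
    obtain ⟨-, h2, h3⟩ := hWprop s hs
    exact Real.log_nonneg (by rw [le_div_iff₀ h2]; linarith)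
  have h1 : SL T t ≤ ∑ s ∈ W, (mz s : ℝ) * ℓ s := by
    unfold SL
    rw [hW, Finset.sum_filter]
    refine Finset.sum_le_sum fun s hs => ?_
    have hge : |s.im - t| ≤ ‖s - (1 / 2 + (t : ℂ) * I)‖ := by
      have h2 := Complex.abs_im_le_norm (s - (1 / 2 + (t : ℂ) * I))
      have h3 : (s - (1 / 2 + (t : ℂ) * I)).im = s.im - t := by simp
      rw [h3] at h2
      exact h2
    by_cases h : |s.im - t| ≤ 1 / L
    · rw [if_pos h]
      refine mul_le_mul_of_nonneg_left ?_ (Nat.cast_nonneg _)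
      have hsW : s ∈ W := Finset.mem_filter.2 ⟨hs, h⟩
      obtain ⟨-, h2, h3⟩ := hWprop s hsW
      refine max_le (hℓ0 s hsW) ?_
      have h4 : 0 < L * ‖s - (1 / 2 + (t : ℂ) * I)‖ := lt_of_lt_of_le h2 (by gcongr)
      refine Real.log_le_log (by positivity) ?_
      exact one_div_le_one_div_of_le h2 (by gcongr)
    · rw [if_neg h]
      rw [not_le] at h
      have h4 : 1 ≤ L * ‖s - (1 / 2 + (t : ℂ) * I)‖ := by
        calc 1 = L * (1 / L) := by field_simp
          _ ≤ L * ‖s - (1 / 2 + (t : ℂ) * I)‖ := by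
            refine mul_le_mul_of_nonneg_left ?_ hL.le
            linarith
      have h5 : Real.log (1 / (L * ‖s - (1 / 2 + (t : ℂ) * I)‖)) ≤ 0 := by
        apply Real.log_nonpos (by positivity)
        rw [div_le_one (by linarith)]
        exact h4
      rw [max_eq_left h5, mul_zero]
  have hSL0 := SL_nonneg T t
  have h2 : SL T t ^ (m + 1) ≤ (∑ s ∈ W, (mz s : ℝ)) ^ m * ∑ s ∈ W, (mz s : ℝ) * ℓ s ^ (m + 1) :=
    (pow_le_pow_left₀ hSL0 h1 _).trans (wpm W _ _ (fun s _ => Nat.cast_nonneg _) hℓ0 m)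
  have hn : ∑ s ∈ W, (mz s : ℝ) ≤ 4 * SS δ T t := cnt_le hδ hL
  have hn0 : 0 ≤ ∑ s ∈ W, (mz s : ℝ) := Finset.sum_nonneg fun _ _ => Nat.cast_nonneg _
  have hSS := SS_nonneg δ T t
  have hsum0 : 0 ≤ ∑ s ∈ W, (mz s : ℝ) * ℓ s ^ (m + 1) :=
    Finset.sum_nonneg fun s hs => mul_nonneg (Nat.cast_nonneg _) (pow_nonneg (hℓ0 s hs) _)
  have h3 : SL T t ^ (m + 1) * ‖dp N b t‖ ^ 2 ≤
      ∑ s ∈ W, (mz s : ℝ) * ℓ s ^ (m + 1) * ((4 * SS δ T t) ^ m * ‖dp N b t‖ ^ 2) := by
    calc SL T t ^ (m + 1) * ‖dp N b t‖ ^ 2 ≤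
          ((4 * SS δ T t) ^ m * ∑ s ∈ W, (mz s : ℝ) * ℓ s ^ (m + 1)) * ‖dp N b t‖ ^ 2 := by
          refine mul_le_mul_of_nonneg_right (h2.trans ?_) (by positivity)
          gcongr
      _ = _ := by
          rw [← Finset.sum_mul]
          ring
  refine h3.trans ?_
  have hR0 : ∀ s : ℂ, 0 ≤ 36 ^ m * (L * ∫ v in (s.im - 1 / L)..(s.im + 1 / L), SS δ T v ^ m * Gm N b L v) := by
    intro s
    have hr : 0 < 1 / L := by positivity
    have : 0 ≤ ∫ v in (s.im - 1 / L)..(s.im + 1 / L), SS δ T v ^ m * Gm N b L v :=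
      intervalIntegral.integral_nonneg (by linarith) fun v _ =>
        mul_nonneg (pow_nonneg (SS_nonneg _ _ _) _) (Gm_nonneg _ _ _ _)
    positivity
  have hWF : W ⊆ F := fun s hs => hF s (hWprop s hs).1 (Finset.mem_filter.1 hs).2
  refine le_trans ?_ (Finset.sum_le_sum_of_subset_of_nonneg hWF fun s _ _ => ?_)
  · refine Finset.sum_le_sum fun s hs => ?_
    obtain ⟨-, h4, h5⟩ := hWprop s hs
    have h6 := int_le_pow (δ := δ) hD hLdef hL m N b (Finset.mem_filter.1 hs).2 (show (0 : ℝ) ≤ 4 by norm_num)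
    norm_num at h6
    have h7 : ℓ s ^ (m + 1) ≤ (2 * ((m + 1 : ℕ) : ℝ)) ^ (m + 1) * psi (L * (t - s.im)) := by
      refine (log_pow_le (by omega) h4 h5).trans ?_
      refine mul_le_mul_of_nonneg_left ?_ (by positivity)
      have e : L * |s.im - t| = |L * (t - s.im)| := by
        rw [abs_mul, abs_of_pos hL, abs_sub_comm]
      rw [e] at h5 ⊢
      exact psi_ge h5
    have h8 := hℓ0 s hs
    calc (mz s : ℝ) * ℓ s ^ (m + 1) * ((4 * SS δ T t) ^ m * ‖dp N b t‖ ^ 2) ≤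
          (mz s : ℝ) * ((2 * ((m + 1 : ℕ) : ℝ)) ^ (m + 1) * psi (L * (t - s.im))) *
            (36 ^ m * (L * ∫ v in (s.im - 1 / L)..(s.im + 1 / L), SS δ T v ^ m * Gm N b L v)) := by
          have hp := psi_nonneg (L * (t - s.im))
          have e3 : 0 ≤ (mz s : ℝ) * ((2 * ((m + 1 : ℕ) : ℝ)) ^ (m + 1) * psi (L * (t - s.im))) := by positivity
          refine mul_le_mul ?_ ?_ (by positivity) e3
          · exact mul_le_mul_of_nonneg_left h7 (Nat.cast_nonneg _)
          · refine h6.trans (le_of_eq ?_)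
            simp only [one_div]
      _ = _ := by ring
  · have := hR0 s
    have hp := psi_nonneg (L * (t - s.im))
    positivity

open Classical in
theorem t_SNG : J_SNG := by
  intro hD _ θ δ m C hθ hθ1 hδ hm hC hS
  obtain ⟨m, rfl⟩ : ∃ k, m = k + 1 := ⟨m - 1, by omega⟩
  refine ⟨(2 * ((m + 1 : ℕ) : ℝ)) ^ (m + 1) * 36 ^ m * 40 * C, by positivity, ?_⟩
  filter_upwards [key hD hδ.le hθ.le (by linarith) hS, eventually_ge_atTop (Real.exp 2), eventually_ge_atTop 16]
    with T hT hTe hT16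
  intro N hN b
  have hT0 : 0 < T := by linarith
  have hL2 : 2 ≤ Real.log T := by rw [Real.le_log_iff_exp_le hT0]; exact hTe
  have hL : 0 < Real.log T := by linarith
  have hr : 1 / Real.log T ≤ 1 := by rw [div_le_one hL]; linarith
  have hr0 : 0 < 1 / Real.log T := by positivity
  obtain ⟨F, hF⟩ : ∃ F : Finset ℂ, F = (ZD T).filter (fun s => T / 3 ≤ s.im ∧ s.im ≤ 5 * T) := ⟨_, rfl⟩
  have hF1 : ∀ s ∈ F, s ∈ ZD T ∧ T / 3 ≤ s.im ∧ s.im ≤ 5 * T := by
    intro s hs
    rw [hF, Finset.mem_filter] at hs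
    exact hs
  have h1 := hT N hN b F hF1
  set R : ℂ → ℝ := fun s => (mz s : ℝ) * (2 * ((m + 1 : ℕ) : ℝ)) ^ (m + 1) *
      (36 ^ m * (Real.log T * ∫ v in (s.im - 1 / Real.log T)..(s.im + 1 / Real.log T),
        SS δ T v ^ m * Gm N b (Real.log T) v)) with hR
  have hR0 : ∀ s, 0 ≤ R s := by
    intro s
    have : 0 ≤ ∫ v in (s.im - 1 / Real.log T)..(s.im + 1 / Real.log T), SS δ T v ^ m * Gm N b (Real.log T) v :=
      intervalIntegral.integral_nonneg (by linarith) fun v _ =>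
        mul_nonneg (pow_nonneg (SS_nonneg _ _ _) _) (Gm_nonneg _ _ _ _)
    rw [hR]
    positivity
  set H : ℝ → ℝ := fun t => ∑ s ∈ F, R s * psi (Real.log T * (t - s.im)) with hH
  have hHint : Integrable H := by
    rw [hH]
    exact integrable_finsetSum _ fun s _ => ((psi_shift hL s.im).1).const_mul _
  have hH0 : ∀ t, 0 ≤ H t := fun t => Finset.sum_nonneg fun s _ => mul_nonneg (hR0 s) (psi_nonneg _)
  have hpt : ∀ t : ℝ, (∀ s ∈ ZD T, s.im ≠ t) → t ∈ Set.Icc (T / 2) (4 * T) →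
      SL T t ^ (m + 1) * ‖dp N b t‖ ^ 2 ≤ H t := by
    intro t ht htm
    refine SL_pt hD hδ.le hL m N b F ht fun s hs hst => ?_
    rw [hF, Finset.mem_filter]
    obtain ⟨e1, e2⟩ := abs_le.1 hst
    obtain ⟨e3, e4⟩ := htm
    exact ⟨hs, by linarith, by linarith⟩
  have hAB : T / 2 ≤ 4 * T := by linarith
  have hae : ∀ᵐ t ∂(volume : Measure ℝ), ∀ s ∈ ZD T, s.im ≠ t := by
    have hfin : (((ZD T).image Complex.im : Finset ℝ) : Set ℝ).Finite := Finset.finite_toSet _
    have h0 : volume (((ZD T).image Complex.im : Finset ℝ) : Set ℝ) = 0 := hfin.measure_zero _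
    rw [ae_iff]
    refine measure_mono_null (fun t ht => ?_) h0
    simp only [Set.mem_ofPred_eq, not_forall, not_not] at ht
    obtain ⟨s, hs, hst⟩ := ht
    rw [Finset.mem_coe, Finset.mem_image]
    exact ⟨s, hs, hst⟩
  have hmeas : Measurable fun t => SL T t ^ (m + 1) * ‖dp N b t‖ ^ 2 :=
    ((SL_meas T).pow_const _).mul ((((hD.2.2 N b 0).2).norm.pow 2).measurable)
  have hint : IntervalIntegrable (fun t => SL T t ^ (m + 1) * ‖dp N b t‖ ^ 2) volume (T / 2) (4 * T) := by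
    rw [intervalIntegrable_iff_integrableOn_Icc_of_le hAB]
    refine Integrable.mono' (hHint.integrableOn (s := Set.Icc (T / 2) (4 * T))) hmeas.aestronglyMeasurable ?_
    rw [ae_restrict_iff' measurableSet_Icc]
    filter_upwards [hae] with t ht htm
    rw [Real.norm_eq_abs, abs_of_nonneg (mul_nonneg (pow_nonneg (SL_nonneg T t) _) (by positivity))]
    exact hpt t ht htm
  refine ⟨hint, ?_⟩
  have h2 : ∫ t in (T / 2)..(4 * T), SL T t ^ (m + 1) * ‖dp N b t‖ ^ 2 ≤ ∫ t in (T / 2)..(4 * T), H t := by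
    rw [intervalIntegral.integral_of_le hAB, intervalIntegral.integral_of_le hAB]
    refine setIntegral_mono_ae_restrict ?_ (hHint.integrableOn) ?_
    · exact (intervalIntegrable_iff_integrableOn_Ioc_of_le hAB).1 hint
    · show ∀ᵐ t ∂(volume.restrict (Set.Ioc (T / 2) (4 * T))), _
      rw [ae_restrict_iff' measurableSet_Ioc]
      filter_upwards [hae] with t ht htm
      exact hpt t ht (Set.Ioc_subset_Icc_self htm)
  have h3 : ∫ t in (T / 2)..(4 * T), H t ≤ ∫ t, H t := by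
    rw [intervalIntegral.integral_of_le hAB]
    exact setIntegral_le_integral hHint (Eventually.of_forall hH0)
  have h4 : ∫ t, H t = ∑ s ∈ F, R s * (4 / Real.log T) := by
    rw [hH, integral_finsetSum _ fun s _ => ((psi_shift hL s.im).1).const_mul _]
    refine Finset.sum_congr rfl fun s _ => ?_
    rw [integral_const_mul, (psi_shift hL s.im).2]
  have h5 : ∑ s ∈ F, R s * (4 / Real.log T) = (2 * ((m + 1 : ℕ) : ℝ)) ^ (m + 1) * 36 ^ m * 4 *
      ∑ s ∈ F, (mz s : ℝ) * ∫ v in (s.im - 1 / Real.log T)..(s.im + 1 / Real.log T),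
        SS δ T v ^ m * Gm N b (Real.log T) v := by
    rw [Finset.mul_sum]
    refine Finset.sum_congr rfl fun s _ => ?_
    simp only [hR]
    field_simp
  calc _ ≤ _ := h2
    _ ≤ _ := h3
    _ = _ := h4
    _ = _ := h5
    _ ≤ (2 * ((m + 1 : ℕ) : ℝ)) ^ (m + 1) * 36 ^ m * 4 * (4 * (5 / 2 * (C * T * N2 N b))) := by gcongr
    _ = _ := by ring

end

end Pool.Agent.Q257.UM
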