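import Pool.Agent.Q257.UM.SNG
import Pool.Agent.Q210.UM.Wnd

set_option autoImplicit false

/-! Project UM5 (helper97), job STM (helper257): all moments of `SS` relative to `|B|²`. -/

namespace Pool.Agent.Q257.UM.ST

open Filter Topology MeasureTheory Complex
open Pool.Agent.Q97.UM Pool.Agent.Q257.UM
open Pool.Agent.Q210.UM (gint V_cont nz_eq nz_mono Zw_sub set_int)

noncomputable section

open Classical in
/-- the local sum over the zeros -/
def UU (δ T s : ℝ) : ℝ := ∑ ρ ∈ (ZD T).filter (fun ρ => |ρ.im - s| ≤ 1 / (2 * Real.log T)),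
  (mz ρ : ℝ) * Real.exp (2 * δ * (Real.log T * |ρ.re - 1 / 2|))

/-- the weights of the cells -/
def ww (X : ℤ) : ℝ := 9 / 4 * (1 / (1 + |(X : ℝ)|) ^ 2)

theorem ww_nonneg (X : ℤ) : 0 ≤ ww X := by unfold ww; positivity

theorem summable_ww : Summable ww := by
  unfold ww
  refine Summable.mul_left _ ?_
  have h1 : Summable (fun m : ℤ => 1 / (m : ℝ) ^ 2) := Real.summable_one_div_int_pow.2 (by norm_num)
  have h2 : Summable (fun m : ℤ => if m = 0 then (1 : ℝ) else 0) := by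
    refine summable_of_ne_finset_zero (s := {0}) fun m hm => ?_
    rw [if_neg]
    simpa using hm
  refine Summable.of_nonneg_of_le (fun m => by positivity) (fun m => ?_) (h1.add h2)
  by_cases hm : m = 0
  · subst hm
    simp
  · rw [if_neg hm, add_zero]
    have hm' : (0 : ℝ) < |(m : ℝ)| := abs_pos.2 (by exact_mod_cast hm)
    refine one_div_le_one_div_of_le (by positivity) ?_
    rw [← sq_abs]
    exact pow_le_pow_left₀ hm'.le (by linarith) 2

theorem UU_nonneg (δ T s : ℝ) : 0 ≤ UU δ T s := by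
  unfold UU
  exact Finset.sum_nonneg fun s _ => mul_nonneg (Nat.cast_nonneg _) (Real.exp_pos _).le

open Classical in
/-- cutting into cells -/
theorem SS_cells {δ T t : ℝ} (hT : 16 ≤ T) (hL : 0 < Real.log T) (ht : T / 4 ≤ t) (ht2 : t ≤ 8 * T) (M : ℤ)
    (hM : 17 * T * Real.log T + 1 ≤ M) :
    SS δ T t ≤ ∑ X ∈ Finset.Icc (-M) M, ww X * UU δ T (t + X / Real.log T) := by
  set L := Real.log T with hLdef
  have e1 : ∑ X ∈ Finset.Icc (-M) M, ww X * UU δ T (t + X / L) =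
      ∑ ρ ∈ ZD T, ∑ X ∈ Finset.Icc (-M) M, (if |ρ.im - (t + X / L)| ≤ 1 / (2 * L) then
        ww X * ((mz ρ : ℝ) * Real.exp (2 * δ * (L * |ρ.re - 1 / 2|))) else 0) := by
    rw [Finset.sum_comm]
    refine Finset.sum_congr rfl fun X _ => ?_
    unfold UU
    rw [Finset.mul_sum, ← hLdef, Finset.sum_filter]
  rw [e1]
  unfold SS
  refine Finset.sum_le_sum fun ρ hρ => ?_
  rw [mem_ZD hT] at hρ
  obtain ⟨-, -, h1, h2, -⟩ := hρ
  set X : ℤ := round (L * (ρ.im - t)) with hX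
  have h3 : |L * (ρ.im - t) - X| ≤ 1 / 2 := abs_sub_round _
  have h4 : |L * (ρ.im - t)| = L * |ρ.im - t| := by rw [abs_mul, abs_of_pos hL]
  have h5 : |(X : ℝ)| ≤ L * |ρ.im - t| + 1 / 2 := by
    have : (X : ℝ) = L * (ρ.im - t) - (L * (ρ.im - t) - X) := by ring
    rw [this, ← h4]
    exact (abs_sub _ _).trans (by linarith)
  have h6 : |ρ.im - t| ≤ 16 * T := by rw [abs_le]; constructor <;> linarith
  have h7 : |(X : ℝ)| ≤ M := by
    refine h5.trans ?_
    have : L * |ρ.im - t| ≤ L * (16 * T) := by gcongr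
    nlinarith [mul_pos hL (by linarith : (0 : ℝ) < T)]
  have hXm : X ∈ Finset.Icc (-M) M := by
    rw [Finset.mem_Icc]
    obtain ⟨a1, a2⟩ := abs_le.1 h7
    constructor
    · exact_mod_cast a1
    · exact_mod_cast a2
  have h8 : |ρ.im - (t + X / L)| ≤ 1 / (2 * L) := by
    have e2 : ρ.im - (t + X / L) = (L * (ρ.im - t) - X) / L := by
      field_simp
      ring
    rw [e2, abs_div, abs_of_pos hL, div_le_div_iff₀ hL (by positivity)]
    nlinarith
  refine le_trans ?_ (Finset.single_le_sum (f := fun X : ℤ => if |ρ.im - (t + X / L)| ≤ 1 / (2 * L) then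
        ww X * ((mz ρ : ℝ) * Real.exp (2 * δ * (L * |ρ.re - 1 / 2|))) else 0) (fun Y _ => ?_) hXm)
  · rw [if_pos h8]
    have e3 : ww X * ((mz ρ : ℝ) * Real.exp (2 * δ * (L * |ρ.re - 1 / 2|))) =
        (mz ρ : ℝ) * (Real.exp (2 * δ * (L * |ρ.re - 1 / 2|)) * ww X) := by ring
    rw [e3]
    refine mul_le_mul_of_nonneg_left ?_ (Nat.cast_nonneg _)
    rw [div_eq_mul_one_div]
    refine mul_le_mul_of_nonneg_left ?_ (Real.exp_pos _).le
    unfold ww
    have h9 : 0 ≤ L * |ρ.im - t| := by positivity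
    rw [mul_one_div, div_le_div_iff₀ (by positivity) (by positivity)]
    have h10 : 1 + |(X : ℝ)| ≤ 3 / 2 * (1 + L * |ρ.im - t|) := by linarith
    calc 1 * (1 + |(X : ℝ)|) ^ 2 ≤ 1 * (3 / 2 * (1 + L * |ρ.im - t|)) ^ 2 := by gcongr
      _ = 9 / 4 * (1 + L * |ρ.im - t|) ^ 2 := by ring
  · split_ifs
    · exact mul_nonneg (ww_nonneg _) (mul_nonneg (Nat.cast_nonneg _) (Real.exp_pos _).le)
    · exact le_rfl

open Classical in
theorem UU_zero {δ T s : ℝ} (hT : 272 ≤ T) (hL : 1 ≤ Real.log T) (hs : s ∉ Set.Icc (T / 17) (17 * T)) : UU δ T s = 0 := by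
  unfold UU
  refine Finset.sum_eq_zero fun ρ hρ => ?_
  exfalso
  rw [Finset.mem_filter, mem_ZD (by linarith)] at hρ
  obtain ⟨⟨-, -, h1, h2, -⟩, h3⟩ := hρ
  have h4 : 1 / (2 * Real.log T) ≤ 1 := by
    rw [div_le_one (by linarith)]; linarith
  obtain ⟨h5, h6⟩ := abs_le.1 (h3.trans h4)
  exact hs ⟨by linarith, by linarith⟩

/-- the sets of the heights with many zeros nearby -/
def PK (T : ℝ) (K : ℕ) : Set ℝ := {s : ℝ | K ≤ nz s (1 / (2 * Real.log T))} ∩ Set.Icc (T / 17) (17 * T)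

/-- the sets of the heights with a zero far from the line nearby -/
def QJ (T : ℝ) (j : ℕ) : Set ℝ := {s : ℝ | ∃ ρ ∈ Zw s (1 / (2 * Real.log T)), (j : ℝ) / Real.log T ≤ |ρ.re - 1 / 2|} ∩
  Set.Icc (T / 17) (17 * T)

theorem ind_nonneg (P : Set ℝ) (s : ℝ) : 0 ≤ P.indicator (1 : ℝ → ℝ) s :=
  Set.indicator_nonneg (fun _ _ => zero_le_one) s

theorem ind_le (P : Set ℝ) (s : ℝ) : P.indicator (1 : ℝ → ℝ) s ≤ 1 :=
  Set.indicator_le_self' (fun _ _ => zero_le_one) s

open Classical in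
theorem UU_le (hZ : S_ZF2) {δ T s : ℝ} (hT : 272 ≤ T) (hδ : 0 ≤ δ) (hL : 1 ≤ Real.log T) (K₀ J : ℕ)
    (hK : s ∈ Set.Icc (T / 17) (17 * T) → nz s (1 / (2 * Real.log T)) ≤ K₀) (hJ : Real.log T ≤ J) (n : ℕ) :
    UU δ T s ^ (n + 1) ≤ ∑ K ∈ Finset.range (K₀ + 1), (K : ℝ) ^ (2 * (n + 1)) * (PK T K).indicator 1 s +
      ∑ j ∈ Finset.range (J + 1), Real.exp (4 * δ * (n + 1) * (j + 1)) * (QJ T j).indicator 1 s := by
  have n1 : 0 ≤ ∑ K ∈ Finset.range (K₀ + 1), (K : ℝ) ^ (2 * (n + 1)) * (PK T K).indicator 1 s :=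
    Finset.sum_nonneg fun K _ => mul_nonneg (by positivity) (ind_nonneg _ _)
  have n2 : 0 ≤ ∑ j ∈ Finset.range (J + 1), Real.exp (4 * δ * (n + 1) * (j + 1)) * (QJ T j).indicator 1 s :=
    Finset.sum_nonneg fun K _ => mul_nonneg (by positivity) (ind_nonneg _ _)
  by_cases hs : s ∈ Set.Icc (T / 17) (17 * T)
  swap
  · rw [UU_zero hT hL hs, zero_pow (by omega)]
    linarith
  set L := Real.log T with hLdef
  set Z := (ZD T).filter (fun ρ => |ρ.im - s| ≤ 1 / (2 * L)) with hZdef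
  rcases Z.eq_empty_or_nonempty with hE | hE
  · have : UU δ T s = 0 := by
      unfold UU
      rw [← hLdef, ← hZdef, hE, Finset.sum_empty]
    rw [this, zero_pow (by omega)]
    linarith
  obtain ⟨ρ₀, hρ₀, hmax⟩ := Finset.exists_max_image Z (fun ρ => L * |ρ.re - 1 / 2|) hE
  have hL0 : 0 < L := by linarith
  have hZw : ∀ ρ ∈ Z, ρ ∈ Zw s (1 / (2 * L)) := by
    intro ρ hρ
    rw [hZdef, Finset.mem_filter, mem_ZD (by linarith)] at hρ
    obtain ⟨⟨h1, h2, h3, h4, h5⟩, h6⟩ := hρ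
    exact ⟨h5, h1, h2, h6⟩
  set A := L * |ρ₀.re - 1 / 2| with hA
  have hA0 : 0 ≤ A := by positivity
  set j := ⌊A⌋₊ with hj
  have hj1 : (j : ℝ) ≤ A := Nat.floor_le hA0
  have hj2 : A ≤ j + 1 := (Nat.lt_floor_add_one A).le
  have hjJ : j ∈ Finset.range (J + 1) := by
    rw [Finset.mem_range, Nat.lt_succ_iff]
    have h1 := hZw ρ₀ hρ₀
    have h2 : |ρ₀.re - 1 / 2| ≤ 1 := by
      rw [abs_le]; constructor <;> linarith [h1.2.1, h1.2.2.1]
    have h3 : A ≤ L := by
      calc A ≤ L * 1 := by rw [hA]; gcongr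
        _ = L := mul_one _
    have h4 : (j : ℝ) ≤ J := by linarith
    exact_mod_cast h4
  have hQ : s ∈ QJ T j := by
    refine ⟨⟨ρ₀, hZw ρ₀ hρ₀, ?_⟩, hs⟩
    rw [div_le_iff₀ hL0, mul_comm]
    exact hj1
  have hU : UU δ T s ≤ (nz s (1 / (2 * L)) : ℝ) * Real.exp (2 * δ * (j + 1)) := by
    have h1 : UU δ T s ≤ ∑ ρ ∈ Z, (mz ρ : ℝ) * Real.exp (2 * δ * (j + 1)) := by
      unfold UU
      refine Finset.sum_le_sum fun ρ hρ => ?_
      refine mul_le_mul_of_nonneg_left (Real.exp_le_exp.2 ?_) (Nat.cast_nonneg _)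
      have := hmax ρ hρ
      gcongr
      exact this.trans hj2
    refine h1.trans ?_
    rw [← Finset.sum_mul]
    refine mul_le_mul_of_nonneg_right ?_ (Real.exp_pos _).le
    rw [nz_eq hZ]
    push_cast
    refine Finset.sum_le_sum_of_subset_of_nonneg (fun ρ hρ => ?_) fun _ _ _ => Nat.cast_nonneg _
    rw [Set.Finite.mem_toFinset]
    exact hZw ρ hρ
  set K := nz s (1 / (2 * L)) with hKdef
  have hKm : K ∈ Finset.range (K₀ + 1) := by
    rw [Finset.mem_range, Nat.lt_succ_iff]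
    exact hK hs
  have hP : s ∈ PK T K := ⟨le_of_eq hKdef, hs⟩
  have h2 : UU δ T s ^ (n + 1) ≤ (K : ℝ) ^ (2 * (n + 1)) + Real.exp (4 * δ * (n + 1) * (j + 1)) := by
    calc UU δ T s ^ (n + 1) ≤ ((K : ℝ) * Real.exp (2 * δ * (j + 1))) ^ (n + 1) :=
          pow_le_pow_left₀ (UU_nonneg _ _ _) hU _
      _ = (K : ℝ) ^ (n + 1) * Real.exp (2 * δ * (j + 1)) ^ (n + 1) := mul_pow _ _ _
      _ ≤ ((K : ℝ) ^ (n + 1)) ^ 2 + (Real.exp (2 * δ * (j + 1)) ^ (n + 1)) ^ 2 := by
          nlinarith [sq_nonneg ((K : ℝ) ^ (n + 1) - Real.exp (2 * δ * (j + 1)) ^ (n + 1)),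
            sq_nonneg ((K : ℝ) ^ (n + 1)), sq_nonneg (Real.exp (2 * δ * (j + 1)) ^ (n + 1))]
      _ = (K : ℝ) ^ (2 * (n + 1)) + Real.exp (4 * δ * (n + 1) * (j + 1)) := by
          rw [← pow_mul, ← pow_mul, ← Real.exp_nat_mul]
          push_cast
          congr 1
          · ring
          · congr 1
            ring
  refine h2.trans (add_le_add ?_ ?_)
  · have h3 := Finset.single_le_sum (f := fun K : ℕ => (K : ℝ) ^ (2 * (n + 1)) * (PK T K).indicator 1 s)
      (fun K _ => mul_nonneg (by positivity) (ind_nonneg _ _)) hKm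
    refine le_trans ?_ h3
    simp only [Set.indicator_of_mem hP, Pi.one_apply, mul_one, le_refl]
  · have h3 := Finset.single_le_sum (f := fun j : ℕ => Real.exp (4 * δ * (n + 1) * (j + 1)) * (QJ T j).indicator 1 s)
      (fun K _ => mul_nonneg (by positivity) (ind_nonneg _ _)) hjJ
    refine le_trans ?_ h3
    simp only [Set.indicator_of_mem hQ, Pi.one_apply, mul_one, le_refl]

/-- the mass of a set, from dyadic intervals -/
theorem mass (hD : S_DPM) {T β : ℝ} (hT : 0 < T) {P : Set ℝ} (mP : MeasurableSet P) (N : ℕ) (b : ℕ → ℂ) (hβ : 0 ≤ β)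
    (h : ∀ k < 10, ∫ s in (T / 32 * 2 ^ k)..(2 * (T / 32 * 2 ^ k)), P.indicator 1 s * ‖dp N b s‖ ^ 2 ≤
      β * (T / 32 * 2 ^ k) * N2 N b) :
    ∫ s in (T / 32)..(32 * T), P.indicator 1 s * ‖dp N b s‖ ^ 2 ≤ β * (32 * T) * N2 N b := by
  have hV := V_cont hD N b
  have hV0 : ∀ s : ℝ, 0 ≤ ‖dp N b s‖ ^ 2 := fun s => sq_nonneg _
  set a : ℕ → ℝ := fun k => T / 32 * 2 ^ k with ha
  have hi : ∀ k < 10, IntervalIntegrable (fun s => P.indicator (1 : ℝ → ℝ) s * ‖dp N b s‖ ^ 2) volume (a k) (a (k + 1)) := by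
    intro k _
    refine gint (M := 1) (measurable_one.indicator mP) ?_ (ind_nonneg P) (fun s _ _ => ind_le P s) hV hV0
    have : 0 < a k := by rw [ha]; positivity
    have e : a (k + 1) = 2 * a k := by rw [ha]; simp only [pow_succ]; ring
    rw [e]
    linarith
  have e1 := intervalIntegral.sum_integral_adjacent_intervals hi
  have e2 : a 0 = T / 32 := by simp [ha]
  have e3 : a 10 = 32 * T := by simp only [ha]; ring
  rw [e2, e3] at e1
  rw [← e1]
  have h2 : ∀ k ∈ Finset.range 10, ∫ s in (a k)..(a (k + 1)), P.indicator (1 : ℝ → ℝ) s * ‖dp N b s‖ ^ 2 ≤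
      β * (T / 32 * 2 ^ k) * N2 N b := by
    intro k hk
    have e : a (k + 1) = 2 * (T / 32 * 2 ^ k) := by simp only [ha, pow_succ]; ring
    rw [e]
    exact h k (Finset.mem_range.1 hk)
  refine (Finset.sum_le_sum h2).trans ?_
  rw [← Finset.sum_mul, ← Finset.mul_sum, ← Finset.mul_sum]
  have hN := Pool.Agent.Q210.UM.N2_nonneg N b
  have h3 : T / 32 * ∑ k ∈ Finset.range 10, (2 : ℝ) ^ k ≤ 32 * T := by
    have : ∑ k ∈ Finset.range 10, (2 : ℝ) ^ k = 1023 := by
      simp only [Finset.sum_range_succ, Finset.sum_range_zero]; norm_num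
    rw [this]
    linarith
  gcongr

/-- shifting -/
theorem shiftP (hD : S_DPM) {T x β : ℝ} (hT : 0 < T) {P : Set ℝ} (mP : MeasurableSet P)
    (hP : P ⊆ Set.Icc (T / 17) (17 * T)) (N : ℕ)
    (hB : ∀ b : ℕ → ℂ, ∫ s in (T / 32)..(32 * T), P.indicator 1 s * ‖dp N b s‖ ^ 2 ≤ β * N2 N b) (b : ℕ → ℂ) :
    ∫ t in (T / 4)..(8 * T), P.indicator 1 (t + x) * ‖dp N b t‖ ^ 2 ≤ β * N2 N b := by
  have e1 := intervalIntegral.integral_comp_add_right (a := T / 4) (b := 8 * T)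
    (fun s => P.indicator (1 : ℝ → ℝ) s * ‖dp N b (s - x)‖ ^ 2) x
  simp only [add_sub_cancel_right] at e1
  rw [e1]
  set b' : ℕ → ℂ := fun n => b n * (n : ℂ) ^ (x * Complex.I) with hb'
  have e2 : ∀ s : ℝ, dp N b (s - x) = dp N b' s := fun s => (hD.2.1 N b s x).1
  have e3 : N2 N b' = N2 N b := (hD.2.1 N b 0 x).2
  simp_rw [e2]
  have hV := V_cont hD N b'
  have hV0 : ∀ s : ℝ, 0 ≤ ‖dp N b' s‖ ^ 2 := fun s => sq_nonneg _
  rw [← e3]
  refine le_trans ?_ (hB b')
  have hi : IntervalIntegrable (fun s => P.indicator (1 : ℝ → ℝ) s * ‖dp N b' s‖ ^ 2) volume (T / 32) (32 * T) :=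
    gint (M := 1) (measurable_one.indicator mP) (by linarith) (ind_nonneg P) (fun s _ _ => ind_le P s) hV hV0
  rw [intervalIntegrable_iff_integrableOn_Ioc_of_le (by linarith)] at hi
  have hz : ∀ s, s ∉ Set.Ioc (T / 32) (32 * T) → P.indicator (1 : ℝ → ℝ) s * ‖dp N b' s‖ ^ 2 = 0 := by
    intro s hs
    have : s ∉ P := fun hp => hs ⟨by linarith [(hP hp).1], by linarith [(hP hp).2]⟩
    rw [Set.indicator_of_notMem this, zero_mul]
  have hI := hi.integrable_of_forall_notMem_eq_zero hz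
  rw [intervalIntegral.integral_of_le (by linarith), intervalIntegral.integral_of_le (by linarith),
    setIntegral_eq_integral_of_forall_compl_eq_zero hz]
  exact setIntegral_le_integral hI (Eventually.of_forall fun s => mul_nonneg (ind_nonneg P s) (hV0 s))

/-- a family of weights -/
theorem fam (hD : S_DPM) {T L : ℝ} (hT : 0 < T) (N : ℕ) (b : ℕ → ℂ) (F : Finset ℤ) (w : ℤ → ℝ) (hw : ∀ X, 0 ≤ w X)
    (I : Finset ℕ) (a β : ℕ → ℝ) (ha : ∀ i ∈ I, 0 ≤ a i) (P : ℕ → Set ℝ) (mP : ∀ i, MeasurableSet (P i))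
    (hP : ∀ i, P i ⊆ Set.Icc (T / 17) (17 * T))
    (hB : ∀ i ∈ I, ∀ b : ℕ → ℂ, ∫ s in (T / 32)..(32 * T), (P i).indicator 1 s * ‖dp N b s‖ ^ 2 ≤ β i * N2 N b) :
    IntervalIntegrable (fun t => (∑ X ∈ F, w X * ∑ i ∈ I, a i * (P i).indicator 1 (t + X / L)) * ‖dp N b t‖ ^ 2) volume
      (T / 4) (8 * T) ∧
    ∫ t in (T / 4)..(8 * T), (∑ X ∈ F, w X * ∑ i ∈ I, a i * (P i).indicator 1 (t + X / L)) * ‖dp N b t‖ ^ 2 ≤
      (∑ X ∈ F, w X) * (∑ i ∈ I, a i * β i) * N2 N b := by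
  have hV := V_cont hD N b
  have hV0 : ∀ s : ℝ, 0 ≤ ‖dp N b s‖ ^ 2 := fun s => sq_nonneg _
  have hi : ∀ X ∈ F, ∀ i ∈ I, IntervalIntegrable (fun t => w X * a i * ((P i).indicator 1 (t + X / L) * ‖dp N b t‖ ^ 2)) volume
      (T / 4) (8 * T) := by
    intro X _ i _
    refine IntervalIntegrable.const_mul ?_ _
    refine gint (M := 1) (g := fun t => (P i).indicator (1 : ℝ → ℝ) (t + X / L))
      ((measurable_one.indicator (mP i)).comp (measurable_id.add_const _)) (by linarith)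
      (fun s => ind_nonneg _ _) (fun s _ _ => ind_le _ _) hV hV0
  have e0 : (fun t => (∑ X ∈ F, w X * ∑ i ∈ I, a i * (P i).indicator 1 (t + X / L)) * ‖dp N b t‖ ^ 2) =
      fun t => ∑ X ∈ F, ∑ i ∈ I, w X * a i * ((P i).indicator 1 (t + X / L) * ‖dp N b t‖ ^ 2) := by
    funext t
    rw [Finset.sum_mul]
    refine Finset.sum_congr rfl fun X _ => ?_
    rw [Finset.mul_sum, Finset.sum_mul]
    exact Finset.sum_congr rfl fun i _ => by ring
  have hi2 : ∀ X ∈ F, IntervalIntegrable (fun t => ∑ i ∈ I, w X * a i * ((P i).indicator 1 (t + X / L) * ‖dp N b t‖ ^ 2)) volume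
      (T / 4) (8 * T) := by
    intro X hX
    have := IntervalIntegrable.sum I (hi X hX)
    refine this.congr fun s _ => ?_
    simp [Finset.sum_apply]
  rw [e0]
  constructor
  · have := IntervalIntegrable.sum F hi2
    refine this.congr fun s _ => ?_
    simp [Finset.sum_apply]
  · rw [intervalIntegral.integral_finsetSum hi2, Finset.sum_mul, Finset.sum_mul]
    refine Finset.sum_le_sum fun X hX => ?_
    rw [intervalIntegral.integral_finsetSum (hi X hX), Finset.mul_sum, Finset.sum_mul]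
    refine Finset.sum_le_sum fun i hi' => ?_
    rw [intervalIntegral.integral_const_mul]
    have h1 := shiftP hD (x := X / L) hT (mP i) (hP i) N (hB i hi') b
    calc w X * a i * ∫ t in (T / 4)..(8 * T), (P i).indicator 1 (t + X / L) * ‖dp N b t‖ ^ 2 ≤
          w X * a i * (β i * N2 N b) := mul_le_mul_of_nonneg_left h1 (mul_nonneg (hw X) (ha i hi'))
      _ = _ := by ring

/-- a set of `[T, 2T]` -/
theorem ind_int_le (hD : S_DPM) {T' : ℝ} (hT : 0 < T') (N : ℕ) (b : ℕ → ℂ) {P : Set ℝ} (mP : MeasurableSet P) {S : Set ℝ}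
    (hS : ∀ t, T' ≤ t → t ≤ 2 * T' → t ∈ P → t ∈ S) (hS2 : S ⊆ Set.Icc T' (2 * T')) {B : ℝ}
    (h : ∫ t in S, ‖dp N b t‖ ^ 2 ≤ B) : ∫ s in T'..(2 * T'), P.indicator 1 s * ‖dp N b s‖ ^ 2 ≤ B := by
  rw [← set_int hT.le mP]
  refine le_trans ?_ h
  refine setIntegral_mono_set (((V_cont hD N b).integrableOn_Icc).mono_set hS2)
    (Eventually.of_forall fun t => sq_nonneg _) (LE.le.eventuallyLE ?_)
  rintro t ⟨t1, t2, t3⟩
  exact hS t t1 t2 t3

theorem t_STM : J_STM := by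
  intro hD _ hZ θ c C hθ0 hθ1 hc hC hTB m δ hδ hm
  set Sw : ℝ := ∑' X : ℤ, ww X with hSw
  set S1 : ℝ := ∑' K : ℕ, (K : ℝ) ^ (2 * m) * Real.exp (-c * K) with hS1
  set S2 : ℝ := ∑' j : ℕ, (j : ℝ) ^ 0 * Real.exp (-(c / 4) * j) with hS2
  have s1 : Summable (fun K : ℕ => (K : ℝ) ^ (2 * m) * Real.exp (-c * K)) := Real.summable_pow_mul_exp_neg_nat_mul _ hc
  have s2 : Summable (fun K : ℕ => (K : ℝ) ^ 0 * Real.exp (-(c / 4) * K)) :=
    Real.summable_pow_mul_exp_neg_nat_mul _ (by positivity)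
  have p0 : 0 ≤ Sw := tsum_nonneg ww_nonneg
  have p1 : 0 ≤ S1 := tsum_nonneg fun K => by positivity
  have p2 : 0 ≤ S2 := tsum_nonneg fun K => by positivity
  refine ⟨32 * C + 32 * C * Sw ^ m * (S1 + Real.exp (c / 4) * S2), by positivity, ?_⟩
  obtain ⟨T₀, hT₀⟩ := eventually_atTop.1 hTB
  filter_upwards [eventually_ge_atTop (32 * T₀), eventually_ge_atTop (Real.exp 7), eventually_ge_atTop 272]
    with T hT1 hT2 hT3 N hN b
  have hT0 : 0 < T := by linarith
  have hL : 7 ≤ Real.log T := by rw [Real.le_log_iff_exp_le hT0]; exact hT2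
  set L := Real.log T with hLdef
  have hL0 : 0 < L := by linarith
  have hlog2 : Real.log 2 ≤ 7 / 10 := by
    have := Real.log_two_lt_d9
    linarith
  have hlog2p : 0 < Real.log 2 := Real.log_pos one_lt_two
  have hrr : 1 / (2 * L) ≤ 1 := by rw [div_le_one (by linarith)]; linarith
  have hr0 : 0 < 1 / (2 * L) := by positivity
  have hN2 := Pool.Agent.Q210.UM.N2_nonneg N b
  -- the scales
  have key : ∀ k < 10, 0 < T / 32 * 2 ^ k ∧ L / 2 ≤ Real.log (T / 32 * 2 ^ k) ∧ Real.log (T / 32 * 2 ^ k) ≤ 2 * L ∧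
      (N : ℝ) ≤ (T / 32 * 2 ^ k) ^ θ ∧ T₀ ≤ T / 32 * 2 ^ k := by
    intro k hk
    have k1 : 0 < T / 32 * 2 ^ k := by positivity
    have e1 : Real.log (T / 32 * 2 ^ k) = L - 5 * Real.log 2 + k * Real.log 2 := by
      rw [Real.log_mul (by positivity) (by positivity), Real.log_div hT0.ne' (by norm_num), Real.log_pow,
        show (32 : ℝ) = 2 ^ 5 by norm_num, Real.log_pow]
      push_cast
      ring
    have hk9 : (k : ℝ) ≤ 9 := by exact_mod_cast Nat.lt_succ_iff.1 hk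
    have hk0 : (0 : ℝ) ≤ k := Nat.cast_nonneg k
    have k2 : L / 2 ≤ Real.log (T / 32 * 2 ^ k) := by
      rw [e1]
      nlinarith
    have k3 : Real.log (T / 32 * 2 ^ k) ≤ 2 * L := by
      rw [e1]
      nlinarith
    refine ⟨k1, k2, k3, ?_, ?_⟩
    · refine hN.trans ?_
      rw [Real.rpow_def_of_pos hT0, Real.rpow_def_of_pos k1]
      refine Real.exp_le_exp.2 ?_
      nlinarith
    · have : (1 : ℝ) ≤ 2 ^ k := one_le_pow₀ (by norm_num)
      nlinarith
  have mPK : ∀ K, MeasurableSet (PK T K) := fun K => (hZ.2.1 _ K).inter measurableSet_Icc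
  have mQJ : ∀ j, MeasurableSet (QJ T j) := fun j => (hZ.2.2 _ _).inter measurableSet_Icc
  have massP : ∀ K : ℕ, ∀ b : ℕ → ℂ, ∫ s in (T / 32)..(32 * T), (PK T K).indicator 1 s * ‖dp N b s‖ ^ 2 ≤
      (C * Real.exp (-c * K) * (32 * T)) * N2 N b := by
    intro K b
    refine mass hD hT0 (mPK K) N b (by positivity) fun k hk => ?_
    obtain ⟨k1, k2, k3, k4, k5⟩ := key k hk
    have h1 := (hT₀ _ k5 N k4 b).2 K
    rw [show -(c * (K : ℝ)) = -c * K by ring] at h1
    refine ind_int_le hD k1 N b (mPK K) ?_ (fun t ht => ⟨ht.1, ht.2.1⟩) h1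
    rintro t t1 t2 ⟨t3, -⟩
    refine ⟨t1, t2, le_trans t3 (nz_mono hZ (Zw_sub ?_))⟩
    rw [sub_self, abs_zero, zero_add]
    exact one_div_le_one_div_of_le (by linarith) k3
  have massQ : ∀ j : ℕ, ∀ b : ℕ → ℂ, ∫ s in (T / 32)..(32 * T), (QJ T j).indicator 1 s * ‖dp N b s‖ ^ 2 ≤
      (C * Real.exp (-(c / 2) * j) * (32 * T)) * N2 N b := by
    intro j b
    refine mass hD hT0 (mQJ j) N b (by positivity) fun k hk => ?_
    obtain ⟨k1, k2, k3, k4, k5⟩ := key k hk
    set L' := Real.log (T / 32 * 2 ^ k) with hL'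
    have hL'0 : 0 < L' := by linarith
    have h1 := (hT₀ _ k5 N k4 b).1 (j * L' / L) (by positivity)
    refine ind_int_le hD k1 N b (mQJ j) ?_ (fun t ht => ⟨ht.1, ht.2.1⟩) (h1.trans ?_)
    · rintro t t1 t2 ⟨⟨ρ, t3, t4⟩, -⟩
      refine ⟨t1, t2, ρ, Zw_sub (t := t) (r := 1 / (2 * L)) ?_ t3, ?_⟩
      · rw [sub_self, abs_zero, zero_add]
        exact one_div_le_one_div_of_le (by linarith) k3
      · have e : (j : ℝ) * L' / L / L' = j / L := by field_simp
        rw [e]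
        exact t4
    · have hN2b := Pool.Agent.Q210.UM.N2_nonneg N b
      have h2 : Real.exp (-(c * (j * L' / L))) ≤ Real.exp (-(c / 2) * j) := by
        refine Real.exp_le_exp.2 ?_
        have h3 : (j : ℝ) / 2 ≤ j * L' / L := by
          rw [le_div_iff₀ hL0]
          have : (0 : ℝ) ≤ j := Nat.cast_nonneg j
          nlinarith
        nlinarith
      gcongr
  have hnn : ∀ v : ℝ, 0 ≤ ‖dp N b v‖ ^ 2 := fun v => by positivity
  rcases Nat.eq_zero_or_pos m with h0 | hpos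
  · -- the mean value
    subst h0
    have h1 := massP 0 b
    have h2 := fam hD (L := L) hT0 N b {0} (fun _ => 1) (fun _ => zero_le_one) {0} (fun _ => 1)
      (fun K => C * Real.exp (-c * K) * (32 * T)) (fun _ _ => zero_le_one) (PK T) mPK (fun i => Set.inter_subset_right)
      (fun i _ => massP i)
    have h3 : ∫ t in (T / 4)..(8 * T), SS δ T t ^ 0 * ‖dp N b t‖ ^ 2 ≤
        ∫ t in (T / 4)..(8 * T), (∑ X ∈ {(0 : ℤ)}, (1 : ℝ) * ∑ i ∈ {(0 : ℕ)}, (1 : ℝ) *
          (PK T i).indicator 1 (t + X / L)) * ‖dp N b t‖ ^ 2 := by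
      refine intervalIntegral.integral_mono_on (by linarith) ?_ h2.1 fun t ht => ?_
      · simp only [pow_zero, one_mul]
        exact (V_cont hD N b).intervalIntegrable _ _
      · refine mul_le_mul_of_nonneg_right ?_ (hnn t)
        have : t + ((0 : ℤ) : ℝ) / L ∈ PK T 0 := by
          refine ⟨Nat.zero_le _, ?_, ?_⟩
          · simp only [Int.cast_zero, zero_div, add_zero]
            linarith [ht.1]
          · simp only [Int.cast_zero, zero_div, add_zero]
            linarith [ht.2]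
        rw [Finset.sum_singleton, Finset.sum_singleton, Set.indicator_of_mem this]
        simp
    refine (h3.trans h2.2).trans ?_
    simp only [Finset.sum_singleton, Nat.cast_zero, mul_zero, Real.exp_zero, mul_one, one_mul, pow_zero]
    have : 0 ≤ 32 * C * (S1 + Real.exp (c / 4) * S2) * T * N2 N b := by positivity
    calc C * (32 * T) * N2 N b ≤ C * (32 * T) * N2 N b + 32 * C * (S1 + Real.exp (c / 4) * S2) * T * N2 N b := by linarith
      _ = _ := by ring
  · obtain ⟨n, rfl⟩ : ∃ n, m = n + 1 := ⟨m - 1, by omega⟩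
    set M : ℤ := ⌈17 * T * L + 1⌉ with hM
    have hM1 : 17 * T * L + 1 ≤ M := Int.le_ceil _
    set K₀ : ℕ := nz 0 (17 * T + 1) with hK₀
    set J : ℕ := ⌈L⌉₊ with hJ
    have hJ1 : L ≤ J := Nat.le_ceil _
    set F := Finset.Icc (-M) M with hF
    have hK : ∀ s ∈ Set.Icc (T / 17) (17 * T), nz s (1 / (2 * L)) ≤ K₀ := by
      intro s hs
      refine nz_mono hZ (Zw_sub ?_)
      rw [sub_zero, abs_of_nonneg (by linarith [hs.1])]
      linarith [hs.2]
    have hW : ∑ X ∈ F, ww X ≤ Sw := summable_ww.sum_le_tsum F fun X _ => ww_nonneg X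
    have hW0 : 0 ≤ ∑ X ∈ F, ww X := Finset.sum_nonneg fun X _ => ww_nonneg X
    obtain ⟨i1, f1⟩ := fam hD (L := L) hT0 N b F ww ww_nonneg (Finset.range (K₀ + 1)) (fun K => (K : ℝ) ^ (2 * (n + 1)))
      (fun K => C * Real.exp (-c * K) * (32 * T)) (fun i _ => by positivity) (PK T) mPK (fun i => Set.inter_subset_right)
      (fun i _ => massP i)
    obtain ⟨i2, f2⟩ := fam hD (L := L) hT0 N b F ww ww_nonneg (Finset.range (J + 1))
      (fun j => Real.exp (4 * δ * (n + 1) * (j + 1)))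
      (fun j => C * Real.exp (-(c / 2) * j) * (32 * T)) (fun i _ => by positivity) (QJ T) mQJ (fun i => Set.inter_subset_right)
      (fun i _ => massQ i)
    have hpt : ∀ t ∈ Set.Icc (T / 4) (8 * T), SS δ T t ^ (n + 1) ≤ Sw ^ n * (
        (∑ X ∈ F, ww X * ∑ K ∈ Finset.range (K₀ + 1), (K : ℝ) ^ (2 * (n + 1)) * (PK T K).indicator 1 (t + X / L)) +
        (∑ X ∈ F, ww X * ∑ j ∈ Finset.range (J + 1), Real.exp (4 * δ * (n + 1) * (j + 1)) *
          (QJ T j).indicator 1 (t + X / L))) := by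
      intro t ht
      have h1 := SS_cells (δ := δ) (by linarith) hL0 ht.1 ht.2 M hM1
      have h2 : SS δ T t ^ (n + 1) ≤ (∑ X ∈ F, ww X) ^ n * ∑ X ∈ F, ww X * UU δ T (t + X / L) ^ (n + 1) :=
        (pow_le_pow_left₀ (SS_nonneg _ _ _) h1 _).trans (wpm F ww _ (fun X _ => ww_nonneg X) (fun X _ => UU_nonneg _ _ _) n)
      refine h2.trans ?_
      have h3 : ∑ X ∈ F, ww X * UU δ T (t + X / L) ^ (n + 1) ≤
          (∑ X ∈ F, ww X * ∑ K ∈ Finset.range (K₀ + 1), (K : ℝ) ^ (2 * (n + 1)) * (PK T K).indicator 1 (t + X / L)) +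
          (∑ X ∈ F, ww X * ∑ j ∈ Finset.range (J + 1), Real.exp (4 * δ * (n + 1) * (j + 1)) *
            (QJ T j).indicator 1 (t + X / L)) := by
        rw [← Finset.sum_add_distrib]
        refine Finset.sum_le_sum fun X _ => ?_
        rw [← mul_add]
        exact mul_le_mul_of_nonneg_left (UU_le hZ hT3 hδ.le (by linarith) K₀ J (hK _) hJ1 n) (ww_nonneg X)
      have h4 : 0 ≤ ∑ X ∈ F, ww X * UU δ T (t + X / L) ^ (n + 1) :=
        Finset.sum_nonneg fun X _ => mul_nonneg (ww_nonneg X) (pow_nonneg (UU_nonneg _ _ _) _)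
      exact mul_le_mul (pow_le_pow_left₀ hW0 hW _) h3 h4 (by positivity)
    have h5 : ∫ t in (T / 4)..(8 * T), SS δ T t ^ (n + 1) * ‖dp N b t‖ ^ 2 ≤
        ∫ t in (T / 4)..(8 * T), Sw ^ n * (
          (∑ X ∈ F, ww X * ∑ K ∈ Finset.range (K₀ + 1), (K : ℝ) ^ (2 * (n + 1)) * (PK T K).indicator 1 (t + X / L)) *
            ‖dp N b t‖ ^ 2 +
          (∑ X ∈ F, ww X * ∑ j ∈ Finset.range (J + 1), Real.exp (4 * δ * (n + 1) * (j + 1)) *
            (QJ T j).indicator 1 (t + X / L)) * ‖dp N b t‖ ^ 2) := by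
      refine intervalIntegral.integral_mono_on (by linarith) ?_ ((i1.add i2).const_mul _) fun t ht => ?_
      · exact (((SS_cont hL0.le).pow (n + 1)).mul (V_cont hD N b)).intervalIntegrable _ _
      · calc SS δ T t ^ (n + 1) * ‖dp N b t‖ ^ 2 ≤ _ := mul_le_mul_of_nonneg_right (hpt t ht) (hnn t)
          _ = _ := by ring
    refine h5.trans ?_
    rw [intervalIntegral.integral_const_mul, intervalIntegral.integral_add i1 i2]
    have g1 : ∑ K ∈ Finset.range (K₀ + 1), (K : ℝ) ^ (2 * (n + 1)) * (C * Real.exp (-c * K) * (32 * T)) ≤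
        32 * C * T * S1 := by
      have e : ∀ K ∈ Finset.range (K₀ + 1), (K : ℝ) ^ (2 * (n + 1)) * (C * Real.exp (-c * K) * (32 * T)) =
          32 * C * T * ((K : ℝ) ^ (2 * (n + 1)) * Real.exp (-c * K)) := fun K _ => by ring
      rw [Finset.sum_congr rfl e, ← Finset.mul_sum]
      exact mul_le_mul_of_nonneg_left (s1.sum_le_tsum _ fun K _ => by positivity) (by positivity)
    have g2 : ∑ j ∈ Finset.range (J + 1), Real.exp (4 * δ * (n + 1) * (j + 1)) * (C * Real.exp (-(c / 2) * j) * (32 * T)) ≤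
        32 * C * T * (Real.exp (c / 4) * S2) := by
      have e : ∀ j ∈ Finset.range (J + 1), Real.exp (4 * δ * (n + 1) * (j + 1)) * (C * Real.exp (-(c / 2) * j) * (32 * T)) ≤
          32 * C * T * (Real.exp (c / 4) * ((j : ℝ) ^ 0 * Real.exp (-(c / 4) * j))) := by
        intro j _
        have hd : 4 * δ * (n + 1) ≤ c / 4 := by
          push_cast at hm
          nlinarith
        have h1 : Real.exp (4 * δ * (n + 1) * (j + 1)) ≤ Real.exp (c / 4 * (j + 1)) := by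
          refine Real.exp_le_exp.2 ?_
          gcongr
        calc Real.exp (4 * δ * (n + 1) * (j + 1)) * (C * Real.exp (-(c / 2) * j) * (32 * T)) ≤
              Real.exp (c / 4 * (j + 1)) * (C * Real.exp (-(c / 2) * j) * (32 * T)) :=
              mul_le_mul_of_nonneg_right h1 (by positivity)
          _ = 32 * C * T * (Real.exp (c / 4 * (j + 1)) * Real.exp (-(c / 2) * j)) := by ring
          _ = 32 * C * T * (Real.exp (c / 4) * ((j : ℝ) ^ 0 * Real.exp (-(c / 4) * j))) := by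
              rw [pow_zero, one_mul, ← Real.exp_add, ← Real.exp_add]
              congr 2
              ring
      refine (Finset.sum_le_sum e).trans ?_
      rw [← Finset.mul_sum, ← Finset.mul_sum]
      refine mul_le_mul_of_nonneg_left ?_ (by positivity)
      exact mul_le_mul_of_nonneg_left (s2.sum_le_tsum _ fun K _ => by positivity) (Real.exp_pos _).le
    have g3 : (∑ X ∈ F, ww X) * (∑ K ∈ Finset.range (K₀ + 1), (K : ℝ) ^ (2 * (n + 1)) * (C * Real.exp (-c * K) * (32 * T))) *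
        N2 N b ≤ Sw * (32 * C * T * S1) * N2 N b := by
      refine mul_le_mul_of_nonneg_right ?_ hN2
      exact mul_le_mul hW g1 (Finset.sum_nonneg fun K _ => by positivity) p0
    have g4 : (∑ X ∈ F, ww X) * (∑ j ∈ Finset.range (J + 1), Real.exp (4 * δ * (n + 1) * (j + 1)) *
        (C * Real.exp (-(c / 2) * j) * (32 * T))) * N2 N b ≤ Sw * (32 * C * T * (Real.exp (c / 4) * S2)) * N2 N b := by
      refine mul_le_mul_of_nonneg_right ?_ hN2
      exact mul_le_mul hW g2 (Finset.sum_nonneg fun K _ => by positivity) p0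
    have g5 : Sw ^ n * ((∫ t in (T / 4)..(8 * T),
          (∑ X ∈ F, ww X * ∑ K ∈ Finset.range (K₀ + 1), (K : ℝ) ^ (2 * (n + 1)) * (PK T K).indicator 1 (t + X / L)) *
            ‖dp N b t‖ ^ 2) +
        ∫ t in (T / 4)..(8 * T), (∑ X ∈ F, ww X * ∑ j ∈ Finset.range (J + 1), Real.exp (4 * δ * (n + 1) * (j + 1)) *
            (QJ T j).indicator 1 (t + X / L)) * ‖dp N b t‖ ^ 2) ≤
        Sw ^ n * (Sw * (32 * C * T * S1) * N2 N b + Sw * (32 * C * T * (Real.exp (c / 4) * S2)) * N2 N b) :=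
      mul_le_mul_of_nonneg_left (add_le_add (f1.trans g3) (f2.trans g4)) (by positivity)
    refine g5.trans ?_
    have g6 : 0 ≤ 32 * C * T * N2 N b := by positivity
    calc _ ≤ _ + 32 * C * T * N2 N b := le_add_of_nonneg_right g6
      _ = _ := by ring

end

end Pool.Agent.Q257.UM.ST
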