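import Pool.Agent.Q257.UM.VAVb

set_option autoImplicit false

/-! Project UM5 (helper97), job VAV (helper257). -/

namespace Pool.Agent.Q257.UM.VA

open Filter Topology MeasureTheory Complex
open Pool.Agent.Q97.UM Pool.Agent.Q257.UM

noncomputable section

variable {ψ₁ k₀ : ℝ → ℝ}

theorem edge (hKB : S_KB) (hK : Ker ψ₁ k₀) {B D t c d : ℝ} (hD : 0 < D) (hcd : c ≤ d) (hB : 0 ≤ B)
    (h : ∀ y : ℝ, |Real.log ‖riemannZeta ⟨3 / 2, y⟩‖| ≤ B) :
    |∫ y in c..d, (kap ψ₁ D (((y - t : ℝ) : ℂ) * I)).re * Real.log ‖riemannZeta ⟨3 / 2, y⟩‖| ≤ B := by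
  obtain ⟨-, hint, hone, -, -⟩ := hKB ψ₁ k₀ hK
  have e0 : ∀ y : ℝ, (kap ψ₁ D (((y - t : ℝ) : ℂ) * I)).re = D * k₀ (D * (y - t)) := fun y => by
    rw [kap_im hK, ofReal_re]
  set g : ℝ → ℝ := fun x => D * k₀ (D * x) with hg
  have hgi : Integrable g := (hint.comp_mul_left' hD.ne').const_mul D
  have hgI : ∫ x : ℝ, g x = 1 := by
    rw [hg, integral_const_mul, Measure.integral_comp_mul_left k₀ D, smul_eq_mul, ← mul_assoc, abs_of_pos (inv_pos.2 hD),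
      mul_inv_cancel₀ hD.ne', one_mul, hone]
  have hg0 : ∀ x, 0 ≤ g x := fun x => mul_nonneg hD.le (hK.nonneg _)
  have h1 : Integrable fun y : ℝ => B * g (y - t) := (hgi.comp_sub_right t).const_mul B
  have h2 := intervalIntegral.norm_integral_le_of_norm_le (f := fun y => (kap ψ₁ D (((y - t : ℝ) : ℂ) * I)).re *
    Real.log ‖riemannZeta ⟨3 / 2, y⟩‖) hcd (g := fun y => B * g (y - t)) (Eventually.of_forall fun y _ => by
      rw [e0, norm_mul, Real.norm_eq_abs, Real.norm_eq_abs, abs_of_nonneg (hg0 (y - t)), mul_comm]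
      exact mul_le_mul_of_nonneg_right (h y) (hg0 (y - t))) h1.intervalIntegrable
  rw [Real.norm_eq_abs] at h2
  refine h2.trans ?_
  rw [intervalIntegral.integral_of_le hcd]
  refine (setIntegral_le_integral h1 (Eventually.of_forall fun y => mul_nonneg hB (hg0 _))).trans ?_
  rw [integral_const_mul, integral_sub_right_eq_self (μ := volume) g t, hgI, mul_one]

/-- one zero -/
theorem one_zero {C D δ L t : ℝ} (hC : 0 ≤ C) (hδ : 0 < δ) (hδ1 : δ ≤ 1) (hL : 0 < L) (hDe : D = δ * L)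
    (h : ∀ D : ℝ, 0 < D → ∀ z : ℂ, 0 ≤ z.re → ‖kap ψ₁ D z‖ ≤ C * (D * Real.exp (D * z.re) / (1 + D * ‖z‖) ^ 2))
    (s : ℂ) (hs : 1 / 2 < s.re) :
    |∫ σ in (1 / 2 : ℝ)..s.re, (kap ψ₁ D (s - (σ + t * I))).re| ≤
      C / δ ^ 2 * (Real.exp (2 * δ * (L * |s.re - 1 / 2|)) / (1 + L * |s.im - t|) ^ 2) := by
  have hD : 0 < D := by rw [hDe]; positivity
  have h1 : ∀ σ ∈ Set.uIoc (1 / 2 : ℝ) s.re, ‖(kap ψ₁ D (s - (σ + t * I))).re‖ ≤
      C * (D * Real.exp (D * (s.re - 1 / 2)) / (1 + D * |s.im - t|) ^ 2) := by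
    intro σ hσ
    rw [Set.uIoc_of_le hs.le] at hσ
    have e1 : (s - (σ + t * I)).re = s.re - σ := by simp
    have e2 : (s - (σ + t * I)).im = s.im - t := by simp
    refine (Complex.abs_re_le_norm _).trans ((h D hD _ (by rw [e1]; linarith [hσ.2])).trans ?_)
    refine mul_le_mul_of_nonneg_left ?_ hC
    have e3 : |s.im - t| ≤ ‖s - (σ + t * I)‖ := by rw [← e2]; exact Complex.abs_im_le_norm _
    rw [e1]
    have e4 : Real.exp (D * (s.re - σ)) ≤ Real.exp (D * (s.re - 1 / 2)) := by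
      refine Real.exp_le_exp.2 ?_
      have := hσ.1
      gcongr
    gcongr
  have h2 := intervalIntegral.norm_integral_le_of_norm_le_const h1
  rw [Real.norm_eq_abs, abs_of_pos (by linarith : 0 < s.re - 1 / 2)] at h2
  refine h2.trans ?_
  rw [abs_of_pos (by linarith : 0 < s.re - 1 / 2)]
  set v := D * (s.re - 1 / 2) with hv
  have hv0 : 0 < v := mul_pos hD (by linarith)
  have h3 : v * Real.exp v ≤ Real.exp (2 * v) := by
    have : v ≤ Real.exp v := by linarith [Real.add_one_le_exp v]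
    calc v * Real.exp v ≤ Real.exp v * Real.exp v := mul_le_mul_of_nonneg_right this (Real.exp_pos _).le
      _ = Real.exp (2 * v) := by rw [← Real.exp_add]; congr 1; ring
  have e5 : 2 * δ * (L * (s.re - 1 / 2)) = 2 * v := by rw [hv, hDe]; ring
  rw [e5]
  have h4 : δ * (1 + L * |s.im - t|) ≤ 1 + D * |s.im - t| := by
    rw [hDe]
    have : 0 ≤ L * |s.im - t| := by positivity
    nlinarith
  have h5 : 0 < 1 + L * |s.im - t| := by positivity
  calc C * (D * Real.exp v / (1 + D * |s.im - t|) ^ 2) * (s.re - 1 / 2) =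
        C * ((v * Real.exp v) / (1 + D * |s.im - t|) ^ 2) := by rw [hv]; ring
    _ ≤ C * (Real.exp (2 * v) / (δ * (1 + L * |s.im - t|)) ^ 2) := by gcongr
    _ = _ := by field_simp

/-- one horizontal integral -/
theorem horiz {C Cg D T t c V σ : ℝ} (hC : 0 ≤ C) (hCg : 0 ≤ Cg) (hD : 1 ≤ D) (hT : Real.exp D ≤ T) (hT9 : 9 ≤ T)
    (h : ∀ D : ℝ, 0 < D → ∀ z : ℂ, 0 ≤ z.re → ‖kap ψ₁ D z‖ ≤ C * (D * Real.exp (D * z.re) / (1 + D * ‖z‖) ^ 3))
    (hct : T / 8 ≤ |c - t|) (hV : 1 ≤ V) (hV2 : V ≤ 9 * T)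
    (hg : ∀ σ ∈ Set.Icc (-1 / 2 : ℝ) (3 / 2), riemannZeta ⟨σ, c⟩ ≠ 0 ∧
      ‖deriv riemannZeta ⟨σ, c⟩ / riemannZeta ⟨σ, c⟩‖ ≤ Cg * Real.log V ^ 2) (hσ : 1 / 2 ≤ σ) (hσ2 : σ ≤ 3 / 2) :
    ‖∫ x in σ..(3 / 2), deriv riemannZeta ⟨x, c⟩ / riemannZeta ⟨x, c⟩ * kap ψ₁ D (((x - σ : ℝ) : ℂ) + (c - t : ℝ) * I)‖ ≤
      2048 * Cg * C := by
  have hD0 : 0 < D := by linarith
  have hT0 : 0 < T := by linarith
  have hlV : Real.log V ^ 2 ≤ 4 * T ^ 2 := by
    have h1 : 0 ≤ Real.log V := Real.log_nonneg hV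
    have h2 : Real.log V ≤ 2 * Real.log T := by
      have h3 : Real.log V ≤ Real.log (T ^ 2) := Real.log_le_log (by linarith) (by nlinarith)
      rwa [Real.log_pow] at h3
    have h3 : Real.log T ≤ T := Real.log_le_self hT0.le
    nlinarith
  have h1 : ∀ x ∈ Set.uIoc σ (3 / 2), ‖deriv riemannZeta ⟨x, c⟩ / riemannZeta ⟨x, c⟩ *
      kap ψ₁ D (((x - σ : ℝ) : ℂ) + (c - t : ℝ) * I)‖ ≤ 2048 * Cg * C := by
    intro x hx
    rw [Set.uIoc_of_le hσ2] at hx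
    have h2 := (hg x ⟨by linarith [hx.1], hx.2⟩).2
    have e1 : (((x - σ : ℝ) : ℂ) + (c - t : ℝ) * I).re = x - σ := by simp
    have h3 := h D hD0 (((x - σ : ℝ) : ℂ) + (c - t : ℝ) * I) (by rw [e1]; linarith [hx.1])
    have e2 : |c - t| ≤ ‖((x - σ : ℝ) : ℂ) + (c - t : ℝ) * I‖ := by
      have := Complex.abs_im_le_norm (((x - σ : ℝ) : ℂ) + (c - t : ℝ) * I)
      simpa using this
    rw [e1] at h3
    have h4 : D * Real.exp (D * (x - σ)) / (1 + D * ‖((x - σ : ℝ) : ℂ) + (c - t : ℝ) * I‖) ^ 3 ≤ 512 / T ^ 2 := by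
      have a1 : Real.exp (D * (x - σ)) ≤ T := by
        refine le_trans (Real.exp_le_exp.2 ?_) hT
        have : x - σ ≤ 1 := by linarith [hx.2]
        nlinarith
      have a2 : D * T / 8 ≤ 1 + D * ‖((x - σ : ℝ) : ℂ) + (c - t : ℝ) * I‖ := by
        have : D * (T / 8) ≤ D * ‖((x - σ : ℝ) : ℂ) + (c - t : ℝ) * I‖ := mul_le_mul_of_nonneg_left (hct.trans e2) hD0.le
        linarith
      calc D * Real.exp (D * (x - σ)) / (1 + D * ‖((x - σ : ℝ) : ℂ) + (c - t : ℝ) * I‖) ^ 3 ≤ D * T / (D * T / 8) ^ 3 := by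
            gcongr
        _ = 512 / (D * T) ^ 2 := by field_simp; norm_num
        _ ≤ 512 / T ^ 2 := by
            have : T ≤ D * T := by nlinarith
            gcongr
    rw [norm_mul]
    calc ‖deriv riemannZeta ⟨x, c⟩ / riemannZeta ⟨x, c⟩‖ * ‖kap ψ₁ D (((x - σ : ℝ) : ℂ) + (c - t : ℝ) * I)‖ ≤
          (Cg * (4 * T ^ 2)) * (C * (512 / T ^ 2)) := by
          refine mul_le_mul (h2.trans ?_) (h3.trans ?_) (norm_nonneg _) (by positivity)
          · exact mul_le_mul_of_nonneg_left hlV hCg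
          · exact mul_le_mul_of_nonneg_left h4 hC
      _ = _ := by field_simp; ring
  have h2 := intervalIntegral.norm_integral_le_of_norm_le_const h1
  refine h2.trans ?_
  have h3 : |3 / 2 - σ| ≤ 1 := by rw [abs_le]; constructor <;> linarith
  calc 2048 * Cg * C * |3 / 2 - σ| ≤ 2048 * Cg * C * 1 := mul_le_mul_of_nonneg_left h3 (by positivity)
    _ = _ := mul_one _

open Classical in
theorem t_VAV : J_VAV := by
  intro hKB hLIT ψ₁ k₀ hK δ hδ hδ1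
  obtain ⟨Cp, hCp, hprime⟩ := prime_part hKB hK
  obtain ⟨C2, hC2, hk2⟩ := kap_bd hKB hK 2
  obtain ⟨C3, hC3, hk3⟩ := kap_bd hKB hK 3
  obtain ⟨B0, hB0, hlog⟩ := log_bd
  obtain ⟨Cg, hCg, hgood⟩ := H370.good_height H370.good_zeta
  have hpi := Real.pi_pos
  refine ⟨B0 + Cp + 2 * Real.pi * (C2 / δ ^ 2) + 4096 * Cg * C3, by positivity, ?_⟩
  filter_upwards [eventually_ge_atTop (Real.exp (1 / δ)), eventually_ge_atTop 64] with T hT1 hT2 t ht1 ht2
  have hT0 : 0 < T := by linarith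
  have hL : 1 / δ ≤ Real.log T := by rw [Real.le_log_iff_exp_le hT0]; exact hT1
  set L := Real.log T with hLdef
  have hL0 : 0 < L := lt_of_lt_of_le (by positivity) hL
  set D := δ * L with hD
  have hD1 : 1 ≤ D := by
    rw [div_le_iff₀ hδ] at hL
    rw [hD]; linarith
  have hD0 : 0 < D := by linarith
  have hDT : Real.exp D ≤ T := by
    rw [← Real.le_log_iff_exp_le hT0, hD, ← hLdef]
    nlinarith
  obtain ⟨U1, hU1, hg1⟩ := hgood (t - T / 8 - 1) (by linarith)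
  obtain ⟨U2, hU2, hg2⟩ := hgood (t + T / 8) (by linarith)
  obtain ⟨hU1a, hU1b⟩ := hU1
  obtain ⟨hU2a, hU2b⟩ := hU2
  have hU1b' : U1 ≤ t - T / 8 := by linarith
  refine ⟨U1, U2, hU1a, hU1b', hU2a, hU2b, ?_⟩
  have hU : U1 < U2 := by linarith
  set Z : Finset ℂ := (ZD T).filter (fun s => 1 / 2 < s.re ∧ U1 < s.im ∧ s.im < U2) with hZ
  have hlit := hLIT riemannZeta (kap ψ₁ D) (1 / 2) (3 / 2) U1 U2 t Z (by norm_num) hU
    (fun s hs => z_an (fun h => by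
      have h1 : U1 ≤ s.im := hs.2.1
      rw [h, one_im] at h1
      linarith))
    (kap_diff hK D)
    (fun y => by rw [kap_im hK, ofReal_im])
    (fun x hx => ⟨(hg1 x ⟨by linarith [hx.1], hx.2⟩).1, (hg2 x ⟨by linarith [hx.1], hx.2⟩).1⟩)
    (fun y _ => z_ne y)
    (fun s => by
      rw [hZ, Finset.mem_filter, mem_ZD (by linarith)]
      constructor
      · rintro ⟨⟨h1, h2, h3, h4, h5⟩, h6, h7, h8⟩
        exact ⟨h6, by linarith, h7, h8, h5⟩
      · rintro ⟨h1, h2, h3, h4, h5⟩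
        have h6 : s.re < 1 := by
          by_contra hcon
          push Not at hcon
          exact riemannZeta_ne_zero_of_one_le_re hcon h5
        exact ⟨⟨by linarith, h6, by linarith, by linarith, h5⟩, h1, h3, h4⟩)
  have e0 : (∫ u in U1..U2, D * k₀ (D * (u - t)) * Real.log ‖zt u‖) =
      ∫ y in U1..U2, (kap ψ₁ D (((y - t : ℝ) : ℂ) * I)).re * Real.log ‖riemannZeta ⟨1 / 2, y⟩‖ := by
    refine intervalIntegral.integral_congr fun y _ => ?_
    rw [kap_im hK, ofReal_re]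
    have : zt y = riemannZeta ⟨1 / 2, y⟩ := by
      unfold zt
      congr 1
      apply Complex.ext <;> simp
    rw [this]
  rw [e0, hlit.2]
  have t1 := edge (t := t) hKB hK hD0 hU.le hB0 hlog
  have t2 := hprime D T t U1 U2 hD1 hDT hU1b' hU2a
  have t3 : |∑ s ∈ Z, (H370.mult riemannZeta s : ℝ) * ∫ σ in (1 / 2 : ℝ)..s.re, (kap ψ₁ D (s - (σ + t * I))).re| ≤
      C2 / δ ^ 2 * SS δ T t := by
    refine (Finset.abs_sum_le_sum_abs _ _).trans ?_
    unfold SS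
    rw [Finset.mul_sum]
    refine le_trans (Finset.sum_le_sum (g := fun s => C2 / δ ^ 2 * ((mz s : ℝ) * (Real.exp (2 * δ * (Real.log T * |s.re - 1 / 2|)) /
      (1 + Real.log T * |s.im - t|) ^ 2))) fun s hs => ?_) (Finset.sum_le_sum_of_subset_of_nonneg (Finset.filter_subset _ _)
        fun s _ _ => ?_)
    · rw [abs_mul, Nat.abs_cast]
      have h1 := one_zero (L := L) (t := t) hC2 hδ (by linarith) hL0 hD hk2 s (Finset.mem_filter.1 hs).2.1
      calc (H370.mult riemannZeta s : ℝ) * |∫ σ in (1 / 2 : ℝ)..s.re, (kap ψ₁ D (s - (σ + t * I))).re| ≤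
            (mz s : ℝ) * (C2 / δ ^ 2 * (Real.exp (2 * δ * (L * |s.re - 1 / 2|)) / (1 + L * |s.im - t|) ^ 2)) :=
            mul_le_mul_of_nonneg_left h1 (Nat.cast_nonneg _)
        _ = _ := by rw [hLdef]; ring
    · positivity
  have t4 : |∫ σ in (1 / 2 : ℝ)..(3 / 2), ((∫ x in σ..(3 / 2), deriv riemannZeta ⟨x, U1⟩ / riemannZeta ⟨x, U1⟩ *
      kap ψ₁ D (((x - σ : ℝ) : ℂ) + (U1 - t : ℝ) * I)) - (∫ x in σ..(3 / 2), deriv riemannZeta ⟨x, U2⟩ / riemannZeta ⟨x, U2⟩ *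
      kap ψ₁ D (((x - σ : ℝ) : ℂ) + (U2 - t : ℝ) * I))).im| ≤ 4096 * Cg * C3 := by
    have h1 := intervalIntegral.norm_integral_le_of_norm_le_const (a := 1 / 2) (b := 3 / 2)
      (f := fun σ => ((∫ x in σ..(3 / 2), deriv riemannZeta ⟨x, U1⟩ / riemannZeta ⟨x, U1⟩ *
        kap ψ₁ D (((x - σ : ℝ) : ℂ) + (U1 - t : ℝ) * I)) - (∫ x in σ..(3 / 2), deriv riemannZeta ⟨x, U2⟩ / riemannZeta ⟨x, U2⟩ *
        kap ψ₁ D (((x - σ : ℝ) : ℂ) + (U2 - t : ℝ) * I))).im) (C := 4096 * Cg * C3) (fun σ hσ => ?_)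
    · rw [Real.norm_eq_abs] at h1
      refine h1.trans (le_of_eq ?_)
      norm_num
    · rw [Set.uIoc_of_le (by norm_num)] at hσ
      have a1 := horiz (ψ₁ := ψ₁) (t := t) hC3 hCg.le hD1 hDT (by linarith) hk3 (c := U1) (V := t - T / 8 - 1)
        (by rw [abs_sub_comm, abs_of_pos (by linarith)]; linarith) (by linarith) (by linarith) hg1 hσ.1.le hσ.2
      have a2 := horiz (ψ₁ := ψ₁) (t := t) hC3 hCg.le hD1 hDT (by linarith) hk3 (c := U2) (V := t + T / 8)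
        (by rw [abs_of_pos (by linarith)]; linarith) (by linarith) (by linarith) hg2 hσ.1.le hσ.2
      refine (Complex.abs_im_le_norm _).trans ((norm_sub_le _ _).trans ?_)
      linarith
  have hSS := SS_nonneg δ T t
  set A1 := ∫ y in U1..U2, (kap ψ₁ D (((y - t : ℝ) : ℂ) * I)).re * Real.log ‖riemannZeta ⟨3 / 2, y⟩‖ with hA1
  set A2 := ∫ σ in (1 / 2 : ℝ)..(3 / 2), (∫ y in U1..U2, deriv riemannZeta ⟨3 / 2, y⟩ / riemannZeta ⟨3 / 2, y⟩ *
      kap ψ₁ D (((3 / 2 - σ : ℝ) : ℂ) + (y - t : ℝ) * I)).re with hA2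
  set A3 := ∑ s ∈ Z, (H370.mult riemannZeta s : ℝ) * ∫ σ in (1 / 2 : ℝ)..s.re, (kap ψ₁ D (s - (σ + t * I))).re with hA3
  set A4 := ∫ σ in (1 / 2 : ℝ)..(3 / 2), ((∫ x in σ..(3 / 2), deriv riemannZeta ⟨x, U1⟩ / riemannZeta ⟨x, U1⟩ *
      kap ψ₁ D (((x - σ : ℝ) : ℂ) + (U1 - t : ℝ) * I)) - (∫ x in σ..(3 / 2), deriv riemannZeta ⟨x, U2⟩ / riemannZeta ⟨x, U2⟩ *
      kap ψ₁ D (((x - σ : ℝ) : ℂ) + (U2 - t : ℝ) * I))).im with hA4
  have e1 : A1 - A2 + 2 * Real.pi * A3 - A4 - PP ψ₁ D t = A1 + (-A2 - PP ψ₁ D t) + 2 * Real.pi * A3 + -A4 := by ring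
  rw [e1]
  have h3 : |2 * Real.pi * A3| ≤ 2 * Real.pi * (C2 / δ ^ 2 * SS δ T t) := by
    rw [abs_mul, abs_of_pos (by positivity : 0 < 2 * Real.pi)]
    exact mul_le_mul_of_nonneg_left t3 (by positivity)
  have h4 : |A1 + (-A2 - PP ψ₁ D t) + 2 * Real.pi * A3 + -A4| ≤ |A1| + |-A2 - PP ψ₁ D t| + |2 * Real.pi * A3| + |A4| := by
    rw [← abs_neg A4]
    exact (abs_add_le _ _).trans (add_le_add ((abs_add_le _ _).trans (add_le_add (abs_add_le _ _) le_rfl)) le_rfl)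
  refine h4.trans ?_
  have h5 : |A1| + |-A2 - PP ψ₁ D t| + |2 * Real.pi * A3| + |A4| ≤
      B0 + Cp + 2 * Real.pi * (C2 / δ ^ 2 * SS δ T t) + 4096 * Cg * C3 := by linarith
  refine h5.trans ?_
  have p1 : 0 ≤ 2 * Real.pi * (C2 / δ ^ 2) := by positivity
  have p2 : 0 ≤ 4096 * Cg * C3 * SS δ T t := by positivity
  have p3 : 0 ≤ (B0 + Cp) * SS δ T t := by positivity
  nlinarith

end

end Pool.Agent.Q257.UM.VA
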