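import Pool.Agent.Q257.UM.Cm
import Pool.Agent.W182.KO.PT

set_option autoImplicit false

/-! Project UM5 (helper97), job VAV (helper257): the kernel and the prime sum. -/

namespace Pool.Agent.Q257.UM.VA

open Filter Topology MeasureTheory Complex
open Pool.Agent.Q97.UM
open Pool.Agent.W182.KO (P TF P_diff P_inv one_add_inv_sq_int)
open scoped ContDiff

noncomputable section

variable {ψ₁ k₀ : ℝ → ℝ}

theorem tf (hK : Ker ψ₁ k₀) : TF 1 (fun u => (ψ₁ u : ℂ)) where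
  cd := Complex.ofRealCLM.contDiff.comp hK.smooth
  cs := HasCompactSupport.intro (isCompact_Icc (a := (-1 : ℝ)) (b := 1)) fun x hx => by
    have : 1 ≤ |x| := by
      by_contra h
      push Not at h
      exact hx (Set.Ioo_subset_Icc_self (abs_lt.1 h))
    rw [hK.supp x this, ofReal_zero]
  sp := fun ξ hξ => by
    rw [hK.supp ξ (by rw [abs_of_pos (by linarith)]; linarith), ofReal_zero]

/-- the analytic kernel -/
def kap (ψ₁ : ℝ → ℝ) (D : ℝ) (z : ℂ) : ℂ := ((D / (2 * Real.pi) : ℝ) : ℂ) * P (fun u => (ψ₁ u : ℂ)) (D * z)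

theorem kap_diff (hK : Ker ψ₁ k₀) (D : ℝ) : Differentiable ℂ (kap ψ₁ D) := by
  unfold kap
  exact ((P_diff (tf hK)).comp (differentiable_id.const_mul _)).const_mul _

theorem kap_im (hK : Ker ψ₁ k₀) (D y : ℝ) : kap ψ₁ D ((y : ℂ) * I) = ((D * k₀ (D * y) : ℝ) : ℂ) := by
  unfold kap
  have h := hK.rep (D * y)
  have e : (D : ℂ) * ((y : ℂ) * I) = ((D * y : ℝ) : ℂ) * I := by push_cast; ring
  rw [e, ofReal_mul D (k₀ (D * y)), h]
  push_cast
  ring

theorem kap_bd (hKB : S_KB) (hK : Ker ψ₁ k₀) (m : ℕ) : ∃ C : ℝ, 0 ≤ C ∧ ∀ D : ℝ, 0 < D → ∀ z : ℂ, 0 ≤ z.re →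
    ‖kap ψ₁ D z‖ ≤ C * (D * Real.exp (D * z.re) / (1 + D * ‖z‖) ^ m) := by
  obtain ⟨-, -, -, -, h⟩ := hKB ψ₁ k₀ hK
  obtain ⟨C, hC, -, h2⟩ := h m
  refine ⟨C, hC, fun D hD z hz => ?_⟩
  unfold kap
  have e1 : ((D : ℂ) * z).re = D * z.re := by simp
  have e2 : ‖(D : ℂ) * z‖ = D * ‖z‖ := by rw [norm_mul, norm_real, Real.norm_of_nonneg hD.le]
  have h3 := h2 ((D : ℂ) * z) (by rw [e1]; positivity)
  rw [e1, e2] at h3
  rw [norm_mul, norm_real, Real.norm_of_nonneg (by positivity)]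
  have h4 : D / (2 * Real.pi) ≤ D := by
    rw [div_le_iff₀ (by positivity)]
    have := Real.pi_gt_three
    nlinarith
  calc D / (2 * Real.pi) * ‖P (fun u => (ψ₁ u : ℂ)) ((D : ℂ) * z)‖ ≤
        D * (C * Real.exp (D * z.re) / (1 + D * ‖z‖) ^ m) := mul_le_mul h4 h3 (norm_nonneg _) hD.le
    _ = _ := by ring

theorem natpow (n : ℕ) (hn : n ≠ 0) (w : ℂ) : (n : ℂ) ^ w = cexp ((Real.log n : ℂ) * w) := by
  rw [cpow_def_of_ne_zero (by exact_mod_cast hn), ← natCast_log]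

theorem kap_inv (hK : Ker ψ₁ k₀) {D r : ℝ} (hD : 0 < D) (hr : 0 ≤ r) (n : ℕ) (hn : n ≠ 0) :
    ∫ v : ℝ, (n : ℂ) ^ (-((v : ℂ) * I)) * kap ψ₁ D ((r : ℂ) + v * I) =
      ((ψ₁ (Real.log n / D) : ℝ) : ℂ) * ((Real.exp (r * Real.log n) : ℝ) : ℂ) := by
  have h := P_inv (tf hK) (σ := D * r) (L := D) (by positivity) hD (Real.log n / D)
  have hD0 : (D : ℂ) ≠ 0 := by exact_mod_cast hD.ne'
  have hpi : (Real.pi : ℂ) ≠ 0 := by exact_mod_cast Real.pi_pos.ne'
  have e1 : (fun v : ℝ => (n : ℂ) ^ (-((v : ℂ) * I)) * kap ψ₁ D ((r : ℂ) + v * I)) = fun v : ℝ =>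
      ((D / (2 * Real.pi) : ℝ) : ℂ) * (P (fun u => (ψ₁ u : ℂ)) (((D * r : ℝ) : ℂ) + D * v * I) *
        cexp (-(((Real.log n / D : ℝ) : ℂ) * D * v) * I)) := by
    funext v
    rw [natpow n hn]
    unfold kap
    have a1 : (D : ℂ) * ((r : ℂ) + v * I) = ((D * r : ℝ) : ℂ) + D * v * I := by push_cast; ring
    have a2 : (Real.log n : ℂ) * -((v : ℂ) * I) = -(((Real.log n / D : ℝ) : ℂ) * D * v) * I := by
      push_cast
      field_simp
    rw [a1, a2]
    ring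
  rw [e1, integral_const_mul, h]
  have e2 : cexp (((Real.log n / D : ℝ) : ℂ) * ((D * r : ℝ) : ℂ)) = ((Real.exp (r * Real.log n) : ℝ) : ℂ) := by
    rw [ofReal_exp]
    congr 1
    push_cast
    field_simp
  rw [e2]
  push_cast
  field_simp

/-- the integral of the majorant -/
def I2 : ℝ := ∫ y : ℝ, ((1 + |y|) ^ 2)⁻¹

theorem I2_nonneg : 0 ≤ I2 := integral_nonneg fun y => by positivity

theorem kint {D : ℝ} (hD : 0 < D) (t : ℝ) : Integrable (fun y : ℝ => D / (1 + D * |y - t|) ^ 2) ∧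
    ∫ y : ℝ, D / (1 + D * |y - t|) ^ 2 = I2 := by
  set f : ℝ → ℝ := fun z => ((1 + |z|) ^ 2)⁻¹ with hf
  set g : ℝ → ℝ := fun x => D * f (D * x) with hg
  have e : (fun y : ℝ => D / (1 + D * |y - t|) ^ 2) = fun y : ℝ => g (y - t) := by
    funext y
    simp only [hg, hf]
    rw [abs_mul, abs_of_pos hD, div_eq_mul_inv]
  have hgi : Integrable g volume := (one_add_inv_sq_int.comp_mul_left' hD.ne').const_mul D
  rw [e]
  constructor
  · exact hgi.comp_sub_right t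
  · rw [integral_sub_right_eq_self (μ := volume) g t, hg, integral_const_mul,
      Measure.integral_comp_mul_left f D, smul_eq_mul, ← mul_assoc, abs_of_pos (inv_pos.2 hD), mul_inv_cancel₀ hD.ne', one_mul]
    rfl

/-- the terms of the Dirichlet series -/
def gt (y : ℝ) (n : ℕ) : ℂ := LSeries.term (fun n => (ArithmeticFunction.vonMangoldt n : ℂ)) ⟨3 / 2, y⟩ n

/-- the sum of the absolute values -/
def B1 : ℝ := ∑' n : ℕ, ‖gt 0 n‖

theorem gt_norm (y : ℝ) (n : ℕ) : ‖gt y n‖ = ‖gt 0 n‖ := by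
  unfold gt
  rw [LSeries.norm_term_eq, LSeries.norm_term_eq]

theorem gt_sum (y : ℝ) : Summable fun n => gt y n :=
  ArithmeticFunction.LSeriesSummable_vonMangoldt (s := ⟨3 / 2, y⟩) (by simp only; norm_num)

theorem gt_sumn : Summable fun n => ‖gt 0 n‖ := (gt_sum 0).norm

theorem B1_nonneg : 0 ≤ B1 := tsum_nonneg fun _ => norm_nonneg _

/-- the logarithmic derivative on the line `3/2` -/
def Gz (y : ℝ) : ℂ := deriv riemannZeta ⟨3 / 2, y⟩ / riemannZeta ⟨3 / 2, y⟩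

theorem Gz_eq (y : ℝ) : Gz y = -∑' n : ℕ, gt y n := by
  have h := ArithmeticFunction.LSeries_vonMangoldt_eq_deriv_riemannZeta_div (s := ⟨3 / 2, y⟩) (by simp only; norm_num)
  unfold Gz gt
  unfold LSeries at h
  rw [h, neg_div, neg_neg]

theorem Gz_norm (y : ℝ) : ‖Gz y‖ ≤ B1 := by
  rw [Gz_eq, norm_neg]
  have h : Summable fun n => ‖gt y n‖ := (gt_sum y).norm
  refine (norm_tsum_le_tsum_norm h).trans (le_of_eq ?_)
  unfold B1
  exact tsum_congr fun n => gt_norm y n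

theorem mk_cont : Continuous fun y : ℝ => (⟨3 / 2, y⟩ : ℂ) := by
  have : (fun y : ℝ => (⟨3 / 2, y⟩ : ℂ)) = fun y : ℝ => (3 / 2 : ℂ) + y * I := by
    funext y
    apply Complex.ext <;> simp
  rw [this]
  fun_prop

theorem ne_one (y : ℝ) : (⟨3 / 2, y⟩ : ℂ) ≠ 1 := fun h => by
  have := congrArg Complex.re h
  norm_num at this

theorem z_ne (y : ℝ) : riemannZeta ⟨3 / 2, y⟩ ≠ 0 :=
  riemannZeta_ne_zero_of_one_lt_re (by simp only; norm_num)

theorem z_an {s : ℂ} (hs : s ≠ 1) : AnalyticAt ℂ riemannZeta s := by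
  refine DifferentiableOn.analyticAt (s := {1}ᶜ) (fun z hz => (differentiableAt_riemannZeta hz).differentiableWithinAt) ?_
  exact isOpen_compl_singleton.mem_nhds hs

theorem Gz_cont : Continuous Gz := by
  unfold Gz
  refine Continuous.div ?_ ?_ z_ne
  · rw [continuous_iff_continuousAt]
    intro y
    exact (z_an (ne_one y)).deriv.continuousAt.comp (f := fun y : ℝ => (⟨3 / 2, y⟩ : ℂ)) mk_cont.continuousAt
  · rw [continuous_iff_continuousAt]
    intro y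
    exact (z_an (ne_one y)).continuousAt.comp (f := fun y : ℝ => (⟨3 / 2, y⟩ : ℂ)) mk_cont.continuousAt

/-- `log |ζ(3/2 + iy)|` is bounded -/
theorem log_bd : ∃ B : ℝ, 0 ≤ B ∧ ∀ y : ℝ, |Real.log ‖riemannZeta ⟨3 / 2, y⟩‖| ≤ B := by
  have hs : ∀ y : ℝ, 1 < (⟨3 / 2, y⟩ : ℂ).re := fun y => by simp only; norm_num
  set K : ℝ := ∑' n : ℕ, ‖LSeries.term 1 ⟨3 / 2, 0⟩ n‖ with hK
  set M : ℝ := ∑' n : ℕ, ‖LSeries.term (fun n => ((ArithmeticFunction.moebius n : ℤ) : ℂ)) ⟨3 / 2, 0⟩ n‖ with hM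
  have h1 : ∀ y : ℝ, ‖riemannZeta ⟨3 / 2, y⟩‖ ≤ K := by
    intro y
    rw [← LSeries_one_eq_riemannZeta (hs y)]
    have h2 : Summable fun n => ‖LSeries.term 1 ⟨3 / 2, y⟩ n‖ := (LSeriesSummable_one_iff.mpr (hs y)).norm
    unfold LSeries
    refine (norm_tsum_le_tsum_norm h2).trans (le_of_eq ?_)
    rw [hK]
    refine tsum_congr fun n => ?_
    rw [LSeries.norm_term_eq, LSeries.norm_term_eq]
  have h2 : ∀ y : ℝ, ‖riemannZeta ⟨3 / 2, y⟩‖⁻¹ ≤ M := by
    intro y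
    have h3 := LSeries_one_mul_Lseries_moebius (hs y)
    rw [LSeries_one_eq_riemannZeta (hs y)] at h3
    have h4 : ‖riemannZeta ⟨3 / 2, y⟩‖⁻¹ = ‖LSeries (fun n => ((ArithmeticFunction.moebius n : ℤ) : ℂ)) ⟨3 / 2, y⟩‖ := by
      rw [← norm_inv, inv_eq_of_mul_eq_one_right h3]
    rw [h4]
    have h5 : Summable fun n => ‖LSeries.term (fun n => ((ArithmeticFunction.moebius n : ℤ) : ℂ)) ⟨3 / 2, y⟩ n‖ :=
      (ArithmeticFunction.LSeriesSummable_moebius_iff.mpr (hs y)).norm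
    unfold LSeries
    refine (norm_tsum_le_tsum_norm h5).trans (le_of_eq ?_)
    rw [hM]
    refine tsum_congr fun n => ?_
    rw [LSeries.norm_term_eq, LSeries.norm_term_eq]
  refine ⟨|Real.log K| + |Real.log M|, by positivity, fun y => ?_⟩
  have h3 : 0 < ‖riemannZeta ⟨3 / 2, y⟩‖ := norm_pos_iff.2 (z_ne y)
  have h4 : Real.log ‖riemannZeta ⟨3 / 2, y⟩‖ ≤ Real.log K := Real.log_le_log h3 (h1 y)
  have h5 : -Real.log ‖riemannZeta ⟨3 / 2, y⟩‖ ≤ Real.log M := by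
    rw [← Real.log_inv]
    exact Real.log_le_log (by positivity) (h2 y)
  rw [abs_le]
  have := le_abs_self (Real.log K)
  have := le_abs_self (Real.log M)
  have := abs_nonneg (Real.log K)
  have := abs_nonneg (Real.log M)
  constructor <;> linarith

end

end Pool.Agent.Q257.UM.VA
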