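import Pool.Agent.Q257.UM.VAVa

set_option autoImplicit false

/-! Project UM5 (helper97), job VAV (helper257): the prime part. -/

namespace Pool.Agent.Q257.UM.VA

open Filter Topology MeasureTheory Complex
open Pool.Agent.Q97.UM

noncomputable section

variable {ψ₁ k₀ : ℝ → ℝ}

/-- the prime sum with frequency `r` -/
def SP (ψ₁ : ℝ → ℝ) (D t r : ℝ) : ℂ := ∑ n ∈ Finset.Icc 2 ⌊Real.exp D⌋₊,
  ((ArithmeticFunction.vonMangoldt n * ψ₁ (Real.log n / D) : ℝ) : ℂ) * (n : ℂ) ^ (-(3 / 2 + t * I)) *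
    ((Real.exp (r * Real.log n) : ℝ) : ℂ)

theorem gt_eq (y t : ℝ) {n : ℕ} (hn : n ≠ 0) : gt y n = (ArithmeticFunction.vonMangoldt n : ℂ) * (n : ℂ) ^ (-(3 / 2 + t * I)) *
    (n : ℂ) ^ (-(((y - t : ℝ) : ℂ) * I)) := by
  unfold gt
  rw [LSeries.term_of_ne_zero hn, div_eq_mul_inv, ← cpow_neg, mul_assoc, ← cpow_add _ _ (by exact_mod_cast hn)]
  congr 2
  apply Complex.ext
  · simp
  · simp only [neg_im, add_im, mul_im, I_re, I_im, ofReal_re, ofReal_im, mul_zero, mul_one, add_zero]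
    norm_num
    ring

theorem gt_cont (n : ℕ) : Continuous fun y => gt y n := by
  by_cases hn : n = 0
  · subst hn
    unfold gt
    simp only [LSeries.term_zero]
    exact continuous_const
  · have : (fun y => gt y n) = fun y : ℝ => (ArithmeticFunction.vonMangoldt n : ℂ) * (n : ℂ) ^ (-(3 / 2 + ((0 : ℝ) : ℂ) * I)) *
        cexp ((Real.log n : ℂ) * (-(((y - 0 : ℝ) : ℂ) * I))) := by
      funext y
      rw [gt_eq y 0 hn, natpow n hn (-(((y - 0 : ℝ) : ℂ) * I))]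
    rw [this]
    fun_prop

theorem kap_cont (hK : Ker ψ₁ k₀) (D t : ℝ) : Continuous fun p : ℝ × ℝ => kap ψ₁ D ((p.1 : ℂ) + ((p.2 - t : ℝ) : ℂ) * I) :=
  (kap_diff hK D).continuous.comp (by fun_prop)

theorem kap_int (hKB : S_KB) (hK : Ker ψ₁ k₀) {D r : ℝ} (hD : 0 < D) (hr : 0 ≤ r) (t : ℝ) :
    Integrable fun y : ℝ => kap ψ₁ D ((r : ℂ) + ((y - t : ℝ) : ℂ) * I) := by
  obtain ⟨C, hC, h⟩ := kap_bd hKB hK 2
  have h1 := ((kint hD t).1.const_mul (C * Real.exp (D * r)))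
  refine h1.mono' ?_ (Eventually.of_forall fun y => ?_)
  · exact ((kap_cont hK D t).comp (Continuous.prodMk continuous_const continuous_id)).aestronglyMeasurable
  · have h2 := h D hD ((r : ℂ) + ((y - t : ℝ) : ℂ) * I) (by simpa using hr)
    have e1 : ((r : ℂ) + ((y - t : ℝ) : ℂ) * I).re = r := by simp
    have e2 : |y - t| ≤ ‖(r : ℂ) + ((y - t : ℝ) : ℂ) * I‖ := by
      have := Complex.abs_im_le_norm ((r : ℂ) + ((y - t : ℝ) : ℂ) * I)
      simpa using this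
    rw [e1] at h2
    refine h2.trans ?_
    have h3 : D * Real.exp (D * r) / (1 + D * ‖(r : ℂ) + ((y - t : ℝ) : ℂ) * I‖) ^ 2 ≤
        D * Real.exp (D * r) / (1 + D * |y - t|) ^ 2 := by gcongr
    calc C * (D * Real.exp (D * r) / (1 + D * ‖(r : ℂ) + ((y - t : ℝ) : ℂ) * I‖) ^ 2) ≤
          C * (D * Real.exp (D * r) / (1 + D * |y - t|) ^ 2) := mul_le_mul_of_nonneg_left h3 hC
      _ = _ := by ring

theorem term_int (hK : Ker ψ₁ k₀) {D r : ℝ} (hD : 0 < D) (hr : 0 ≤ r) (t : ℝ) {n : ℕ} (hn : n ≠ 0) :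
    ∫ y : ℝ, gt y n * kap ψ₁ D ((r : ℂ) + ((y - t : ℝ) : ℂ) * I) =
      ((ArithmeticFunction.vonMangoldt n * ψ₁ (Real.log n / D) : ℝ) : ℂ) * (n : ℂ) ^ (-(3 / 2 + t * I)) *
        ((Real.exp (r * Real.log n) : ℝ) : ℂ) := by
  set g : ℝ → ℂ := fun v => (ArithmeticFunction.vonMangoldt n : ℂ) * (n : ℂ) ^ (-(3 / 2 + t * I)) *
    ((n : ℂ) ^ (-((v : ℂ) * I)) * kap ψ₁ D ((r : ℂ) + v * I)) with hg
  have e : (fun y : ℝ => gt y n * kap ψ₁ D ((r : ℂ) + ((y - t : ℝ) : ℂ) * I)) = fun y => g (y - t) := by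
    funext y
    simp only [hg]
    rw [gt_eq y t hn]
    ring
  rw [e, integral_sub_right_eq_self (μ := volume) g t, hg, integral_const_mul, kap_inv hK hD hr n hn]
  push_cast
  ring

theorem J_eq (hKB : S_KB) (hK : Ker ψ₁ k₀) {D r : ℝ} (hD : 0 < D) (hr : 0 ≤ r) (t : ℝ) :
    ∫ y : ℝ, Gz y * kap ψ₁ D ((r : ℂ) + ((y - t : ℝ) : ℂ) * I) = -SP ψ₁ D t r := by
  have hki := kap_int hKB hK hD hr t
  have hi : ∀ n : ℕ, Integrable fun y : ℝ => gt y n * kap ψ₁ D ((r : ℂ) + ((y - t : ℝ) : ℂ) * I) := by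
    intro n
    refine (hki.norm.const_mul ‖gt 0 n‖).mono' ((gt_cont n).aestronglyMeasurable.mul hki.aestronglyMeasurable)
      (Eventually.of_forall fun y => ?_)
    rw [norm_mul, gt_norm]
  have hn : ∀ n : ℕ, ∫ y : ℝ, ‖gt y n * kap ψ₁ D ((r : ℂ) + ((y - t : ℝ) : ℂ) * I)‖ =
      ‖gt 0 n‖ * ∫ y : ℝ, ‖kap ψ₁ D ((r : ℂ) + ((y - t : ℝ) : ℂ) * I)‖ := by
    intro n
    rw [← integral_const_mul]
    refine integral_congr_ae (Eventually.of_forall fun y => ?_)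
    simp only
    rw [norm_mul, gt_norm]
  have h1 := integral_tsum_of_summable_integral_norm hi (by
    simp_rw [hn]
    exact gt_sumn.mul_right _)
  have e1 : ∀ y : ℝ, Gz y * kap ψ₁ D ((r : ℂ) + ((y - t : ℝ) : ℂ) * I) =
      -∑' n : ℕ, gt y n * kap ψ₁ D ((r : ℂ) + ((y - t : ℝ) : ℂ) * I) := by
    intro y
    rw [Gz_eq, tsum_mul_right, neg_mul]
  simp_rw [e1]
  rw [integral_neg, ← h1]
  congr 1
  unfold SP
  rw [tsum_eq_sum (s := Finset.Icc 2 ⌊Real.exp D⌋₊)]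
  · refine Finset.sum_congr rfl fun n hn => ?_
    rw [Finset.mem_Icc] at hn
    exact term_int hK hD hr t (by omega)
  · intro n hn
    by_cases h0 : n = 0
    · subst h0
      unfold gt
      simp
    rw [term_int hK hD hr t h0]
    by_cases h1 : n = 1
    · subst h1
      simp
    · have h2 : ⌊Real.exp D⌋₊ < n := by
        by_contra h3
        exact hn (Finset.mem_Icc.2 ⟨by omega, by omega⟩)
      have h3 : Real.exp D < n := (Nat.floor_lt (Real.exp_pos _).le).1 h2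
      have h4 : D < Real.log n := by
        rw [Real.lt_log_iff_exp_lt (by positivity)]
        exact h3
      have h5 : 1 ≤ |Real.log n / D| := by
        rw [abs_of_pos (div_pos (by linarith) hD), one_le_div hD]
        exact h4.le
      rw [hK.supp _ h5]
      simp

theorem far (hKB : S_KB) (hK : Ker ψ₁ k₀) : ∃ C : ℝ, 0 ≤ C ∧ ∀ D T t c d r : ℝ, 1 ≤ D → Real.exp D ≤ T →
    c ≤ t - T / 8 → t + T / 8 ≤ d → 0 ≤ r → r ≤ 1 →
    ‖(∫ y in c..d, Gz y * kap ψ₁ D ((r : ℂ) + ((y - t : ℝ) : ℂ) * I)) + SP ψ₁ D t r‖ ≤ C := by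
  obtain ⟨C, hC, h⟩ := kap_bd hKB hK 3
  have hB := B1_nonneg
  have hI := I2_nonneg
  refine ⟨B1 * (8 * C) * I2, by positivity, fun D T t c d r hD hT hc hd hr hr1 => ?_⟩
  have hD0 : 0 < D := by linarith
  have hT0 : 0 < T := (Real.exp_pos D).trans_le hT
  have hki := kap_int hKB hK hD0 hr t
  set f : ℝ → ℂ := fun y => Gz y * kap ψ₁ D ((r : ℂ) + ((y - t : ℝ) : ℂ) * I) with hf
  have hfi : Integrable f := by
    refine (hki.norm.const_mul B1).mono' (Gz_cont.aestronglyMeasurable.mul hki.aestronglyMeasurable)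
      (Eventually.of_forall fun y => ?_)
    rw [norm_mul]
    exact mul_le_mul_of_nonneg_right (Gz_norm y) (norm_nonneg _)
  have hcd : c ≤ d := by linarith
  have e1 := integral_add_compl (measurableSet_Ioc (a := c) (b := d)) hfi
  have e2 := J_eq hKB hK hD0 hr t
  have e3 : (∫ y in c..d, f y) + SP ψ₁ D t r = -∫ y in (Set.Ioc c d)ᶜ, f y := by
    rw [intervalIntegral.integral_of_le hcd]
    have : SP ψ₁ D t r = -∫ y : ℝ, f y := by rw [hf, e2, neg_neg]
    rw [this, ← e1]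
    ring
  rw [e3, norm_neg]
  obtain ⟨k1, k2⟩ := kint hD0 t
  have hg : Integrable fun y : ℝ => B1 * (8 * C) * (D / (1 + D * |y - t|) ^ 2) := k1.const_mul _
  have h5 : ‖∫ y in (Set.Ioc c d)ᶜ, f y‖ ≤ ∫ y in (Set.Ioc c d)ᶜ, B1 * (8 * C) * (D / (1 + D * |y - t|) ^ 2) := by
    refine norm_integral_le_of_norm_le hg.integrableOn ?_
    refine (ae_restrict_iff' measurableSet_Ioc.compl).2 (Eventually.of_forall fun y hy => ?_)
    have hy2 : T / 8 ≤ |y - t| := by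
      rw [le_abs]
      by_contra hcon
      push Not at hcon
      exact hy ⟨by linarith [hcon.2], by linarith [hcon.1]⟩
    simp only [hf]
    rw [norm_mul]
    have h6 := h D hD0 ((r : ℂ) + ((y - t : ℝ) : ℂ) * I) (by simpa using hr)
    have e4 : ((r : ℂ) + ((y - t : ℝ) : ℂ) * I).re = r := by simp
    have e5 : |y - t| ≤ ‖(r : ℂ) + ((y - t : ℝ) : ℂ) * I‖ := by
      have := Complex.abs_im_le_norm ((r : ℂ) + ((y - t : ℝ) : ℂ) * I)
      simpa using this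
    rw [e4] at h6
    have h7 : D * Real.exp (D * r) / (1 + D * ‖(r : ℂ) + ((y - t : ℝ) : ℂ) * I‖) ^ 3 ≤ 8 * (D / (1 + D * |y - t|) ^ 2) := by
      have a1 : Real.exp (D * r) ≤ T := by
        refine le_trans (Real.exp_le_exp.2 ?_) hT
        nlinarith
      have a2 : T ≤ 8 * (1 + D * |y - t|) := by nlinarith [abs_nonneg (y - t)]
      have a3 : (1 + D * |y - t|) ^ 3 ≤ (1 + D * ‖(r : ℂ) + ((y - t : ℝ) : ℂ) * I‖) ^ 3 := by gcongr
      have a4 : 0 < 1 + D * |y - t| := by positivity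
      calc D * Real.exp (D * r) / (1 + D * ‖(r : ℂ) + ((y - t : ℝ) : ℂ) * I‖) ^ 3 ≤
            D * (8 * (1 + D * |y - t|)) / (1 + D * |y - t|) ^ 3 := by
            refine div_le_div₀ (by positivity) ?_ (by positivity) a3
            exact mul_le_mul_of_nonneg_left (a1.trans a2) hD0.le
        _ = 8 * (D / (1 + D * |y - t|) ^ 2) := by field_simp
    calc ‖Gz y‖ * ‖kap ψ₁ D ((r : ℂ) + ((y - t : ℝ) : ℂ) * I)‖ ≤ B1 * (C * (8 * (D / (1 + D * |y - t|) ^ 2))) := by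
          refine mul_le_mul (Gz_norm y) (h6.trans ?_) (norm_nonneg _) hB
          exact mul_le_mul_of_nonneg_left h7 hC
      _ = _ := by ring
  refine h5.trans ?_
  refine (setIntegral_le_integral hg (Eventually.of_forall fun y => by positivity)).trans ?_
  rw [integral_const_mul, k2]

theorem int_exp_r {x : ℝ} (hx : x ≠ 0) : ∫ r in (0 : ℝ)..1, Real.exp (r * x) = (Real.exp x - 1) / x := by
  have h : ∀ r ∈ Set.uIcc (0 : ℝ) 1, HasDerivAt (fun r : ℝ => Real.exp (r * x) / x) (Real.exp (r * x)) r := by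
    intro r _
    have h1 : HasDerivAt (fun r : ℝ => r * x) x r := by simpa using (hasDerivAt_id r).mul_const x
    have h2 := h1.exp.div_const x
    have e : Real.exp (r * x) * x / x = Real.exp (r * x) := by field_simp
    rwa [e] at h2
  rw [intervalIntegral.integral_eq_sub_of_hasDerivAt h ((by fun_prop : Continuous fun r : ℝ =>
    Real.exp (r * x)).intervalIntegrable _ _)]
  simp only [one_mul, zero_mul, Real.exp_zero]
  ring

theorem SP_cont (ψ₁ : ℝ → ℝ) (D t : ℝ) : Continuous (SP ψ₁ D t) := by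
  unfold SP
  refine continuous_finsetSum _ fun n _ => continuous_const.mul ?_
  exact continuous_ofReal.comp (by fun_prop)

theorem SP_int (ψ₁ : ℝ → ℝ) (D t : ℝ) : ∫ r in (0 : ℝ)..1, SP ψ₁ D t r = ∑ n ∈ Finset.Icc 2 ⌊Real.exp D⌋₊,
    ((ArithmeticFunction.vonMangoldt n * ψ₁ (Real.log n / D) : ℝ) : ℂ) * (n : ℂ) ^ (-(3 / 2 + t * I)) *
      ((((n : ℝ) - 1) / Real.log n : ℝ) : ℂ) := by
  unfold SP
  rw [intervalIntegral.integral_finsetSum]
  · refine Finset.sum_congr rfl fun n hn => ?_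
    rw [Finset.mem_Icc] at hn
    have h1 : (0 : ℝ) < n := by
      have : 0 < n := by omega
      exact_mod_cast this
    have h2 : (1 : ℝ) < n := by
      have : 1 < n := by omega
      exact_mod_cast this
    have h3 : Real.log n ≠ 0 := (Real.log_pos h2).ne'
    rw [intervalIntegral.integral_const_mul, intervalIntegral.integral_ofReal, int_exp_r h3, Real.exp_log h1]
  · intro n _
    refine Continuous.intervalIntegrable ?_ _ _
    refine continuous_const.mul ?_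
    exact continuous_ofReal.comp (by fun_prop)

theorem PP_cmp (hK : Ker ψ₁ k₀) (D t : ℝ) : |(∫ r in (0 : ℝ)..1, SP ψ₁ D t r).re - PP ψ₁ D t| ≤ B1 / Real.log 2 := by
  unfold PP
  rw [SP_int, ← Complex.sub_re, ← Finset.sum_sub_distrib]
  have hl2 : 0 < Real.log 2 := Real.log_pos one_lt_two
  refine (Complex.abs_re_le_norm _).trans ((norm_sum_le _ _).trans ?_)
  have h1 : ∀ n ∈ Finset.Icc 2 ⌊Real.exp D⌋₊,
      ‖((ArithmeticFunction.vonMangoldt n * ψ₁ (Real.log n / D) : ℝ) : ℂ) * (n : ℂ) ^ (-(3 / 2 + t * I)) *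
        ((((n : ℝ) - 1) / Real.log n : ℝ) : ℂ) -
        ((ArithmeticFunction.vonMangoldt n / Real.log n * ψ₁ (Real.log n / D) : ℝ) : ℂ) * (n : ℂ) ^ (-(1 / 2 + t * I))‖ ≤
      ‖gt 0 n‖ / Real.log 2 := by
    intro n hn
    rw [Finset.mem_Icc] at hn
    have hn0 : n ≠ 0 := by omega
    have h1 : (0 : ℝ) < n := by positivity
    have h2 : (2 : ℝ) ≤ n := by exact_mod_cast hn.1
    have h3 : Real.log 2 ≤ Real.log n := Real.log_le_log two_pos h2
    have h4 : 0 < Real.log n := by linarith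
    have h4c : (Real.log n : ℂ) ≠ 0 := by exact_mod_cast h4.ne'
    have e1 : (n : ℂ) ^ (-(1 / 2 + t * I)) = (n : ℂ) * (n : ℂ) ^ (-(3 / 2 + t * I)) := by
      have : (n : ℂ) * (n : ℂ) ^ (-(3 / 2 + t * I)) = (n : ℂ) ^ (1 : ℂ) * (n : ℂ) ^ (-(3 / 2 + t * I)) := by rw [cpow_one]
      rw [this, ← cpow_add _ _ (by exact_mod_cast hn0)]
      congr 1
      ring
    have e2 : ((ArithmeticFunction.vonMangoldt n * ψ₁ (Real.log n / D) : ℝ) : ℂ) * (n : ℂ) ^ (-(3 / 2 + t * I)) *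
        ((((n : ℝ) - 1) / Real.log n : ℝ) : ℂ) -
        ((ArithmeticFunction.vonMangoldt n / Real.log n * ψ₁ (Real.log n / D) : ℝ) : ℂ) * (n : ℂ) ^ (-(1 / 2 + t * I)) =
        -(((ψ₁ (Real.log n / D) / Real.log n : ℝ) : ℂ) * ((ArithmeticFunction.vonMangoldt n : ℂ) * (n : ℂ) ^ (-(3 / 2 + t * I)))) := by
      rw [e1]
      push_cast
      field_simp
      ring
    rw [e2, norm_neg, norm_mul]
    have e3 : ‖(ArithmeticFunction.vonMangoldt n : ℂ) * (n : ℂ) ^ (-(3 / 2 + t * I))‖ = ‖gt 0 n‖ := by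
      rw [← gt_norm t n, gt_eq t t hn0]
      simp
    rw [e3, norm_real, Real.norm_eq_abs, abs_div, abs_of_pos h4]
    have h5 := hK.bd (Real.log n / D)
    calc |ψ₁ (Real.log n / D)| / Real.log n * ‖gt 0 n‖ ≤ 1 / Real.log 2 * ‖gt 0 n‖ := by gcongr
      _ = _ := by ring
  refine (Finset.sum_le_sum h1).trans ?_
  rw [← Finset.sum_div]
  refine div_le_div_of_nonneg_right ?_ hl2.le
  exact gt_sumn.sum_le_tsum _ fun _ _ => norm_nonneg _

theorem prime_part (hKB : S_KB) (hK : Ker ψ₁ k₀) : ∃ C : ℝ, 0 ≤ C ∧ ∀ D T t c d : ℝ, 1 ≤ D → Real.exp D ≤ T →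
    c ≤ t - T / 8 → t + T / 8 ≤ d →
    |-(∫ σ in (1 / 2 : ℝ)..(3 / 2), (∫ y in c..d, deriv riemannZeta ⟨3 / 2, y⟩ / riemannZeta ⟨3 / 2, y⟩ *
      kap ψ₁ D (((3 / 2 - σ : ℝ) : ℂ) + (y - t : ℝ) * I)).re) - PP ψ₁ D t| ≤ C := by
  obtain ⟨C, hC, h⟩ := far hKB hK
  have hB := B1_nonneg
  have hl2 : 0 < Real.log 2 := Real.log_pos one_lt_two
  refine ⟨C + B1 / Real.log 2, by positivity, fun D T t c d hD hT hc hd => ?_⟩
  set V : ℝ → ℂ := fun r => ∫ y in c..d, Gz y * kap ψ₁ D ((r : ℂ) + ((y - t : ℝ) : ℂ) * I) with hV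
  have hVc : Continuous V := by
    refine intervalIntegral.continuous_parametric_intervalIntegral_of_continuous' (f := fun r y : ℝ =>
      Gz y * kap ψ₁ D ((r : ℂ) + ((y - t : ℝ) : ℂ) * I)) ?_ c d
    exact (Gz_cont.comp continuous_snd).mul (kap_cont hK D t)
  have e0 : (∫ σ in (1 / 2 : ℝ)..(3 / 2), (∫ y in c..d, deriv riemannZeta ⟨3 / 2, y⟩ / riemannZeta ⟨3 / 2, y⟩ *
      kap ψ₁ D (((3 / 2 - σ : ℝ) : ℂ) + (y - t : ℝ) * I)).re) = ∫ r in (0 : ℝ)..1, (V r).re := by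
    have h1 := intervalIntegral.integral_comp_sub_left (a := 1 / 2) (b := 3 / 2) (fun r => (V r).re) (3 / 2)
    rw [show (3 / 2 - 3 / 2 : ℝ) = 0 by norm_num, show (3 / 2 - 1 / 2 : ℝ) = 1 by norm_num] at h1
    exact h1
  rw [e0]
  have hSc := SP_cont ψ₁ D t
  have e1 : (∫ r in (0 : ℝ)..1, SP ψ₁ D t r).re = ∫ r in (0 : ℝ)..1, (SP ψ₁ D t r).re := by
    have := Complex.reCLM.intervalIntegral_comp_comm (hSc.intervalIntegrable (μ := volume) 0 1)
    simpa using this.symm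
  have h1 := PP_cmp hK D t
  rw [e1] at h1
  have h2 : |(∫ r in (0 : ℝ)..1, (V r).re) + ∫ r in (0 : ℝ)..1, (SP ψ₁ D t r).re| ≤ C := by
    have i1 : IntervalIntegrable (fun r => (V r).re) volume 0 1 := (continuous_re.comp hVc).intervalIntegrable _ _
    have i2 : IntervalIntegrable (fun r => (SP ψ₁ D t r).re) volume 0 1 := (continuous_re.comp hSc).intervalIntegrable _ _
    rw [← intervalIntegral.integral_add i1 i2]
    have h3 := intervalIntegral.norm_integral_le_of_norm_le_const (a := 0) (b := 1)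
      (f := fun r => (V r).re + (SP ψ₁ D t r).re) (C := C) (fun r hr => ?_)
    · rw [sub_zero, abs_one, mul_one] at h3
      exact h3
    · rw [Set.uIoc_of_le zero_le_one] at hr
      have h4 := h D T t c d r hD hT hc hd hr.1.le hr.2
      rw [← Complex.add_re]
      exact (Complex.abs_re_le_norm _).trans h4
  have h5 : -(∫ r in (0 : ℝ)..1, (V r).re) - PP ψ₁ D t = -((∫ r in (0 : ℝ)..1, (V r).re) + ∫ r in (0 : ℝ)..1, (SP ψ₁ D t r).re) +
      ((∫ r in (0 : ℝ)..1, (SP ψ₁ D t r).re) - PP ψ₁ D t) := by ring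
  rw [h5]
  refine (abs_add_le _ _).trans ?_
  rw [abs_neg]
  exact add_le_add h2 h1

end

end Pool.Agent.Q257.UM.VA
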